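import Mathlib
import Pool.Agent.Helper10.Weil

/-!
# Chow groups with rational coefficients, correspondences, Chow-Künneth decompositions

Cycles are rational combinations of integral closed subvarieties (given by their generic points),
rational equivalence is generated by divisors of rational functions on integral closed
subschemes.  A `ChowTheory` consists of the operations on Chow groups (intersection product,
pull-back, push-forward) and the cycle class map to a Weil cohomology theory, with their
standard properties.
-/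

universe u v w

open CategoryTheory AlgebraicGeometry

namespace Pool.Agent.Helper47.Chow

open Pool.Agent.Helper10 Pool.Agent.Helper10.SmProjVar

section Groups

variable {k : Type u} [Field k]

/-- Algebraic cycles on `X` with rational coefficients: finite rational combinations of integral
closed subvarieties, which are given by their generic points. -/
def QCycles (X : SmProjVar k) : Type u := X.Pt →₀ ℚ

noncomputable instance (X : SmProjVar k) : AddCommGroup (QCycles X) :=
  Finsupp.instAddCommGroup (ι := X.Pt) (G := ℚ)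

noncomputable instance (X : SmProjVar k) : Module ℚ (QCycles X) := Finsupp.module X.Pt ℚ

/-- The coefficient of a cycle at the subvariety with generic point `x`. -/
def QCycles.coeff {X : SmProjVar k} (z : QCycles X) (x : X.Pt) : ℚ := Finsupp.toFun z x

/-- The integral closed subvariety with generic point `x`, as a cycle. -/
noncomputable def QCycles.point {X : SmProjVar k} (x : X.Pt) : QCycles X := Finsupp.single x 1

/-- The cycle `z` is the divisor of a non-zero rational function `f` on an integral closed
subscheme `ι : W ⟶ X`: its coefficient at `ι w` is the order of vanishing of `f` at `w` (which is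
`0` unless `w` is a point of codimension one of `W`), and it is `0` outside `W`. -/
def IsDivisor (X : SmProjVar k) (z : QCycles X) : Prop :=
  ∃ (W : Scheme.{u}) (_ : IsIntegral W) (_ : IsLocallyNoetherian W) (ι : W ⟶ X.toOver.left)
    (_ : IsClosedImmersion ι) (f : W.functionField), f ≠ 0 ∧
      (∀ w : W, z.coeff (ι w) = (Scheme.ord f w : ℚ)) ∧
        ∀ x : X.Pt, x ∉ Set.range ι → z.coeff x = 0

/-- The rational cycles which are rationally equivalent to zero. -/
noncomputable def ratZero (X : SmProjVar k) : Submodule ℚ (QCycles X) :=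
  Submodule.span ℚ {z | IsDivisor X z}

/-- `CH(X)`: the total Chow group of `X` with rational coefficients, i.e. cycles modulo rational
equivalence. -/
def CH (X : SmProjVar k) : Type u := QCycles X ⧸ ratZero X

noncomputable instance (X : SmProjVar k) : AddCommGroup (CH X) :=
  Submodule.Quotient.addCommGroup (ratZero X)

noncomputable instance (X : SmProjVar k) : Module ℚ (CH X) :=
  Submodule.Quotient.module (ratZero X)

/-- The class in `CH(X)` of a cycle. -/
noncomputable def cls (X : SmProjVar k) (z : QCycles X) : CH X := Submodule.Quotient.mk z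

/-- The class in `CH(X)` of the integral closed subvariety with generic point `x`. -/
noncomputable def ptCls (X : SmProjVar k) (x : X.Pt) : CH X := cls X (QCycles.point x)

/-- `CH^i(X)`: classes of cycles of codimension `i`. -/
def CHi (X : SmProjVar k) (i : ℕ) : Set (CH X) :=
  {a | ∃ z : QCycles X, (∀ x, z.coeff x ≠ 0 → X.pointDim x + i = X.dim) ∧ cls X z = a}

/-- The class of `X` itself. -/
noncomputable def one (X : SmProjVar k) : CH X := ptCls X X.genericPt

/-- The diagonal `X ⟶ X × X`. -/
noncomputable def diag (X : SmProjVar k) : X.toOver ⟶ (X.prod X).toOver := lift (𝟙 _) (𝟙 _)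

/-- Projections from `X × (Y × Z)`. -/
noncomputable def p12 (X Y Z : SmProjVar k) : (X.prod (Y.prod Z)).toOver ⟶ (X.prod Y).toOver :=
  lift (fst X (Y.prod Z)) (snd X (Y.prod Z) ≫ fst Y Z)

/-- Projections from `X × (Y × Z)`. -/
noncomputable def p13 (X Y Z : SmProjVar k) : (X.prod (Y.prod Z)).toOver ⟶ (X.prod Z).toOver :=
  lift (fst X (Y.prod Z)) (snd X (Y.prod Z) ≫ snd Y Z)

/-- Projections from `X × (Y × Z)`. -/
noncomputable abbrev p23 (X Y Z : SmProjVar k) :
    (X.prod (Y.prod Z)).toOver ⟶ (Y.prod Z).toOver :=
  snd X (Y.prod Z)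

end Groups

variable {k : Type u} [Field k] {K : Type v} [Field K] [CharZero K]

/-- The operations on the Chow groups of smooth projective varieties over `k`, with a cycle class
map to the Weil cohomology theory `W`. -/
structure ChowData (W : WeilCohomology.{u, v, w} k K) where
  /-- the intersection product -/
  mul : ∀ X : SmProjVar k, CH X → CH X → CH X
  /-- the pull-back `f^*` -/
  pull : ∀ {X Y : SmProjVar k}, (X.toOver ⟶ Y.toOver) → CH Y → CH X
  /-- the push-forward `f_*` -/
  push : ∀ {X Y : SmProjVar k}, (X.toOver ⟶ Y.toOver) → CH X → CH Y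
  /-- the cycle class map -/
  cl : ∀ X : SmProjVar k, CH X → W.H X

namespace ChowData

variable {W : WeilCohomology.{u, v, w} k K} (C : ChowData W)

/-- The operations are linear over the rational numbers. -/
structure IsLinear : Prop where
  mul_add : ∀ X (a b c : CH X), C.mul X a (b + c) = C.mul X a b + C.mul X a c
  mul_smul : ∀ X (r : ℚ) (a b : CH X), C.mul X a (r • b) = r • C.mul X a b
  pull_add : ∀ {X Y : SmProjVar k} (f : X.toOver ⟶ Y.toOver) (a b : CH Y),
    C.pull f (a + b) = C.pull f a + C.pull f b
  pull_smul : ∀ {X Y : SmProjVar k} (f : X.toOver ⟶ Y.toOver) (r : ℚ) (a : CH Y),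
    C.pull f (r • a) = r • C.pull f a
  push_add : ∀ {X Y : SmProjVar k} (f : X.toOver ⟶ Y.toOver) (a b : CH X),
    C.push f (a + b) = C.push f a + C.push f b
  push_smul : ∀ {X Y : SmProjVar k} (f : X.toOver ⟶ Y.toOver) (r : ℚ) (a : CH X),
    C.push f (r • a) = r • C.push f a
  cl_add : ∀ X (a b : CH X), C.cl X (a + b) = C.cl X a + C.cl X b

/-- `CH(X)` is a commutative graded ring with unit the class of `X`. -/
structure IsRingLike : Prop where
  mul_assoc : ∀ X (a b c : CH X), C.mul X (C.mul X a b) c = C.mul X a (C.mul X b c)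
  mul_comm : ∀ X (a b : CH X), C.mul X a b = C.mul X b a
  one_mul : ∀ X (a : CH X), C.mul X (one X) a = a
  mul_mem : ∀ X i j (a b : CH X), a ∈ CHi X i → b ∈ CHi X j → C.mul X a b ∈ CHi X (i + j)

/-- The pull-back is a functorial homomorphism of graded rings. -/
structure IsPullBack : Prop where
  pull_one : ∀ {X Y : SmProjVar k} (f : X.toOver ⟶ Y.toOver), C.pull f (one Y) = one X
  pull_mul : ∀ {X Y : SmProjVar k} (f : X.toOver ⟶ Y.toOver) (a b : CH Y),
    C.pull f (C.mul Y a b) = C.mul X (C.pull f a) (C.pull f b)
  pull_mem : ∀ {X Y : SmProjVar k} (f : X.toOver ⟶ Y.toOver) (i : ℕ) (a : CH Y),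
    a ∈ CHi Y i → C.pull f a ∈ CHi X i
  pull_id : ∀ (X : SmProjVar k) (a : CH X), C.pull (𝟙 X.toOver) a = a
  pull_comp : ∀ {X Y Z : SmProjVar k} (f : X.toOver ⟶ Y.toOver) (g : Y.toOver ⟶ Z.toOver)
    (a : CH Z), C.pull (f ≫ g) a = C.pull f (C.pull g a)

/-- The push-forward is functorial and induced by the push-forward of cycles: the class of a
subvariety goes to the degree over its image times the class of the image, and to `0` if the
image has smaller dimension. -/
structure IsPushForward : Prop where
  push_ptCls : ∀ {X Y : SmProjVar k} (f : X.toOver ⟶ Y.toOver) (x : X.Pt),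
    C.push f (ptCls X x) = (if X.pointDim x = Y.pointDim (f.left x) then
      (f.left.residueDegree x : ℚ) else 0) • ptCls Y (f.left x)
  push_id : ∀ (X : SmProjVar k) (a : CH X), C.push (𝟙 X.toOver) a = a
  push_comp : ∀ {X Y Z : SmProjVar k} (f : X.toOver ⟶ Y.toOver) (g : Y.toOver ⟶ Z.toOver)
    (a : CH X), C.push (f ≫ g) a = C.push g (C.push f a)

/-- The compatibilities between push-forward and pull-back: the projection formula, flat base
change, and the fact that the push-forward of `z × Y` to `Y` is `deg z` times the class of `Y`. -/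
structure IsCompatible : Prop where
  projection : ∀ {X Y : SmProjVar k} (f : X.toOver ⟶ Y.toOver) (a : CH X) (b : CH Y),
    C.push f (C.mul X a (C.pull f b)) = C.mul Y (C.push f a) b
  base_change : ∀ {X Y X' Y' : SmProjVar k} (f : X.toOver ⟶ Y.toOver)
    (g : Y'.toOver ⟶ Y.toOver) (g' : X'.toOver ⟶ X.toOver) (f' : X'.toOver ⟶ Y'.toOver),
    IsPullback g' f' f g → Flat g.left → ∀ a : CH X, C.pull g (C.push f a) = C.push f' (C.pull g' a)
  push_snd_pull_fst : ∀ (X Y : SmProjVar k) (x : X.Pt),
    C.push (snd X Y) (C.pull (fst X Y) (ptCls X x)) =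
      (if X.pointDim x = 0 then (X.residueDeg x : ℚ) else 0) • one Y

/-- The cycle class map extends the one of `W` and is compatible with the operations; the
push-forward on cohomology is the Poincaré dual of the pull-back. -/
structure IsCycleClassMap : Prop where
  cl_cls : ∀ (X : SmProjVar k) (j : ℕ) (c : X.Z j) (z : QCycles X),
    (∀ x, z.coeff x = (c.toCyc.coeff x : ℚ)) → C.cl X (cls X z) = W.cy X j c
  cl_mem : ∀ (X : SmProjVar k) (i : ℕ) (a : CH X), a ∈ CHi X i → C.cl X a ∈ W.gr X (2 * i)
  cl_mul : ∀ X (a b : CH X), C.cl X (C.mul X a b) = C.cl X a * C.cl X b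
  cl_pull : ∀ {X Y : SmProjVar k} (f : X.toOver ⟶ Y.toOver) (a : CH Y),
    C.cl X (C.pull f a) = W.pull f (C.cl Y a)
  cl_push : ∀ {X Y : SmProjVar k} (f : X.toOver ⟶ Y.toOver) (a : CH X) (y : W.H Y),
    W.tr Y (C.cl Y (C.push f a) * y) = W.tr X (C.cl X a * W.pull f y)

end ChowData

/-- Intersection theory on the Chow groups of smooth projective varieties over `k`, with the cycle
class map to the Weil cohomology theory `W`. -/
structure ChowTheory (W : WeilCohomology.{u, v, w} k K) where
  /-- the operations -/
  ops : ChowData W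
  linear : ops.IsLinear
  ringLike : ops.IsRingLike
  pullBack : ops.IsPullBack
  pushForward : ops.IsPushForward
  compatible : ops.IsCompatible
  cycleClassMap : ops.IsCycleClassMap

namespace ChowTheory

variable {W : WeilCohomology.{u, v, w} k K} (C : ChowTheory W)

/-- The composition `γ ∘ β` of the correspondences `β ∈ CH(X × Y)` and `γ ∈ CH(Y × Z)`. -/
noncomputable def comp {X Y Z : SmProjVar k} (β : CH (X.prod Y)) (γ : CH (Y.prod Z)) :
    CH (X.prod Z) :=
  C.ops.push (p13 X Y Z) (C.ops.mul _ (C.ops.pull (p12 X Y Z) β) (C.ops.pull (p23 X Y Z) γ))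

/-- The class of the diagonal. -/
noncomputable def Δ (X : SmProjVar k) : CH (X.prod X) := C.ops.push (diag X) (one X)

/-- The action `γ_* : CH(X) → CH(Y)` of a correspondence `γ ∈ CH(X × Y)`. -/
noncomputable def act {X Y : SmProjVar k} (γ : CH (X.prod Y)) (a : CH X) : CH Y :=
  C.ops.push (snd X Y) (C.ops.mul (X.prod Y) (C.ops.pull (fst X Y) a) γ)

/-- A Chow-Künneth decomposition of `X`: elements `π 0, …, π (2 d)` of `CH^d(X × X)`, `d = dim X`
(and `π i = 0` for `i > 2 d`), which are orthogonal idempotents for the composition, with sum the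
class of the diagonal, such that `π i` acts as the identity on `H^i(X)` and as `0` on `H^j(X)` for
`j ≠ i`.  The action of `γ` on `x ∈ H(X)` is the element dual to `y ↦ ∫ p^* x ∪ cl(γ) ∪ q^* y`. -/
structure IsCK (X : SmProjVar k) (π : ℕ → CH (X.prod X)) : Prop where
  mem : ∀ i, π i ∈ CHi (X.prod X) X.dim
  zero : ∀ i, 2 * X.dim < i → π i = 0
  idem : ∀ i, C.comp (π i) (π i) = π i
  orth : ∀ i j, i ≠ j → C.comp (π i) (π j) = 0
  sum : ∑ i ∈ Finset.range (2 * X.dim + 1), π i = C.Δ X
  act_same : ∀ i, ∀ x ∈ W.gr X i, ∀ y : W.H X,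
    W.tr (X.prod X) (W.pull (fst X X) x * C.ops.cl _ (π i) * W.pull (snd X X) y) = W.tr X (x * y)
  act_other : ∀ i j, i ≠ j → ∀ x ∈ W.gr X j, ∀ y : W.H X,
    W.tr (X.prod X) (W.pull (fst X X) x * C.ops.cl _ (π i) * W.pull (snd X X) y) = 0

/-- The filtration `F^ν CH^i(X) = (π^{2i-ν} + … + π^0)_* CH^i(X)` induced by `π`; projectors with
negative index are read as `0`. -/
def F (X : SmProjVar k) (π : ℕ → CH (X.prod X)) (ν i : ℕ) : Set (CH X) :=
  {b | ∃ a ∈ CHi X i, C.act
    (∑ j ∈ (Finset.range (2 * X.dim + 1)).filter (fun j => j + ν ≤ 2 * i), π j) a = b}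

/-- Murre's conjecture (D) for the decomposition `π` in codimension `i`: `F^1 CH^i(X)` is the
kernel of the cycle class map on `CH^i(X)`. -/
def MurreD (X : SmProjVar k) (π : ℕ → CH (X.prod X)) (i : ℕ) : Prop :=
  ∀ a ∈ CHi X i, a ∈ C.F X π 1 i ↔ C.ops.cl X a = 0

end ChowTheory

end Pool.Agent.Helper47.Chow
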