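import Mathlib
import Pool.Agent.Helper47.Chow.Defs

/-!
# The operations of a Chow theory as linear maps
-/

universe u v w

open CategoryTheory AlgebraicGeometry

namespace Pool.Agent.Helper47.Chow

open Pool.Agent.Helper10 Pool.Agent.Helper10.SmProjVar

variable {k : Type u} [Field k] {K : Type v} [Field K] [CharZero K]

namespace ChowTheory

variable {W : WeilCohomology.{u, v, w} k K} (C : ChowTheory W)

variable {X Y Z : SmProjVar k}

/-- The intersection product as a bilinear map. -/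
noncomputable def mul (X : SmProjVar k) : CH X →ₗ[ℚ] CH X →ₗ[ℚ] CH X :=
  LinearMap.mk₂ ℚ (C.ops.mul X)
    (fun a b c => by
      rw [C.ringLike.mul_comm, C.linear.mul_add, C.ringLike.mul_comm X c a,
        C.ringLike.mul_comm X c b])
    (fun r a b => by
      rw [C.ringLike.mul_comm, C.linear.mul_smul, C.ringLike.mul_comm X b a])
    (fun a b c => C.linear.mul_add X a b c)
    (fun r a b => C.linear.mul_smul X r a b)

/-- The pull-back as a linear map. -/
def pull (f : X.toOver ⟶ Y.toOver) : CH Y →ₗ[ℚ] CH X where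
  toFun := C.ops.pull f
  map_add' := C.linear.pull_add f
  map_smul' := C.linear.pull_smul f

/-- The push-forward as a linear map. -/
def push (f : X.toOver ⟶ Y.toOver) : CH X →ₗ[ℚ] CH Y where
  toFun := C.ops.push f
  map_add' := C.linear.push_add f
  map_smul' := C.linear.push_smul f

/-- The cycle class map as an additive map. -/
noncomputable def cl (X : SmProjVar k) : CH X →+ W.H X := AddMonoidHom.mk' (C.ops.cl X) (C.linear.cl_add X)

/-- The action of a correspondence as a linear map. -/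
noncomputable def actL (γ : CH (X.prod Y)) : CH X →ₗ[ℚ] CH Y :=
  C.push (snd X Y) ∘ₗ (C.mul (X.prod Y)).flip γ ∘ₗ C.pull (fst X Y)

lemma actL_apply (γ : CH (X.prod Y)) (a : CH X) : C.actL γ a = C.act γ a := rfl

lemma mul_assoc (X : SmProjVar k) (a b c : CH X) :
    C.mul X (C.mul X a b) c = C.mul X a (C.mul X b c) := C.ringLike.mul_assoc X a b c

lemma mul_comm (X : SmProjVar k) (a b : CH X) : C.mul X a b = C.mul X b a :=
  C.ringLike.mul_comm X a b

lemma one_mul (X : SmProjVar k) (a : CH X) : C.mul X (one X) a = a := C.ringLike.one_mul X a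

lemma mul_mem (X : SmProjVar k) (i j : ℕ) (a b : CH X) (ha : a ∈ CHi X i) (hb : b ∈ CHi X j) :
    C.mul X a b ∈ CHi X (i + j) := C.ringLike.mul_mem X i j a b ha hb

lemma pull_one (f : X.toOver ⟶ Y.toOver) : C.pull f (one Y) = one X := C.pullBack.pull_one f

lemma pull_mul (f : X.toOver ⟶ Y.toOver) (a b : CH Y) :
    C.pull f (C.mul Y a b) = C.mul X (C.pull f a) (C.pull f b) := C.pullBack.pull_mul f a b

lemma pull_mem (f : X.toOver ⟶ Y.toOver) (i : ℕ) (a : CH Y) (ha : a ∈ CHi Y i) :
    C.pull f a ∈ CHi X i := C.pullBack.pull_mem f i a ha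

lemma pull_id (X : SmProjVar k) (a : CH X) : C.pull (𝟙 X.toOver) a = a := C.pullBack.pull_id X a

lemma pull_comp (f : X.toOver ⟶ Y.toOver) (g : Y.toOver ⟶ Z.toOver) (a : CH Z) :
    C.pull (f ≫ g) a = C.pull f (C.pull g a) := C.pullBack.pull_comp f g a

lemma push_ptCls (f : X.toOver ⟶ Y.toOver) (x : X.Pt) :
    C.push f (ptCls X x) = (if X.pointDim x = Y.pointDim (f.left x) then
      (f.left.residueDegree x : ℚ) else 0) • ptCls Y (f.left x) := C.pushForward.push_ptCls f x

lemma push_id (X : SmProjVar k) (a : CH X) : C.push (𝟙 X.toOver) a = a :=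
  C.pushForward.push_id X a

lemma push_comp (f : X.toOver ⟶ Y.toOver) (g : Y.toOver ⟶ Z.toOver) (a : CH X) :
    C.push (f ≫ g) a = C.push g (C.push f a) := C.pushForward.push_comp f g a

lemma projection (f : X.toOver ⟶ Y.toOver) (a : CH X) (b : CH Y) :
    C.push f (C.mul X a (C.pull f b)) = C.mul Y (C.push f a) b := C.compatible.projection f a b

lemma base_change {X Y X' Y' : SmProjVar k} (f : X.toOver ⟶ Y.toOver)
    (g : Y'.toOver ⟶ Y.toOver) (g' : X'.toOver ⟶ X.toOver) (f' : X'.toOver ⟶ Y'.toOver)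
    (h : IsPullback g' f' f g) (hg : Flat g.left) (a : CH X) :
    C.pull g (C.push f a) = C.push f' (C.pull g' a) := C.compatible.base_change f g g' f' h hg a

lemma push_snd_pull_fst (X Y : SmProjVar k) (x : X.Pt) :
    C.push (snd X Y) (C.pull (fst X Y) (ptCls X x)) =
      (if X.pointDim x = 0 then (X.residueDeg x : ℚ) else 0) • one Y :=
  C.compatible.push_snd_pull_fst X Y x

lemma cl_cls (X : SmProjVar k) (j : ℕ) (c : X.Z j) (z : QCycles X)
    (h : ∀ x, z.coeff x = (c.toCyc.coeff x : ℚ)) : C.cl X (cls X z) = W.cy X j c :=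
  C.cycleClassMap.cl_cls X j c z h

lemma cl_mem (X : SmProjVar k) (i : ℕ) (a : CH X) (ha : a ∈ CHi X i) :
    C.cl X a ∈ W.gr X (2 * i) := C.cycleClassMap.cl_mem X i a ha

lemma cl_mul (X : SmProjVar k) (a b : CH X) : C.cl X (C.mul X a b) = C.cl X a * C.cl X b :=
  C.cycleClassMap.cl_mul X a b

lemma cl_pull (f : X.toOver ⟶ Y.toOver) (a : CH Y) :
    C.cl X (C.pull f a) = W.pull f (C.cl Y a) := C.cycleClassMap.cl_pull f a

lemma cl_push (f : X.toOver ⟶ Y.toOver) (a : CH X) (y : W.H Y) :
    W.tr Y (C.cl Y (C.push f a) * y) = W.tr X (C.cl X a * W.pull f y) :=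
  C.cycleClassMap.cl_push f a y

end ChowTheory

/-- `CH^i(X)` as a subspace. -/
noncomputable def CHiL (X : SmProjVar k) (i : ℕ) : Submodule ℚ (CH X) where
  carrier := CHi X i
  zero_mem' := ⟨0, fun _ hx => absurd rfl hx, rfl⟩
  add_mem' := by
    rintro _ _ ⟨z, hz, rfl⟩ ⟨z', hz', rfl⟩
    refine ⟨z + z', fun x hx => ?_, rfl⟩
    by_cases h : z.coeff x = 0
    · refine hz' x fun h' => hx ?_
      change z.coeff x + z'.coeff x = 0
      rw [h, h', add_zero]
    · exact hz x h
  smul_mem' := by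
    rintro r _ ⟨z, hz, rfl⟩
    refine ⟨r • z, fun x hx => hz x fun h => hx ?_, rfl⟩
    change r * z.coeff x = 0
    rw [h, mul_zero]

lemma mem_CHiL {X : SmProjVar k} {i : ℕ} {a : CH X} : a ∈ CHiL X i ↔ a ∈ CHi X i := Iff.rfl

end Pool.Agent.Helper47.Chow
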