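import Mathlib
import Pool.Agent.Helper47.Chow.Ops

/-!
# Cartesian squares of products of smooth projective varieties
-/

universe u v w

open CategoryTheory AlgebraicGeometry Limits

namespace Pool.Agent.Helper47.Chow

open Pool.Agent.Helper10 Pool.Agent.Helper10.SmProjVar

variable {k : Type u} [Field k]

attribute [local simp] SmProjVar.lift_fst_assoc SmProjVar.lift_snd_assoc

/-- The universal property of the product, for arbitrary test objects. -/
noncomputable def liftT {T : Over (Spec (CommRingCat.of k))} {X Y : SmProjVar k}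
    (f : T ⟶ X.toOver) (g : T ⟶ Y.toOver) : T ⟶ (X.prod Y).toOver :=
  Over.homMk (pullback.lift f.left g.left (by rw [Over.w f, Over.w g]))
    (by
      change pullback.lift _ _ _ ≫ pullback.fst _ _ ≫ X.toOver.hom = _
      rw [pullback.lift_fst_assoc, Over.w f])

@[reassoc (attr := simp)]
lemma liftT_fst {T : Over (Spec (CommRingCat.of k))} {X Y : SmProjVar k}
    (f : T ⟶ X.toOver) (g : T ⟶ Y.toOver) : liftT f g ≫ fst X Y = f := by
  ext1
  exact pullback.lift_fst _ _ _

@[reassoc (attr := simp)]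
lemma liftT_snd {T : Over (Spec (CommRingCat.of k))} {X Y : SmProjVar k}
    (f : T ⟶ X.toOver) (g : T ⟶ Y.toOver) : liftT f g ≫ snd X Y = g := by
  ext1
  exact pullback.lift_snd _ _ _

lemma prod_ext {T : Over (Spec (CommRingCat.of k))} {X Y : SmProjVar k}
    {f g : T ⟶ (X.prod Y).toOver}
    (h₁ : f ≫ fst X Y = g ≫ fst X Y) (h₂ : f ≫ snd X Y = g ≫ snd X Y) : f = g := by
  ext1
  apply pullback.hom_ext
  · exact congrArg CommaMorphism.left h₁
  · exact congrArg CommaMorphism.left h₂

/-- A criterion for a square of varieties over `k` to be cartesian. -/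
lemma isPullback_mk {A B P Q : Over (Spec (CommRingCat.of k))} (g' : P ⟶ A) (f' : P ⟶ Q)
    (f : A ⟶ B) (g : Q ⟶ B) (w : g' ≫ f = f' ≫ g)
    (ex : ∀ (T : Over (Spec (CommRingCat.of k))) (s : T ⟶ A) (t : T ⟶ Q), s ≫ f = t ≫ g →
      ∃ l : T ⟶ P, l ≫ g' = s ∧ l ≫ f' = t)
    (un : ∀ (T : Over (Spec (CommRingCat.of k))) (l l' : T ⟶ P), l ≫ g' = l' ≫ g' →
      l ≫ f' = l' ≫ f' → l = l') : IsPullback g' f' f g := by
  refine ⟨⟨w⟩, ⟨PullbackCone.IsLimit.mk w (fun s => (ex s.pt s.fst s.snd s.condition).choose)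
    (fun s => (ex s.pt s.fst s.snd s.condition).choose_spec.1)
    (fun s => (ex s.pt s.fst s.snd s.condition).choose_spec.2) ?_⟩⟩
  intro s l h1 h2
  have h := (ex s.pt s.fst s.snd s.condition).choose_spec
  exact un _ _ _ (by rw [h1, h.1]) (by rw [h2, h.2])

variable (X Y Z U : SmProjVar k)

/-- `(x, y) ↦ (x, f y)`. -/
noncomputable def idProd {A B : SmProjVar k} (f : A.toOver ⟶ B.toOver) :
    (X.prod A).toOver ⟶ (X.prod B).toOver :=
  lift (fst X A) (snd X A ≫ f)

lemma isPullback_snd {A B : SmProjVar k} (f : A.toOver ⟶ B.toOver) :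
    IsPullback (snd X A) (idProd X f) f (snd X B) := by
  refine isPullback_mk _ _ _ _ ?_ ?_ ?_
  · simp [idProd]
  · intro T s t h
    refine ⟨liftT (t ≫ fst X B) s, by simp, ?_⟩
    apply prod_ext
    · simp [idProd]
    · simp [idProd, h]
  · intro T l l' h1 h2
    apply prod_ext
    · have := congrArg (· ≫ fst X B) h2
      simpa [idProd] using this
    · exact h1

lemma isPullback_p12 : IsPullback (p12 X Y Z) (p23 X Y Z) (snd X Y) (fst Y Z) := by
  refine isPullback_mk _ _ _ _ ?_ ?_ ?_
  · simp [p12]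
  · intro T s t h
    refine ⟨liftT (s ≫ fst X Y) t, ?_, by simp⟩
    apply prod_ext
    · simp [p12]
    · simp [p12, h]
  · intro T l l' h1 h2
    apply prod_ext
    · have := congrArg (· ≫ fst X Y) h1
      simpa [p12] using this
    · exact h2

/-- `(x, y, z, u) ↦ (x, y, z)`. -/
noncomputable def p123 : (X.prod (Y.prod (Z.prod U))).toOver ⟶ (X.prod (Y.prod Z)).toOver :=
  lift (fst _ _) (snd _ _ ≫ p12 Y Z U)

/-- `(x, y, z, u) ↦ (x, z, u)`. -/
noncomputable def p134 : (X.prod (Y.prod (Z.prod U))).toOver ⟶ (X.prod (Z.prod U)).toOver :=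
  lift (fst _ _) (snd _ _ ≫ snd _ _)

lemma isPullback_p123 :
    IsPullback (p123 X Y Z U) (p134 X Y Z U) (p13 X Y Z) (p12 X Z U) := by
  refine isPullback_mk _ _ _ _ ?_ ?_ ?_
  · apply prod_ext
    · simp [p123, p134, p13, p12]
    · simp [p123, p134, p13, p12]
  · intro T s t h
    have h1 : s ≫ fst X (Y.prod Z) = t ≫ fst X (Z.prod U) := by
      have := congrArg (· ≫ fst X Z) h
      simpa [p13, p12] using this
    have h2 : s ≫ snd X (Y.prod Z) ≫ snd Y Z = t ≫ snd X (Z.prod U) ≫ fst Z U := by
      have := congrArg (· ≫ snd X Z) h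
      simpa [p13, p12] using this
    refine ⟨liftT (s ≫ fst _ _)
      (liftT (s ≫ snd _ _ ≫ fst _ _) (t ≫ snd _ _)), ?_, ?_⟩
    · apply prod_ext
      · simp [p123]
      · apply prod_ext
        · simp [p123, p12]
        · simp [p123, p12, h2]
    · apply prod_ext
      · simp [p134, h1]
      · simp [p134]
  · intro T l l' h1 h2
    apply prod_ext
    · have := congrArg (· ≫ fst X (Y.prod Z)) h1
      simpa [p123] using this
    · apply prod_ext
      · have := congrArg (· ≫ snd X (Y.prod Z) ≫ fst Y Z) h1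
        simpa [p123, p12] using this
      · have := congrArg (· ≫ snd X (Z.prod U)) h2
        simpa [p134] using this

/-- `(x, y) ↦ (x, x, y)`. -/
noncomputable def diag12 : (X.prod Y).toOver ⟶ (X.prod (X.prod Y)).toOver :=
  lift (fst _ _) (𝟙 _)

lemma isPullback_diag12 : IsPullback (fst X Y) (diag12 X Y) (diag X) (p12 X X Y) := by
  refine isPullback_mk _ _ _ _ ?_ ?_ ?_
  · apply prod_ext
    · simp [diag12, diag, p12]
    · simp [diag12, diag, p12]
  · intro T s t h
    have h1 : s = t ≫ fst X (X.prod Y) := by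
      have := congrArg (· ≫ fst X X) h
      simpa [diag, p12] using this
    have h2 : s = t ≫ snd X (X.prod Y) ≫ fst X Y := by
      have := congrArg (· ≫ snd X X) h
      simpa [diag, p12] using this
    refine ⟨t ≫ snd _ _, by rw [Category.assoc]; exact h2.symm, ?_⟩
    apply prod_ext
    · simp [diag12, ← h1, ← h2]
    · simp [diag12]
  · intro T l l' h1 h2
    have := congrArg (· ≫ snd X (X.prod Y)) h2
    simpa [diag12] using this

instance flat_fst : Flat (fst X Y).left :=
  inferInstanceAs (Flat (pullback.fst X.toOver.hom Y.toOver.hom))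

instance flat_snd : Flat (snd X Y).left :=
  inferInstanceAs (Flat (pullback.snd X.toOver.hom Y.toOver.hom))

instance flat_p12 : Flat (p12 X Y Z).left := by
  have h := (isPullback_p12 X Y Z).map (Over.forget _)
  exact MorphismProperty.of_isPullback (P := @Flat) h.flip (flat_fst Y Z)

end Pool.Agent.Helper47.Chow
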