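import Mathlib
import Pool.Agent.Helper47.Chow.Squares

/-!
# The formalism of correspondences
-/

universe u v w

open CategoryTheory AlgebraicGeometry Limits

namespace Pool.Agent.Helper47.Chow.ChowTheory

open Pool.Agent.Helper10 Pool.Agent.Helper10.SmProjVar

attribute [local simp] SmProjVar.lift_fst_assoc SmProjVar.lift_snd_assoc

variable {k : Type u} [Field k] {K : Type v} [Field K] [CharZero K]
  {W : WeilCohomology.{u, v, w} k K} (C : ChowTheory W)

section Basic

variable {X Y : SmProjVar k}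

lemma projection' (f : X.toOver ⟶ Y.toOver) (a : CH Y) (b : CH X) :
    C.push f (C.mul X (C.pull f a) b) = C.mul Y a (C.push f b) := by
  rw [C.mul_comm, C.projection, C.mul_comm]

lemma mul_one (a : CH X) : C.mul X a (one X) = a := by rw [C.mul_comm, C.one_mul]

lemma Δ_apply (X : SmProjVar k) : C.Δ X = C.push (diag X) (one X) := rfl

lemma act_apply (γ : CH (X.prod Y)) (a : CH X) :
    C.act γ a = C.push (snd X Y) (C.mul _ (C.pull (fst X Y) a) γ) := rfl

lemma comp_apply {Z : SmProjVar k} (β : CH (X.prod Y)) (γ : CH (Y.prod Z)) :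
    C.comp β γ = C.push (p13 X Y Z) (C.mul _ (C.pull (p12 X Y Z) β) (C.pull (p23 X Y Z) γ)) :=
  rfl

end Basic

section Grading

variable {X Y : SmProjVar k}

lemma mem_CHi_iff (i : ℕ) (a : CH X) : a ∈ CHi X i ↔
    ∃ z : QCycles X, (∀ x, z.coeff x ≠ 0 → X.pointDim x + i = X.dim) ∧ cls X z = a := Iff.rfl

/-- `cls` as a linear map on finitely supported functions. -/
noncomputable def clsL (X : SmProjVar k) : (X.Pt →₀ ℚ) →ₗ[ℚ] CH X := (ratZero X).mkQ

lemma clsL_apply (z : QCycles X) : clsL X z = cls X z := rfl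

lemma cls_eq_sum (z : X.Pt →₀ ℚ) : clsL X z = z.sum fun x c => c • ptCls X x := by
  conv_lhs => rw [← Finsupp.sum_single z]
  unfold Finsupp.sum
  rw [map_sum]
  refine Finset.sum_congr rfl fun x _ => ?_
  have h : Finsupp.single x (z x) = z x • Finsupp.single x (1 : ℚ) := by
    rw [Finsupp.smul_single, smul_eq_mul, _root_.mul_one]
  rw [h, map_smul]
  rfl

lemma ptCls_mem (x : X.Pt) (i : ℕ) (h : X.pointDim x + i = X.dim) : ptCls X x ∈ CHi X i := by
  classical
  refine ⟨QCycles.point x, fun y hy => ?_, rfl⟩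
  have hy' : (Finsupp.single x (1 : ℚ) : X.Pt →₀ ℚ) y ≠ 0 := hy
  rw [Finsupp.single_apply] at hy'
  split_ifs at hy' with hxy
  · subst hxy; exact h
  · exact absurd rfl hy'

/-- The push-forward of a class of codimension `i` has codimension `i + dim Y - dim X`. -/
lemma push_mem (f : X.toOver ⟶ Y.toOver) (i j : ℕ) (h : i + Y.dim = j + X.dim) (a : CH X)
    (ha : a ∈ CHi X i) : C.push f a ∈ CHi Y j := by
  obtain ⟨z, hz, rfl⟩ := ha
  rw [← clsL_apply, cls_eq_sum, Finsupp.sum, map_sum]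
  refine Submodule.sum_mem (CHiL Y j) fun x hx => ?_
  rw [map_smul, C.push_ptCls]
  refine Submodule.smul_mem _ _ ?_
  have hx' := hz x (Finsupp.mem_support_iff.1 hx)
  split_ifs with h2
  · refine Submodule.smul_mem _ _ (ptCls_mem _ _ ?_)
    omega
  · rw [zero_smul]; exact Submodule.zero_mem _

lemma comp_mem {Z : SmProjVar k} (β : CH (X.prod Y)) (γ : CH (Y.prod Z))
    (hβ : β ∈ CHi (X.prod Y) X.dim) (hγ : γ ∈ CHi (Y.prod Z) Y.dim) :
    C.comp β γ ∈ CHi (X.prod Z) X.dim := by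
  refine C.push_mem _ (X.dim + Y.dim) X.dim ?_ _
    (C.mul_mem _ _ _ _ _ (C.pull_mem _ _ _ hβ) (C.pull_mem _ _ _ hγ))
  change X.dim + Y.dim + (Z.dim + X.dim) = X.dim + (Z.dim + Y.dim + X.dim)
  omega

lemma act_mem (γ : CH (X.prod Y)) (hγ : γ ∈ CHi (X.prod Y) X.dim) (i : ℕ) (a : CH X)
    (ha : a ∈ CHi X i) : C.act γ a ∈ CHi Y i := by
  refine C.push_mem _ (i + X.dim) i ?_ _
    (C.mul_mem _ _ _ _ _ (C.pull_mem _ _ _ ha) hγ)
  change i + X.dim + Y.dim = i + (Y.dim + X.dim)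
  omega

lemma one_mem_iff (h : X.pointDim X.genericPt = X.dim) : one X ∈ CHi X 0 :=
  ptCls_mem _ _ (by omega)

end Grading

section Comp

variable {X Y Z U : SmProjVar k}

lemma act_comp (β : CH (X.prod Y)) (γ : CH (Y.prod Z)) (a : CH X) :
    C.act (C.comp β γ) a = C.act γ (C.act β a) := by
  rw [act_apply, act_apply, act_apply, comp_apply]
  rw [C.base_change (snd X Y) (fst Y Z) (p12 X Y Z) (p23 X Y Z) (isPullback_p12 X Y Z)
    inferInstance]
  rw [← C.projection, ← C.push_comp, ← C.projection', ← C.push_comp]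
  rw [C.pull_mul, ← C.pull_comp, ← C.pull_comp, C.mul_assoc]
  have h1 : p13 X Y Z ≫ fst X Z = p12 X Y Z ≫ fst X Y := by simp [p13, p12]
  have h2 : p13 X Y Z ≫ snd X Z = p23 X Y Z ≫ snd Y Z := by simp [p13]
  rw [h1, h2]

lemma act_Δ (a : CH X) : C.act (C.Δ X) a = a := by
  rw [act_apply, Δ_apply, ← C.projection', ← C.push_comp, ← C.pull_comp, mul_one]
  have h1 : diag X ≫ snd X X = 𝟙 _ := by simp [diag]
  have h2 : diag X ≫ fst X X = 𝟙 _ := by simp [diag]
  rw [h1, h2, C.pull_id, C.push_id]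

lemma comp_assoc (β : CH (X.prod Y)) (γ : CH (Y.prod Z)) (δ : CH (Z.prod U)) :
    C.comp (C.comp β γ) δ = C.comp β (C.comp γ δ) := by
  rw [comp_apply C (C.comp β γ) δ, comp_apply C β γ, comp_apply C β (C.comp γ δ),
    comp_apply C γ δ]
  rw [C.base_change (p13 X Y Z) (p12 X Z U) (p123 X Y Z U) (p134 X Y Z U)
    (isPullback_p123 X Y Z U) inferInstance]
  rw [C.base_change (p13 Y Z U) (p23 X Y U) (snd X _) (idProd X (p13 Y Z U))
    (isPullback_snd X (p13 Y Z U)) inferInstance]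
  rw [← C.projection, ← C.push_comp, ← C.projection', ← C.push_comp]
  rw [C.pull_mul, C.pull_mul, ← C.pull_comp, ← C.pull_comp, ← C.pull_comp, ← C.pull_comp,
    ← C.pull_comp, ← C.pull_comp, C.mul_assoc]
  have h1 : p134 X Y Z U ≫ p13 X Z U = idProd X (p13 Y Z U) ≫ p13 X Y U := by
    apply prod_ext <;> simp [p134, p13, idProd]
  have h2 : p123 X Y Z U ≫ p12 X Y Z = idProd X (p13 Y Z U) ≫ p12 X Y U := by
    apply prod_ext <;> simp [p123, p13, p12, idProd]
  have h3 : p123 X Y Z U ≫ p23 X Y Z = snd X _ ≫ p12 Y Z U := by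
    apply prod_ext <;> simp [p123, p12]
  have h4 : p134 X Y Z U ≫ p23 X Z U = snd X _ ≫ p23 Y Z U := by
    simp [p134]
  rw [h1, h2, h3, h4]

lemma Δ_comp (γ : CH (X.prod Y)) : C.comp (C.Δ X) γ = γ := by
  rw [comp_apply, Δ_apply]
  rw [C.base_change (diag X) (p12 X X Y) (fst X Y) (diag12 X Y) (isPullback_diag12 X Y)
    inferInstance]
  rw [C.pull_one, ← C.projection, ← C.push_comp, C.one_mul, ← C.pull_comp]
  have h1 : diag12 X Y ≫ p13 X X Y = 𝟙 _ := by
    apply prod_ext <;> simp [diag12, p13]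
  have h2 : diag12 X Y ≫ p23 X X Y = 𝟙 _ := by simp [diag12]
  rw [h1, h2, C.pull_id, C.push_id]

lemma comp_Δ (γ : CH (X.prod Y)) : C.comp γ (C.Δ Y) = γ := by
  rw [comp_apply, Δ_apply]
  rw [C.base_change (diag Y) (p23 X Y Y) (snd X Y) (idProd X (diag Y))
    (isPullback_snd X (diag Y)) inferInstance]
  rw [C.pull_one, ← C.projection', ← C.push_comp, mul_one, ← C.pull_comp]
  have h1 : idProd X (diag Y) ≫ p13 X Y Y = 𝟙 _ := by
    apply prod_ext <;> simp [idProd, diag, p13]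
  have h2 : idProd X (diag Y) ≫ p12 X Y Y = 𝟙 _ := by
    apply prod_ext <;> simp [idProd, diag, p12]
  rw [h1, h2, C.pull_id, C.push_id]

lemma comp_add (β : CH (X.prod Y)) (γ γ' : CH (Y.prod Z)) :
    C.comp β (γ + γ') = C.comp β γ + C.comp β γ' := by
  simp only [comp_apply, map_add]

lemma add_comp (β β' : CH (X.prod Y)) (γ : CH (Y.prod Z)) :
    C.comp (β + β') γ = C.comp β γ + C.comp β' γ := by
  simp only [comp_apply, map_add, LinearMap.add_apply]

lemma comp_smul (c : ℚ) (β : CH (X.prod Y)) (γ : CH (Y.prod Z)) :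
    C.comp β (c • γ) = c • C.comp β γ := by
  simp only [comp_apply, map_smul]

lemma smul_comp (c : ℚ) (β : CH (X.prod Y)) (γ : CH (Y.prod Z)) :
    C.comp (c • β) γ = c • C.comp β γ := by
  simp only [comp_apply, map_smul, LinearMap.smul_apply]

lemma comp_zero (β : CH (X.prod Y)) : C.comp β (0 : CH (Y.prod Z)) = 0 := by
  simp only [comp_apply, map_zero]

lemma zero_comp (γ : CH (Y.prod Z)) : C.comp (0 : CH (X.prod Y)) γ = 0 := by
  simp only [comp_apply, map_zero, LinearMap.zero_apply]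

lemma act_add (γ γ' : CH (X.prod Y)) (a : CH X) :
    C.act (γ + γ') a = C.act γ a + C.act γ' a := by
  simp only [act_apply, map_add]

lemma act_zero' (a : CH X) : C.act (0 : CH (X.prod Y)) a = 0 := by
  simp only [act_apply, map_zero]

lemma act_smul' (c : ℚ) (γ : CH (X.prod Y)) (a : CH X) :
    C.act (c • γ) a = c • C.act γ a := by
  simp only [act_apply, map_smul]

lemma act_zero (γ : CH (X.prod Y)) : C.act γ (0 : CH X) = 0 := (C.actL γ).map_zero

lemma act_map_add (γ : CH (X.prod Y)) (a b : CH X) :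
    C.act γ (a + b) = C.act γ a + C.act γ b := (C.actL γ).map_add a b

lemma act_map_smul (γ : CH (X.prod Y)) (c : ℚ) (a : CH X) :
    C.act γ (c • a) = c • C.act γ a := (C.actL γ).map_smul c a

end Comp

section Class

variable {X Y Z : SmProjVar k}

/-- `cl (γ_* a)` is the Poincaré dual of `y ↦ ∫ p^* cl(a) ∪ cl(γ) ∪ q^* y`. -/
lemma tr_cl_act (γ : CH (X.prod Y)) (a : CH X) (y : W.H Y) :
    W.tr Y (C.cl Y (C.act γ a) * y) =
      W.tr (X.prod Y) (W.pull (fst X Y) (C.cl X a) * C.cl _ γ * W.pull (snd X Y) y) := by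
  rw [act_apply, C.cl_push, C.cl_mul, C.cl_pull]

lemma cl_eq_zero_of_tr (a : CH X) (h : ∀ y, W.tr X (C.cl X a * y) = 0) : C.cl X a = 0 :=
  (W.trace X).nondegenerate _ h

lemma tr_zero (X : SmProjVar k) : W.tr X 0 = 0 := by
  have := (W.trace X).map_smul 0 0
  simpa using this

lemma cl_act_of_right (γ : CH (X.prod Y)) (a : CH X) (h : C.cl _ γ = 0) :
    C.cl Y (C.act γ a) = 0 := by
  refine C.cl_eq_zero_of_tr _ fun y => ?_
  rw [tr_cl_act, h, mul_zero, zero_mul, tr_zero]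

lemma pull_zero (f : X.toOver ⟶ Y.toOver) : W.pull f 0 = 0 := by
  have := (W.pull_hom f).map_smul 0 0
  simpa using this

lemma cl_act_of_left (γ : CH (X.prod Y)) (a : CH X) (h : C.cl X a = 0) :
    C.cl Y (C.act γ a) = 0 := by
  refine C.cl_eq_zero_of_tr _ fun y => ?_
  rw [tr_cl_act, h, pull_zero, zero_mul, zero_mul, tr_zero]

lemma cl_comp_of_left (β : CH (X.prod Y)) (γ : CH (Y.prod Z)) (h : C.cl _ β = 0) :
    C.cl _ (C.comp β γ) = 0 := by
  refine C.cl_eq_zero_of_tr _ fun y => ?_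
  rw [comp_apply, C.cl_push, C.cl_mul, C.cl_pull, h, pull_zero, zero_mul, zero_mul, tr_zero]

lemma cl_comp_of_right (β : CH (X.prod Y)) (γ : CH (Y.prod Z)) (h : C.cl _ γ = 0) :
    C.cl _ (C.comp β γ) = 0 := by
  refine C.cl_eq_zero_of_tr _ fun y => ?_
  rw [comp_apply, C.cl_push, C.cl_mul, C.cl_pull, C.cl_pull, h, pull_zero, mul_zero, zero_mul,
    tr_zero]

end Class

end Pool.Agent.Helper47.Chow.ChowTheory
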