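import Mathlib

/-!
# Lifting decompositions modulo an ideal which is nil outside one index

Pure ring theory behind the comparison of Chow-Künneth decompositions.
-/

namespace Helper47.Chow

open Finset

/-- A complete family of orthogonal idempotents `e 0, …, e N`. -/
structure IsDecomp {R : Type*} [Ring R] (N : ℕ) (e : ℕ → R) : Prop where
  idem : ∀ i, e i * e i = e i
  orth : ∀ i j, i ≠ j → e i * e j = 0
  sum : ∑ i ∈ range (N + 1), e i = 1
  zero : ∀ i, N < i → e i = 0

section

variable {R : Type*} [Ring R] {V : Type*} [AddCommGroup V] [Module R V]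

/-- If `y` is nilpotent, commutes with `e`, then `1 - y` has an inverse `w` congruent to `1`. -/
lemma exists_inv_of_nilpotent (I : Ideal R) [I.IsTwoSided] {e y : R} (hy : IsNilpotent y)
    (hyI : y ∈ I) (hey : e * y = y) (hye : y * e = y) :
    ∃ w : R, (1 - y) * w = 1 ∧ w * (1 - y) = 1 ∧ e * w = w * e ∧ w - 1 ∈ I := by
  obtain ⟨w, hw⟩ := (IsNilpotent.isUnit_one_sub hy).exists_right_inv
  obtain ⟨w', hw'⟩ := (IsNilpotent.isUnit_one_sub hy).exists_left_inv
  have hww : w' = w := by
    calc w' = w' * ((1 - y) * w) := by rw [hw, mul_one]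
      _ = w := by rw [← mul_assoc, hw', one_mul]
  subst hww
  refine ⟨w', hw, hw', ?_, ?_⟩
  · have hc : (1 - y) * e = e * (1 - y) := by
      rw [sub_mul, mul_sub, one_mul, mul_one, hey, hye]
    calc e * w' = w' * ((1 - y) * e) * w' := by rw [← mul_assoc, hw', one_mul]
      _ = w' * e * ((1 - y) * w') := by rw [hc]; simp only [mul_assoc]
      _ = w' * e := by rw [hw, mul_one]
  · have : w' - 1 = y * w' := by
      have h := hw
      rw [sub_mul, one_mul] at h
      rw [← h]; abel
    rw [this]
    exact Ideal.mul_mem_right _ _ hyI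

lemma IsDecomp.mul_sum_erase {N : ℕ} {e : ℕ → R} (h : IsDecomp N e) (k m : ℕ) (hk : k ≠ m) :
    e k * (1 - e m) = e k ∧ (1 - e m) * e k = e k := by
  constructor
  · rw [mul_sub, mul_one, h.orth k m hk, sub_zero]
  · rw [sub_mul, one_mul, h.orth m k hk.symm, sub_zero]

/-- Forward direction: a homologically trivial idempotent can be moved to the top degree. -/
lemma exists_moved (I : Ideal R) [I.IsTwoSided] {N : ℕ} {e : ℕ → R} (h : IsDecomp N e) (m : ℕ)
    (hm : m < N) (nil : ∀ x ∈ I, IsNilpotent ((1 - e m) * x * (1 - e m)))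
    (φ : R) (hφI : φ ∈ I) (hφ : φ * φ = φ) :
    ∃ e' : ℕ → R, IsDecomp N e' ∧ (∀ k, e' k - e k ∈ I) ∧ φ * e' N = φ := by
  set ε : R := 1 - e m with hε
  have hεε : ε * ε = ε := by
    rw [hε, mul_sub, mul_one, sub_mul, one_mul, h.idem]; abel
  set y : R := ε * φ * ε with hy
  have hyI : y ∈ I := Ideal.mul_mem_right _ _ (Ideal.mul_mem_left _ _ hφI)
  have hey : ε * y = y := by rw [hy, ← mul_assoc, ← mul_assoc, hεε]
  have hye : y * ε = y := by rw [hy, mul_assoc, hεε]
  obtain ⟨w, hw1, hw2, hcomm, hwI⟩ := exists_inv_of_nilpotent I (nil φ hφI) hyI hey hye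
  set a : R := (1 - φ) * ε * w with ha
  set b : R := ε * (1 - φ) with hb
  have h1φ : (1 - φ) * (1 - φ) = 1 - φ := by
    rw [mul_sub, mul_one, sub_mul, one_mul, hφ]; abel
  have hφ1 : φ * (1 - φ) = 0 := by rw [mul_sub, mul_one, hφ, sub_self]
  have h1φ' : (1 - φ) * φ = 0 := by rw [sub_mul, one_mul, hφ, sub_self]
  have hba : b * a = ε := by
    calc b * a = ε * ((1 - φ) * (1 - φ)) * ε * w := by rw [ha, hb]; simp only [mul_assoc]
      _ = (ε * ε - ε * φ * ε) * w := by rw [h1φ]; noncomm_ring
      _ = (ε - y) * w := by rw [hεε]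
      _ = ε * ((1 - y) * w) := by rw [← mul_assoc, mul_sub, mul_one, hey]
      _ = ε := by rw [hw1, mul_one]
  have hφa : φ * a = 0 := by rw [ha, ← mul_assoc, ← mul_assoc, hφ1, zero_mul, zero_mul]
  have hbφ : b * φ = 0 := by rw [hb, mul_assoc, h1φ', mul_zero]
  have hmN : m ≠ N := hm.ne
  -- the pieces
  have hpiece : ∀ k l, k ≠ m → (a * e k * b) * (a * e l * b) = a * (e k * e l) * b := by
    intro k l hk
    calc (a * e k * b) * (a * e l * b) = a * e k * (b * a) * e l * b := by
          simp only [mul_assoc]
      _ = a * ((e k * ε) * e l) * b := by rw [hba]; simp only [mul_assoc]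
      _ = a * (e k * e l) * b := by rw [(h.mul_sum_erase k m hk).1]
  have hφk : ∀ k, φ * (a * e k * b) = 0 := fun k => by
    calc φ * (a * e k * b) = (φ * a) * (e k * b) := by simp only [mul_assoc]
      _ = 0 := by rw [hφa, zero_mul]
  have hkφ : ∀ k, (a * e k * b) * φ = 0 := fun k => by rw [mul_assoc, hbφ, mul_zero]
  have hab : (a * b) * (a * b) = a * b := by
    calc (a * b) * (a * b) = a * (b * a) * b := by simp only [mul_assoc]
      _ = (1 - φ) * (ε * (w * ε)) * b := by rw [hba, ha]; simp only [mul_assoc]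
      _ = a * b := by rw [← hcomm, ← mul_assoc ε ε w, hεε, ha]; simp only [mul_assoc]
  have hεb : ε * b = b := by rw [hb, ← mul_assoc, hεε]
  have haε : a * ε = a := by
    rw [ha, mul_assoc, ← hcomm, mul_assoc, ← mul_assoc ε ε w, hεε, ← mul_assoc]
  have habk : ∀ k, k ≠ m → (a * b) * (a * e k * b) = a * e k * b := by
    intro k hk
    calc (a * b) * (a * e k * b) = a * (b * a) * e k * b := by simp only [mul_assoc]
      _ = a * (ε * e k) * b := by rw [hba]; simp only [mul_assoc]
      _ = a * e k * b := by rw [(h.mul_sum_erase k m hk).2]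
  have hkab : ∀ k, k ≠ m → (a * e k * b) * (a * b) = a * e k * b := by
    intro k hk
    calc (a * e k * b) * (a * b) = a * e k * (b * a) * b := by simp only [mul_assoc]
      _ = a * (e k * ε) * b := by rw [hba]; simp only [mul_assoc]
      _ = a * e k * b := by rw [(h.mul_sum_erase k m hk).1]
  have hφab : φ * (a * b) = 0 := by rw [← mul_assoc, hφa, zero_mul]
  have habφ : (a * b) * φ = 0 := by rw [mul_assoc, hbφ, mul_zero]
  have hsumε : ∑ k ∈ (range (N + 1)).erase m, e k = ε := by
    have := Finset.add_sum_erase (range (N + 1)) e (Finset.mem_range.2 (Nat.lt_succ_of_lt hm))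
    rw [h.sum] at this
    rw [hε, ← this]; abel
  have hsumab : ∑ k ∈ (range (N + 1)).erase m, a * e k * b = a * b := by
    rw [← Finset.sum_mul, ← Finset.mul_sum, hsumε, haε]
  let e' : ℕ → R := fun k => if k = m then 1 - a * b - φ else
    if k = N then a * e k * b + φ else a * e k * b
  have e'm : e' m = 1 - a * b - φ := if_pos rfl
  have e'N : e' N = a * e N * b + φ := by
    simp only [e']; rw [if_neg hmN.symm]; simp
  have e'k : ∀ k, k ≠ m → k ≠ N → e' k = a * e k * b := fun k h1 h2 => by
    simp only [e']; rw [if_neg h1, if_neg h2]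
  refine ⟨e', ⟨?_, ?_, ?_, ?_⟩, ?_, ?_⟩
  · intro k
    by_cases h1 : k = m
    · subst h1
      rw [e'm]
      have : (1 - a * b - φ) * (1 - a * b - φ)
          = 1 - a * b - φ - (a * b - (a * b) * (a * b) - (a * b) * φ)
            - (φ - φ * (a * b) - φ * φ) := by
        noncomm_ring
      rw [this, hab, habφ, hφab, hφ]; abel
    · by_cases h2 : k = N
      · subst h2
        rw [e'N, add_mul, mul_add, mul_add, hpiece _ _ h1, h.idem, hkφ, hφk, hφ]; abel
      · rw [e'k k h1 h2, hpiece _ _ h1, h.idem]
  · -- orthogonality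
    have key : ∀ k l, k ≠ l → k ≠ m → l ≠ m → e' k * e' l = 0 := by
      intro k l hkl hk hl
      by_cases h1 : k = N
      · have h2 : l ≠ N := fun h2 => hkl (h1.trans h2.symm)
        subst h1
        rw [e'N, e'k l hl h2, add_mul, hpiece _ _ hk, h.orth _ _ hkl, hφk, mul_zero, zero_mul,
          add_zero]
      · by_cases h2 : l = N
        · subst h2
          rw [e'N, e'k k hk h1, mul_add, hpiece _ _ hk, h.orth _ _ hkl, hkφ, mul_zero, zero_mul,
            add_zero]
        · rw [e'k k hk h1, e'k l hl h2, hpiece _ _ hk, h.orth _ _ hkl, mul_zero, zero_mul]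
    have keym : ∀ k, k ≠ m → e' m * e' k = 0 ∧ e' k * e' m = 0 := by
      intro k hk
      rw [e'm]
      by_cases h1 : k = N
      · subst h1
        rw [e'N]
        constructor
        · rw [sub_mul, sub_mul, one_mul, mul_add, habk _ hk, habφ, mul_add, hφk, hφ]; abel
        · rw [mul_sub, mul_sub, mul_one, add_mul, hkab _ hk, hφab, add_mul, hkφ, hφ]; abel
      · rw [e'k k hk h1]
        constructor
        · rw [sub_mul, sub_mul, one_mul, habk _ hk, hφk]; abel
        · rw [mul_sub, mul_sub, mul_one, hkab _ hk, hkφ]; abel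
    intro k l hkl
    by_cases hk : k = m
    · subst hk; exact (keym l hkl.symm).1
    · by_cases hl : l = m
      · subst hl; exact (keym k hk).2
      · exact key k l hkl hk hl
  · -- sum
    have hmem : m ∈ range (N + 1) := Finset.mem_range.2 (Nat.lt_succ_of_lt hm)
    have hNmem : N ∈ (range (N + 1)).erase m :=
      Finset.mem_erase.2 ⟨hmN.symm, Finset.mem_range.2 (Nat.lt_succ_self N)⟩
    rw [← Finset.add_sum_erase _ _ hmem, ← Finset.add_sum_erase _ _ hNmem]
    have h1 : ∑ x ∈ ((range (N + 1)).erase m).erase N, e' x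
        = ∑ x ∈ ((range (N + 1)).erase m).erase N, a * e x * b := by
      refine Finset.sum_congr rfl fun x hx => ?_
      rw [Finset.mem_erase, Finset.mem_erase] at hx
      exact e'k x hx.2.1 hx.1
    rw [h1, e'm, e'N]
    have h2 := Finset.add_sum_erase _ (fun x => a * e x * b) hNmem
    rw [hsumab] at h2
    have : a * e N * b + φ + ∑ x ∈ ((range (N + 1)).erase m).erase N, a * e x * b
        = a * b + φ := by
      rw [← h2]; abel
    rw [this]; abel
  · intro k hk
    have h1 : k ≠ m := (hm.trans hk).ne'
    rw [e'k k h1 hk.ne', h.zero k hk, mul_zero, zero_mul]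
  · -- congruence
    have haI : a - ε ∈ I := by
      have : a - ε = ε * (w - 1) - φ * (ε * w) := by
        rw [ha]; noncomm_ring
      rw [this]
      exact I.sub_mem (Ideal.mul_mem_left _ _ hwI) (Ideal.mul_mem_right _ _ hφI)
    have hbI : b - ε ∈ I := by
      have : b - ε = - (ε * φ) := by rw [hb]; noncomm_ring
      rw [this]
      exact I.neg_mem (Ideal.mul_mem_left _ _ hφI)
    have hpI : ∀ k, k ≠ m → a * e k * b - e k ∈ I := by
      intro k hk
      have h1 := h.mul_sum_erase k m hk
      have : a * e k * b - e k = (a - ε) * e k * b + e k * (b - ε) := by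
        have h2 : ε * e k = e k := h1.2
        have h3 : e k * ε = e k := h1.1
        calc a * e k * b - e k = a * e k * b - e k * ε := by rw [h3]
          _ = (a - ε) * e k * b + (ε * e k) * b - e k * ε := by noncomm_ring
          _ = (a - ε) * e k * b + e k * (b - ε) := by rw [h2]; noncomm_ring
      rw [this]
      exact I.add_mem (Ideal.mul_mem_right _ _ (Ideal.mul_mem_right _ _ haI))
        (Ideal.mul_mem_left _ _ hbI)
    have habI : a * b - ε ∈ I := by
      have : a * b - ε = (a - ε) * b + ε * (b - ε) := by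
        rw [sub_mul, mul_sub, hεε]; abel
      rw [this]
      exact I.add_mem (Ideal.mul_mem_right _ _ haI) (Ideal.mul_mem_left _ _ hbI)
    intro k
    by_cases h1 : k = m
    · subst h1
      have : e' k - e k = -(a * b - ε) - φ := by
        rw [e'm, hε]; abel
      rw [this]
      exact I.sub_mem (I.neg_mem habI) hφI
    · by_cases h2 : k = N
      · subst h2
        have : e' k - e k = (a * e k * b - e k) + φ := by rw [e'N]; abel
        rw [this]
        exact I.add_mem (hpI k h1) hφI
      · rw [e'k k h1 h2]; exact hpI k h1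
  · rw [e'N, mul_add, hφk, hφ, zero_add]

/-- The tame pieces of another decomposition differ from the old ones by a trivial idempotent. -/
lemma tame_piece (I : Ideal R) [I.IsTwoSided] {ε p q : R}
    (nil : ∀ x ∈ I, IsNilpotent (ε * x * ε)) (hp : p * p = p) (hq : q * q = q)
    (hpε : p * ε = p) (hεp : ε * p = p) (hqp : q - p ∈ I) :
    ∃ v : R, p * v = v ∧ (q * v * q) * (q * v * q) = q * v * q ∧ q - q * v * q ∈ I := by
  set y : R := p - p * q * p with hy
  have hyI : y ∈ I := by
    have : y = - (p * (q - p) * p) := by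
      rw [hy, mul_sub, sub_mul, hp, hp]; abel
    rw [this]
    exact I.neg_mem (Ideal.mul_mem_right _ _ (Ideal.mul_mem_left _ _ hqp))
  have hpy : p * y = y := by rw [hy, mul_sub, hp, ← mul_assoc, ← mul_assoc, hp]
  have hyp : y * p = y := by rw [hy, sub_mul, hp, mul_assoc, hp]
  have hεy : ε * y * ε = y := by
    calc ε * y * ε = ε * (p * y) * ε := by rw [hpy]
      _ = (ε * p) * (y * p) * ε := by rw [hyp]; simp only [mul_assoc]
      _ = p * y * (p * ε) := by rw [hεp]; simp only [mul_assoc]
      _ = y := by rw [hpε, hpy, hyp]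
  have hnil : IsNilpotent y := by have := nil y hyI; rwa [hεy] at this
  obtain ⟨w, hw1, hw2, hcomm, hwI⟩ := exists_inv_of_nilpotent I hnil hyI hpy hyp
  refine ⟨p * w, ?_, ?_, ?_⟩
  · rw [← mul_assoc, hp]
  · have key : (p * w) * (q * q) * (p * w) = p * w := by
      rw [hq]
      calc (p * w) * q * (p * w) = (w * p) * q * (p * w) := by rw [hcomm]
        _ = w * (p * q * p) * w := by simp only [mul_assoc]
        _ = w * (p - y) * w := by
            congr 2
            rw [hy]; abel
        _ = w * (p * ((1 - y) * w)) := by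
            rw [mul_assoc, ← mul_assoc p, mul_sub, mul_one, hpy]
        _ = w * p := by rw [hw1, mul_one]
        _ = p * w := hcomm.symm
    calc q * (p * w) * q * (q * (p * w) * q)
        = q * ((p * w) * (q * q) * (p * w)) * q := by simp only [mul_assoc]
      _ = q * (p * w) * q := by rw [key]
  · -- q - q (p w) q = q - q*... ∈ I
    have h1 : p * w - p ∈ I := by
      have : p * w - p = p * (w - 1) := by rw [mul_sub, mul_one]
      rw [this]; exact Ideal.mul_mem_left _ _ hwI
    have : q - q * (p * w) * q = q * (q - p) * q - q * (p * w - p) * q := by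
      calc q - q * (p * w) * q = q * q * q - q * (p * w) * q := by rw [hq, hq]
        _ = q * (q - p) * q - q * (p * w - p) * q := by noncomm_ring
    rw [this]
    exact I.sub_mem (Ideal.mul_mem_right _ _ (Ideal.mul_mem_left _ _ hqp))
      (Ideal.mul_mem_right _ _ (Ideal.mul_mem_left _ _ h1))

/-- **Main ring theoretic statement.** -/
theorem ring_iff (I : Ideal R) [I.IsTwoSided] (V0 : Submodule R V)
    (hIV : ∀ x ∈ I, ∀ v : V, x • v ∈ V0) {N : ℕ} {e : ℕ → R} (h : IsDecomp N e) (m s : ℕ)
    (hs : s ≤ N) (nil : ∀ x ∈ I, IsNilpotent ((1 - e m) * x * (1 - e m)))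
    (hD : ∀ v ∈ V0, ∀ k, s ≤ k → e k • v = 0) :
    (∀ e' : ℕ → R, IsDecomp N e' → (∀ k, e' k - e k ∈ I) →
        ∀ v ∈ V0, ∀ k, s ≤ k → e' k • v = 0) ↔
      (m < s → ∀ φ ∈ I, φ * φ = φ → ∀ v : V, φ • v = 0) := by
  constructor
  · intro H hms φ hφI hφ v
    obtain ⟨e', he', hcong, hφN⟩ := exists_moved I h m (lt_of_lt_of_le hms hs) nil φ hφI hφ
    have h1 := H e' he' hcong (φ • v) (hIV φ hφI v) N hs
    calc φ • v = φ • (φ • v) := by rw [← mul_smul, hφ]
      _ = (φ * e' N) • (φ • v) := by rw [hφN]
      _ = 0 := by rw [mul_smul, h1, smul_zero]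
  · intro H e' he' hcong v hv k hk
    by_cases hms : m < s
    · have hkm : k ≠ m := (lt_of_lt_of_le hms hk).ne'
      obtain ⟨z, hz1, hz2, hz3⟩ := tame_piece I nil (h.idem k) (he'.idem k)
        (h.mul_sum_erase k m hkm).1 (h.mul_sum_erase k m hkm).2 (hcong k)
      -- the difference is an idempotent in I
      have hidem : (e' k - e' k * z * e' k) * (e' k - e' k * z * e' k)
          = e' k - e' k * z * e' k := by
        have h1 : e' k * (e' k * z * e' k) = e' k * z * e' k := by
          rw [← mul_assoc, ← mul_assoc, he'.idem]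
        have h2 : (e' k * z * e' k) * e' k = e' k * z * e' k := by
          rw [mul_assoc, he'.idem]
        rw [sub_mul, mul_sub, mul_sub, he'.idem, h1, h2, hz2]; abel
      have h0 := H hms _ hz3 hidem v
      rw [sub_smul, sub_eq_zero] at h0
      rw [h0, mul_smul, mul_smul, ← hz1, mul_smul]
      have h3 : z • e' k • v ∈ V0 := V0.smul_mem _ (V0.smul_mem _ hv)
      rw [hD _ h3 k hk, smul_zero]
    · rw [not_lt] at hms
      -- all indices below s are tame
      set ε : R := ∑ j ∈ range s, e j with hε
      set ε' : R := ∑ j ∈ range s, e' j with hε'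
      have hεu : ∀ u ∈ V0, ε • u = u := by
        intro u hu
        have h1 : (∑ j ∈ range (N + 1), e j) • u = u := by rw [h.sum, one_smul]
        rw [Finset.sum_smul] at h1
        rw [hε, Finset.sum_smul]
        rw [← h1]
        conv_lhs => rw [h1]
        refine Finset.sum_subset (Finset.range_subset_range.2 (by omega)) ?_
        intro x _ hx
        rw [Finset.mem_range, not_lt] at hx
        exact hD u hu x hx
      have hmulε : ε * (1 - e m) = ε ∧ (1 - e m) * ε = ε := by
        constructor
        · rw [hε, Finset.sum_mul]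
          refine Finset.sum_congr rfl fun j hj => ?_
          rw [Finset.mem_range] at hj
          exact (h.mul_sum_erase j m (by omega)).1
        · rw [hε, Finset.mul_sum]
          refine Finset.sum_congr rfl fun j hj => ?_
          rw [Finset.mem_range] at hj
          exact (h.mul_sum_erase j m (by omega)).2
      have hsumidem : ∀ f : ℕ → R, IsDecomp N f →
          (∑ j ∈ range s, f j) * (∑ j ∈ range s, f j) = ∑ j ∈ range s, f j := by
        intro f hf
        rw [Finset.sum_mul]
        refine Finset.sum_congr rfl fun j hj => ?_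
        rw [Finset.mul_sum, Finset.sum_eq_single j]
        · exact hf.idem j
        · intro i _ hij; exact hf.orth j i hij.symm
        · intro hj'; exact absurd hj hj'
      have hε2 : ε * ε = ε := hsumidem e h
      have hε'2 : ε' * ε' = ε' := hsumidem e' he'
      have hcongε : ε' - ε ∈ I := by
        rw [hε, hε', ← Finset.sum_sub_distrib]
        exact I.sum_mem fun j _ => hcong j
      set x : R := ε - ε * ε' * ε with hx
      have hxI : x ∈ I := by
        have : x = - (ε * (ε' - ε) * ε) := by
          rw [hx, mul_sub, sub_mul, hε2, hε2]; abel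
        rw [this]
        exact I.neg_mem (Ideal.mul_mem_right _ _ (Ideal.mul_mem_left _ _ hcongε))
      have hxε : (1 - e m) * x * (1 - e m) = x := by
        have h1 : (1 - e m) * x = x := by
          rw [hx, mul_sub, hmulε.2, ← mul_assoc, ← mul_assoc, hmulε.2]
        have h2 : x * (1 - e m) = x := by
          rw [hx, sub_mul, hmulε.1, mul_assoc, hmulε.1]
        rw [h1, h2]
      have hxnil : IsNilpotent x := by have := nil x hxI; rwa [hxε] at this
      obtain ⟨n, hn⟩ := hxnil
      have hxu : ∀ u ∈ V0, x • u = (1 - ε') • u := by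
        intro u hu
        rw [hx, sub_smul, mul_smul, mul_smul, hεu u hu, hεu _ (V0.smul_mem _ hu), sub_smul,
          one_smul]
      have h1ε' : (1 - ε') * (1 - ε') = 1 - ε' := by
        rw [mul_sub, mul_one, sub_mul, one_mul, hε'2]; abel
      have hpow : ∀ n, ∀ u ∈ V0, x ^ (n + 1) • u = (1 - ε') • u := by
        intro n
        induction n with
        | zero => intro u hu; rw [zero_add, pow_one]; exact hxu u hu
        | succ n ih =>
          intro u hu
          rw [pow_succ, mul_smul, hxu u hu, ih _ (V0.smul_mem _ hu), ← mul_smul, h1ε']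
      have h0 : (1 - ε') • v = 0 := by
        rw [← hpow n v hv, pow_succ', hn, mul_zero, zero_smul]
      rw [sub_smul, one_smul, sub_eq_zero] at h0
      rw [h0, ← mul_smul, hε', Finset.mul_sum, Finset.sum_eq_zero, zero_smul]
      intro j hj
      rw [Finset.mem_range] at hj
      exact he'.orth k j (by omega)

end

end Helper47.Chow
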