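import Mathlib
import Pool.Agent.Helper47.Chow.Formal
import Pool.Agent.Helper47.Chow.RingPart

/-!
# The ring of self-correspondences of degree zero
-/

universe u v w

open CategoryTheory AlgebraicGeometry Limits

namespace Pool.Agent.Helper47.Chow

open Pool.Agent.Helper10 Pool.Agent.Helper10.SmProjVar

variable {k : Type u} [Field k] {K : Type v} [Field K] [CharZero K]

section Weil

variable (W : WeilCohomology.{u, v, w} k K)

include W in
open Classical in
lemma pointDim_genericPt (X : SmProjVar k) : X.pointDim X.genericPt = X.dim := by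
  obtain ⟨c, hc, -⟩ := W.cycleClasses.cy_fundamental X
  have h1 : Cyc.coeff (X.pointCycle X.genericPt) X.genericPt = 1 := by
    have := Function.locallyFinsuppWithin.single_apply (X := X.toOver.left) (Y := ℤ)
      (x₁ := X.genericPt) (x₂ := X.genericPt) (y := (1 : ℤ))
    exact this.trans (if_pos rfl)
  have h := c.2 X.genericPt (by
    change Cyc.coeff c.toCyc X.genericPt ≠ 0
    rw [hc, h1]; exact one_ne_zero)
  simpa using h

/-- `W.tr` as a linear map. -/
def trL (X : SmProjVar k) : W.H X →ₗ[K] K where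
  toFun := W.tr X
  map_add' := (W.trace X).map_add
  map_smul' a x := (W.trace X).map_smul a x

/-- `W.pull f` as a linear map. -/
def pullL {X Y : SmProjVar k} (f : X.toOver ⟶ Y.toOver) : W.H Y →ₗ[K] W.H X where
  toFun := W.pull f
  map_add' := (W.pull_hom f).map_add
  map_smul' a x := (W.pull_hom f).map_smul a x

lemma span_kunneth (X Y : SmProjVar k) : Submodule.span K
    {z : W.H (X.prod Y) | ∃ x y, z = W.pull (fst X Y) x * W.pull (snd X Y) y} = ⊤ := by
  let B : W.H X →ₗ[K] W.H Y →ₗ[K] W.H (X.prod Y) :=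
    (LinearMap.mul K (W.H (X.prod Y))).compl₁₂ (pullL W (fst X Y)) (pullL W (snd X Y))
  have hm := W.kunneth X Y (TensorProduct.lift B) (fun a b => rfl)
  rw [eq_top_iff]
  intro z _
  obtain ⟨t, rfl⟩ := hm.2 z
  induction t using TensorProduct.induction_on with
  | zero => rw [map_zero]; exact Submodule.zero_mem _
  | tmul x y => exact Submodule.subset_span ⟨x, y, rfl⟩
  | add x y hx hy => rw [map_add]; exact Submodule.add_mem _ (hx trivial) (hy trivial)

lemma even_comm (X : SmProjVar k) (i : ℕ) (c x : W.H X) (hc : c ∈ W.gr X (2 * i)) :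
    c * x = x * c := by
  have hx : x ∈ ⨆ j, W.gr X j := by rw [(W.graded X).iSup_eq_top]; trivial
  refine Submodule.iSup_induction (W.gr X) (motive := fun x => c * x = x * c) hx ?_ ?_ ?_
  · intro j y hy
    have := (W.graded X).comm (2 * i) j c y hc hy
    rw [this, mul_assoc 2 i j, pow_mul]
    simp
  · simp
  · intro a b ha hb
    rw [mul_add, add_mul, ha, hb]

/-- A class of even degree on `X × Y` which pairs trivially with all
`p^* x ∪ - ∪ q^* y` is zero. -/
lemma eq_zero_of_kunneth (X Y : SmProjVar k) (i : ℕ) (c : W.H (X.prod Y))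
    (hc : c ∈ W.gr _ (2 * i))
    (h : ∀ j, ∀ x ∈ W.gr X j, ∀ y : W.H Y,
      W.tr (X.prod Y) (W.pull (fst X Y) x * c * W.pull (snd X Y) y) = 0) : c = 0 := by
  have h' : ∀ (x : W.H X) (y : W.H Y),
      trL W _ (pullL W (fst X Y) x * c * W.pull (snd X Y) y) = 0 := by
    intro x y
    have hx : x ∈ ⨆ j, W.gr X j := by rw [(W.graded X).iSup_eq_top]; trivial
    refine Submodule.iSup_induction (W.gr X)
      (motive := fun x => trL W _ (pullL W (fst X Y) x * c * W.pull (snd X Y) y) = 0)
      hx ?_ ?_ ?_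
    · intro j z hz; exact h j z hz y
    · rw [map_zero, zero_mul, zero_mul, map_zero]
    · intro a b ha hb
      rw [map_add, add_mul, add_mul, map_add, ha, hb, add_zero]
  apply (W.trace (X.prod Y)).nondegenerate
  intro z
  have hz : z ∈ Submodule.span K
      {z : W.H (X.prod Y) | ∃ x y, z = W.pull (fst X Y) x * W.pull (snd X Y) y} := by
    rw [span_kunneth]; trivial
  change trL W _ (c * z) = 0
  refine Submodule.span_induction (p := fun z _ => trL W _ (c * z) = 0) ?_ ?_ ?_ ?_ hz
  · rintro _ ⟨x, y, rfl⟩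
    have := h' x y
    rw [show pullL W (fst X Y) x = W.pull (fst X Y) x from rfl,
      ← even_comm W _ i c _ hc, mul_assoc] at this
    exact this
  · rw [mul_zero, map_zero]
  · intro a b _ _ ha hb
    rw [mul_add, map_add, ha, hb, add_zero]
  · intro a b _ hb
    rw [mul_smul_comm, map_smul, hb, smul_zero]

end Weil

variable {W : WeilCohomology.{u, v, w} k K} (C : ChowTheory W)

open ChowTheory

lemma Δ_mem (X : SmProjVar k) : C.Δ X ∈ CHi (X.prod X) X.dim := by
  refine C.push_mem _ 0 X.dim ?_ _ (one_mem_iff (pointDim_genericPt W X))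
  change 0 + (X.dim + X.dim) = X.dim + X.dim
  omega

/-- The correspondences of degree zero from `X` to itself. -/
def Corr (_ : ChowTheory W) (X : SmProjVar k) : Type u := CHiL (X.prod X) X.dim

noncomputable instance (X : SmProjVar k) : AddCommGroup (Corr C X) :=
  inferInstanceAs (AddCommGroup (CHiL (X.prod X) X.dim))

variable {C}

/-- The underlying element of the Chow group. -/
def Corr.val {X : SmProjVar k} (γ : Corr C X) : CH (X.prod X) := Subtype.val γ

lemma Corr.ext {X : SmProjVar k} {γ δ : Corr C X} (h : γ.val = δ.val) : γ = δ := Subtype.ext h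

variable (C)

noncomputable instance (X : SmProjVar k) : Ring (Corr C X) :=
  { (inferInstance : AddCommGroup (Corr C X)) with
    mul := fun γ β => ⟨C.comp β.1 γ.1, C.comp_mem _ _ β.2 γ.2⟩
    one := ⟨C.Δ X, Δ_mem C X⟩
    mul_assoc := fun a b c => Corr.ext (C.comp_assoc c.1 b.1 a.1).symm
    one_mul := fun a => Corr.ext (C.comp_Δ a.1)
    mul_one := fun a => Corr.ext (C.Δ_comp a.1)
    left_distrib := fun a b c => Corr.ext (C.add_comp b.1 c.1 a.1)
    right_distrib := fun a b c => Corr.ext (C.comp_add c.1 a.1 b.1)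
    zero_mul := fun a => Corr.ext (C.comp_zero a.1)
    mul_zero := fun a => Corr.ext (C.zero_comp a.1) }

lemma Corr.mul_val {X : SmProjVar k} (γ β : Corr C X) : (γ * β).val = C.comp β.val γ.val := rfl

lemma Corr.one_val (X : SmProjVar k) : (1 : Corr C X).val = C.Δ X := rfl

lemma Corr.zero_val (X : SmProjVar k) : (0 : Corr C X).val = 0 := rfl

lemma Corr.add_val {X : SmProjVar k} (γ β : Corr C X) : (γ + β).val = γ.val + β.val := rfl

lemma Corr.sub_val {X : SmProjVar k} (γ β : Corr C X) : (γ - β).val = γ.val - β.val := rfl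

lemma Corr.sum_val {X : SmProjVar k} {ι : Type*} (s : Finset ι) (f : ι → Corr C X) :
    (∑ i ∈ s, f i).val = ∑ i ∈ s, (f i).val :=
  map_sum (⟨⟨Corr.val, rfl⟩, fun _ _ => rfl⟩ : Corr C X →+ CH (X.prod X)) f s

noncomputable instance (X : SmProjVar k) (i : ℕ) : Module (Corr C X) (CHiL X i) where
  smul γ a := ⟨C.act γ.1 a.1, C.act_mem _ γ.2 _ _ a.2⟩
  one_smul a := Subtype.ext (C.act_Δ a.1)
  mul_smul γ β a := Subtype.ext (C.act_comp β.1 γ.1 a.1)
  smul_zero γ := Subtype.ext (C.act_zero γ.1)
  smul_add γ a b := Subtype.ext (C.act_map_add γ.1 a.1 b.1)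
  add_smul γ β a := Subtype.ext (C.act_add γ.1 β.1 a.1)
  zero_smul a := Subtype.ext (C.act_zero' a.1)

lemma smul_val {X : SmProjVar k} {i : ℕ} (γ : Corr C X) (a : CHiL X i) :
    ((γ • a : CHiL X i) : CH X) = C.act γ.val a.1 := rfl

/-- The ideal of homologically trivial correspondences. -/
noncomputable def homIdeal (X : SmProjVar k) : Ideal (Corr C X) where
  carrier := {γ | C.cl _ γ.val = 0}
  add_mem' {a b} ha hb := by
    change C.cl _ (a.val + b.val) = 0
    rw [map_add, ha, hb, add_zero]
  zero_mem' := map_zero _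
  smul_mem' c a ha := C.cl_comp_of_left a.val c.val ha

instance (X : SmProjVar k) : (homIdeal C X).IsTwoSided :=
  ⟨fun {a} b ha => C.cl_comp_of_right b.val a.val ha⟩

/-- The homologically trivial classes. -/
noncomputable def homTriv (X : SmProjVar k) (i : ℕ) : Submodule (Corr C X) (CHiL X i) where
  carrier := {a | C.cl _ a.1 = 0}
  add_mem' {a b} ha hb := by
    change C.cl _ (a.1 + b.1) = 0
    rw [map_add, ha, hb, add_zero]
  zero_mem' := map_zero _
  smul_mem' γ a ha := C.cl_act_of_left γ.val a.1 ha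

variable {C}

/-- The family of correspondences underlying a Chow-Künneth decomposition. -/
def IsCK.corr {X : SmProjVar k} {π : ℕ → CH (X.prod X)} (h : C.IsCK X π) (i : ℕ) : Corr C X :=
  ⟨π i, h.mem i⟩

lemma IsCK.isDecomp {X : SmProjVar k} {π : ℕ → CH (X.prod X)} (h : C.IsCK X π) :
    Helper47.Chow.IsDecomp (2 * X.dim) (IsCK.corr h) where
  idem i := Corr.ext (h.idem i)
  orth i j hij := Corr.ext (h.orth j i hij.symm)
  sum := Corr.ext (by rw [Corr.sum_val]; exact h.sum)
  zero i hi := Corr.ext (h.zero i hi)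

lemma IsCK.act_same' {X : SmProjVar k} {π : ℕ → CH (X.prod X)} (h : C.IsCK X π) (i : ℕ)
    (x : W.H X) (hx : x ∈ W.gr X i) (y : W.H X) :
    W.tr (X.prod X) (W.pull (fst X X) x * C.cl _ (π i) * W.pull (snd X X) y) = W.tr X (x * y) :=
  h.act_same i x hx y

lemma IsCK.act_other' {X : SmProjVar k} {π : ℕ → CH (X.prod X)} (h : C.IsCK X π) (i j : ℕ)
    (hij : i ≠ j) (x : W.H X) (hx : x ∈ W.gr X j) (y : W.H X) :
    W.tr (X.prod X) (W.pull (fst X X) x * C.cl _ (π i) * W.pull (snd X X) y) = 0 :=
  h.act_other i j hij x hx y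

lemma IsCK.congr {X : SmProjVar k} {π π' : ℕ → CH (X.prod X)} (h : C.IsCK X π)
    (h' : C.IsCK X π') (j : ℕ) : C.cl _ (π' j - π j) = 0 := by
  refine eq_zero_of_kunneth W X X X.dim _
    (C.cl_mem _ _ _ (Submodule.sub_mem (CHiL _ _) (h'.mem j) (h.mem j))) ?_
  intro l x hx y
  have h1 : W.tr (X.prod X) (W.pull (fst X X) x * C.cl _ (π' j - π j) * W.pull (snd X X) y)
      = W.tr (X.prod X) (W.pull (fst X X) x * C.cl _ (π' j) * W.pull (snd X X) y)
        - W.tr (X.prod X) (W.pull (fst X X) x * C.cl _ (π j) * W.pull (snd X X) y) := by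
    rw [map_sub, mul_sub, sub_mul]
    exact map_sub (trL W (X.prod X)) _ _
  rw [h1]
  by_cases hjl : j = l
  · subst hjl
    rw [IsCK.act_same' h j x hx, IsCK.act_same' h' j x hx, sub_self]
  · rw [IsCK.act_other' h j l hjl x hx, IsCK.act_other' h' j l hjl x hx, sub_self]

/-- A family of orthogonal idempotents congruent to a Chow-Künneth decomposition modulo
homologically trivial correspondences is a Chow-Künneth decomposition. -/
lemma isCK_of_congr {X : SmProjVar k} {π : ℕ → CH (X.prod X)} (h : C.IsCK X π)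
    (e : ℕ → Corr C X) (he : Helper47.Chow.IsDecomp (2 * X.dim) e)
    (hc : ∀ j, e j - IsCK.corr h j ∈ homIdeal C X) : C.IsCK X (fun j => (e j).val) := by
  have hcl : ∀ j, C.cl _ (e j).val = C.cl _ (π j) := by
    intro j
    have h1 : C.cl _ ((e j).val - π j) = 0 := hc j
    rwa [map_sub, sub_eq_zero] at h1
  refine ⟨fun i => (e i).2, fun i hi => ?_, fun i => ?_, fun i j hij => ?_, ?_, ?_, ?_⟩
  · rw [he.zero i hi]; rfl
  · have := he.idem i
    exact congrArg Corr.val this
  · have := he.orth j i hij.symm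
    exact congrArg Corr.val this
  · have := congrArg Corr.val he.sum
    rwa [Corr.sum_val] at this
  · intro i x hx y
    change W.tr (X.prod X) (W.pull (fst X X) x * C.cl _ (e i).val * W.pull (snd X X) y) = _
    rw [hcl]; exact h.act_same i x hx y
  · intro i j hij x hx y
    change W.tr (X.prod X) (W.pull (fst X X) x * C.cl _ (e i).val * W.pull (snd X X) y) = _
    rw [hcl]; exact h.act_other i j hij x hx y

lemma act_sum {X Y : SmProjVar k} {ι : Type*} (s : Finset ι) (f : ι → CH (X.prod Y)) (a : CH X) :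
    C.act (∑ i ∈ s, f i) a = ∑ i ∈ s, C.act (f i) a :=
  map_sum (⟨⟨fun γ => C.act γ a, C.act_zero' a⟩, fun γ γ' => C.act_add γ γ' a⟩ :
    CH (X.prod Y) →+ CH Y) f s

lemma cl_act_of_ne {X : SmProjVar k} {π : ℕ → CH (X.prod X)} (h : C.IsCK X π) (i j : ℕ)
    (hij : j ≠ 2 * i) (a : CH X) (ha : a ∈ CHi X i) : C.cl X (C.act (π j) a) = 0 := by
  refine C.cl_eq_zero_of_tr _ fun y => ?_
  rw [C.tr_cl_act]
  exact h.act_other j (2 * i) hij _ (C.cl_mem _ _ _ ha) y

/-- Murre's conjecture (D) for `π` in codimension `i` means that `π j` kills the homologically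
trivial classes of codimension `i` for all `j ≥ 2 i`. -/
lemma murreD_iff {X : SmProjVar k} {π : ℕ → CH (X.prod X)} (h : C.IsCK X π) (i : ℕ) :
    C.MurreD X π i ↔ ∀ a ∈ CHi X i, C.cl X a = 0 → ∀ j, 2 * i ≤ j → C.act (π j) a = 0 := by
  constructor
  · intro hD a ha hcl j hj
    obtain ⟨b, hb, rfl⟩ := (hD a ha).2 hcl
    rw [act_sum, ← C.actL_apply (π j), map_sum]
    refine Finset.sum_eq_zero fun l hl => ?_
    rw [Finset.mem_filter] at hl
    rw [C.actL_apply, ← C.act_comp, h.orth l j (by omega), C.act_zero']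
  · intro H a ha
    constructor
    · rintro ⟨b, hb, rfl⟩
      change C.cl X (C.act _ b) = 0
      rw [act_sum, map_sum]
      refine Finset.sum_eq_zero fun l hl => ?_
      rw [Finset.mem_filter] at hl
      exact cl_act_of_ne h i l (by omega) b hb
    · intro hcl
      refine ⟨a, ha, ?_⟩
      have h1 : C.act (∑ j ∈ Finset.range (2 * X.dim + 1), π j) a = a := by
        rw [h.sum, C.act_Δ]
      rw [act_sum] at h1 ⊢
      conv_rhs => rw [← h1]
      refine Finset.sum_subset (Finset.filter_subset _ _) fun l hl1 hl2 => ?_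
      rw [Finset.mem_filter, not_and] at hl2
      have := hl2 hl1
      exact H a ha hcl l (by omega)

end Pool.Agent.Helper47.Chow
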