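import Mathlib
import Pool.Agent.Helper47.Chow.Corr

/-!
# External products and degrees
-/

universe u v w

open CategoryTheory AlgebraicGeometry Limits

namespace Pool.Agent.Helper47.Chow

open Pool.Agent.Helper10 Pool.Agent.Helper10.SmProjVar

attribute [local simp] SmProjVar.lift_fst_assoc SmProjVar.lift_snd_assoc

variable {k : Type u} [Field k] {K : Type v} [Field K] [CharZero K]
  {W : WeilCohomology.{u, v, w} k K} (C : ChowTheory W)

/-- The degree of (the part of dimension zero of) a cycle. -/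
noncomputable def degZ (X : SmProjVar k) : (X.Pt →₀ ℚ) →ₗ[ℚ] ℚ :=
  Finsupp.lsum ℚ fun x => LinearMap.toSpanSingleton ℚ ℚ
    (if X.pointDim x = 0 then (X.residueDeg x : ℚ) else 0)

lemma degZ_single (X : SmProjVar k) (x : X.Pt) (c : ℚ) :
    degZ X (Finsupp.single x c) = c * (if X.pointDim x = 0 then (X.residueDeg x : ℚ) else 0) := by
  simp [degZ, LinearMap.toSpanSingleton_apply]

lemma degZ_apply (X : SmProjVar k) (z : X.Pt →₀ ℚ) :
    degZ X z = z.sum fun x c => c * (if X.pointDim x = 0 then (X.residueDeg x : ℚ) else 0) := by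
  conv_lhs => rw [← Finsupp.sum_single z]
  unfold Finsupp.sum
  rw [map_sum]
  exact Finset.sum_congr rfl fun x _ => degZ_single X x _

lemma degZ_eq_zero {X : SmProjVar k} {i : ℕ} (hi : i ≠ X.dim) (z : X.Pt →₀ ℚ)
    (hz : ∀ x, z x ≠ 0 → X.pointDim x + i = X.dim) : degZ X z = 0 := by
  rw [degZ_apply]
  refine Finset.sum_eq_zero fun x hx => ?_
  have := hz x (Finsupp.mem_support_iff.1 hx)
  change z x * (if X.pointDim x = 0 then (X.residueDeg x : ℚ) else 0) = 0
  rw [if_neg (by omega), mul_zero]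

lemma push_pull_cls (X Y : SmProjVar k) (z : X.Pt →₀ ℚ) :
    C.push (snd X Y) (C.pull (fst X Y) (ChowTheory.clsL X z)) = degZ X z • one Y := by
  rw [ChowTheory.cls_eq_sum, degZ_apply, Finsupp.sum, Finsupp.sum, map_sum, map_sum,
    Finset.sum_smul]
  refine Finset.sum_congr rfl fun x _ => ?_
  rw [map_smul, map_smul, C.push_snd_pull_fst, smul_smul]

lemma cl_smul (X : SmProjVar k) (q : ℚ) (a : CH X) : C.cl X (q • a) = (q : K) • C.cl X a := by
  have := map_ratCast_smul (C.cl X) ℚ K q a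
  simpa using this

lemma tr_cl_ptCls {X : SmProjVar k} (x : X.Pt) (hx : X.pointDim x = 0) :
    W.tr X (C.cl X (ptCls X x)) = (X.residueDeg x : K) := by
  classical
  have hco : ∀ y, Cyc.coeff (X.pointCycle x) y = if y = x then 1 else 0 := by
    intro y
    exact Function.locallyFinsuppWithin.single_apply (X := X.toOver.left) (Y := ℤ)
      (x₁ := x) (x₂ := y) (y := (1 : ℤ))
  have hc : ∀ y, Cyc.coeff (X.pointCycle x) y ≠ 0 → X.pointDim y + X.dim = X.dim := by
    intro y hy
    rw [hco] at hy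
    split_ifs at hy with h
    · rw [h, hx, zero_add]
    · exact absurd rfl hy
  have h1 := W.cycleClasses.tr_point X x ⟨X.pointCycle x, hc⟩ rfl
  rw [← h1]
  congr 1
  refine C.cl_cls X X.dim ⟨X.pointCycle x, hc⟩ (QCycles.point x) fun y => ?_
  change (Finsupp.single x (1 : ℚ) : X.Pt →₀ ℚ) y = ((Cyc.coeff (X.pointCycle x) y : ℤ) : ℚ)
  rw [hco, Finsupp.single_apply]
  by_cases h : x = y
  · rw [if_pos h, if_pos h.symm]; simp
  · rw [if_neg h, if_neg (Ne.symm h)]; simp

lemma tr_cl_cls {X : SmProjVar k} (z : QCycles X)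
    (hz : ∀ x, z.coeff x ≠ 0 → X.pointDim x + X.dim = X.dim) :
    W.tr X (C.cl X (ChowTheory.clsL X z)) = ((degZ X z : ℚ) : K) := by
  change trL W X _ = _
  rw [ChowTheory.cls_eq_sum, degZ_apply, Finsupp.sum, Finsupp.sum, map_sum, map_sum,
    Rat.cast_sum]
  refine Finset.sum_congr rfl fun x hx => ?_
  have h0 : X.pointDim x = 0 := by
    have := hz x (Finsupp.mem_support_iff.1 hx)
    omega
  rw [cl_smul, map_smul, if_pos h0]
  change _ • W.tr X (C.cl X (ptCls X x)) = _
  rw [tr_cl_ptCls C x h0, smul_eq_mul]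
  push_cast
  rfl

/-- Zero-cycles: the degree. -/
lemma exists_deg {X : SmProjVar k} (a : CH X) (ha : a ∈ CHi X X.dim) :
    ∃ q : ℚ, W.tr X (C.cl X a) = (q : K) ∧
      ∀ Y, C.push (snd X Y) (C.pull (fst X Y) a) = q • one Y := by
  obtain ⟨z, hz, rfl⟩ := ha
  exact ⟨degZ X z, tr_cl_cls C z hz, fun Y => push_pull_cls C X Y z⟩

lemma push_pull_eq_zero {X : SmProjVar k} {i : ℕ} (hi : i ≠ X.dim) (a : CH X) (ha : a ∈ CHi X i)
    (Y : SmProjVar k) : C.push (snd X Y) (C.pull (fst X Y) a) = 0 := by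
  obtain ⟨z, hz, rfl⟩ := ha
  have := push_pull_cls C X Y z
  rw [degZ_eq_zero hi z hz, zero_smul] at this
  exact this

/-- The external product `b × a`. -/
noncomputable def extProd {X Y : SmProjVar k} (b : CH X) (a : CH Y) : CH (X.prod Y) :=
  C.mul _ (C.pull (fst X Y) b) (C.pull (snd X Y) a)

section

variable {C}
variable {X Y Z : SmProjVar k}

lemma extProd_mem {i j : ℕ} {b : CH X} {a : CH Y} (hb : b ∈ CHi X i) (ha : a ∈ CHi Y j) :
    extProd C b a ∈ CHi (X.prod Y) (i + j) :=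
  C.mul_mem _ _ _ _ _ (C.pull_mem _ _ _ hb) (C.pull_mem _ _ _ ha)

lemma extProd_smul (b : CH X) (q : ℚ) (a : CH Y) :
    extProd C b (q • a) = q • extProd C b a := by
  unfold extProd; rw [map_smul, map_smul]

lemma extProd_zero (b : CH X) : extProd C b (0 : CH Y) = 0 := by
  unfold extProd; rw [map_zero, map_zero]

/-- `(b × a)_* c = deg (c b) a`. -/
lemma act_extProd (b : CH X) (a : CH Y) (c : CH X) :
    C.act (extProd C b a) c =
      C.mul Y (C.push (snd X Y) (C.pull (fst X Y) (C.mul X c b))) a := by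
  rw [C.act_apply, extProd, ← C.projection, C.pull_mul, C.mul_assoc]

/-- `γ ∘ (b × a) = b × γ_* a`. -/
lemma comp_extProd (b : CH X) (a : CH Y) (γ : CH (Y.prod Z)) :
    C.comp (extProd C b a) γ = extProd C b (C.act γ a) := by
  rw [C.comp_apply, extProd, extProd, C.act_apply]
  have hb := C.base_change (snd Y Z) (snd X Z) (snd X (Y.prod Z)) (idProd X (snd Y Z))
    (isPullback_snd X (snd Y Z)) inferInstance
  rw [hb, ← C.projection']
  have e1 : idProd X (snd Y Z) = p13 X Y Z := rfl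
  rw [e1, C.pull_mul, C.pull_mul, C.mul_assoc, ← C.pull_comp, ← C.pull_comp, ← C.pull_comp,
    ← C.pull_comp]
  have h1 : p13 X Y Z ≫ fst X Z = p12 X Y Z ≫ fst X Y := by simp [p13, p12]
  have h2 : p12 X Y Z ≫ snd X Y = snd X (Y.prod Z) ≫ fst Y Z := by simp [p12]
  rw [h1, h2]

lemma cl_extProd (b : CH X) (a : CH Y) : C.cl _ (extProd C b a) =
    W.pull (fst X Y) (C.cl X b) * W.pull (snd X Y) (C.cl Y a) := by
  rw [extProd, C.cl_mul, C.cl_pull, C.cl_pull]

/-- The cohomological action of `b × a`. -/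
lemma tr_extProd (b : CH X) (a : CH Y) (x : W.H X) (y : W.H Y) :
    W.tr (X.prod Y) (W.pull (fst X Y) x * C.cl _ (extProd C b a) * W.pull (snd X Y) y) =
      W.tr X (x * C.cl X b) * W.tr Y (C.cl Y a * y) := by
  rw [cl_extProd, ← W.tr_prod, (W.pull_hom (fst X Y)).map_mul, (W.pull_hom (snd X Y)).map_mul]
  simp only [mul_assoc]

end

end Pool.Agent.Helper47.Chow
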