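import Mathlib
import Pool.Agent.Helper47.Chow.Defs

/-!
# Phantoms and nilpotence
-/

universe u v w

open CategoryTheory AlgebraicGeometry

namespace Pool.Agent.Helper47.Chow

open Pool.Agent.Helper10 Pool.Agent.Helper10.SmProjVar

variable {k : Type u} [Field k] {K : Type v} [Field K] [CharZero K]
  {W : WeilCohomology.{u, v, w} k K}

namespace ChowTheory

variable (C : ChowTheory W)

/-- The powers of a correspondence from `X` to itself for the composition. -/
noncomputable def pow {X : SmProjVar k} (γ : CH (X.prod X)) : ℕ → CH (X.prod X)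
  | 0 => C.Δ X
  | n + 1 => C.comp (pow γ n) γ

/-- A homologically trivial idempotent correspondence of degree `0` of `X`: the projector of a
direct summand of the motive of `X` without cohomology. -/
def IsPhantom (X : SmProjVar k) (φ : CH (X.prod X)) : Prop :=
  φ ∈ CHi (X.prod X) X.dim ∧ C.ops.cl _ φ = 0 ∧ C.comp φ φ = φ

/-- For every homologically trivial correspondence `γ` of degree `0`, the correspondence
`(Δ - π m) ∘ γ ∘ (Δ - π m)` is nilpotent: the sum of all the pieces of `π` but the `m`-th one has
only nilpotent homologically trivial endomorphisms. -/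
def NilOutside (X : SmProjVar k) (π : ℕ → CH (X.prod X)) (m : ℕ) : Prop :=
  ∀ γ ∈ CHi (X.prod X) X.dim, C.ops.cl _ γ = 0 →
    ∃ n, C.pow (C.comp (C.comp (C.Δ X - π m) γ) (C.Δ X - π m)) n = 0

end ChowTheory

end Pool.Agent.Helper47.Chow
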