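import Mathlib
import Pool.Agent.Helper47.Chow.Corr
import Pool.Agent.Helper47.Chow.Phantom

/-!
# Murre's conjecture (D) for all Chow-Künneth decompositions and phantom motives
-/

universe u v w

open CategoryTheory AlgebraicGeometry Limits

namespace Pool.Agent.Helper47.Chow

open Pool.Agent.Helper10 Pool.Agent.Helper10.SmProjVar

variable {k : Type u} [Field k] {K : Type v} [Field K] [CharZero K]
  {W : WeilCohomology.{u, v, w} k K}

namespace ChowTheory

variable (C : ChowTheory W)

variable {C}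

lemma pow_val {X : SmProjVar k} (γ : Corr C X) (n : ℕ) : (γ ^ n).val = C.pow γ.val n := by
  induction n with
  | zero => rw [pow_zero]; rfl
  | succ n ih => rw [pow_succ', Corr.mul_val, ih]; rfl

lemma eq_zero_of_dim_lt {X : SmProjVar k} (i : ℕ) (hi : X.dim < i) (a : CH X)
    (ha : a ∈ CHi X i) : a = 0 := by
  obtain ⟨z, hz, rfl⟩ := ha
  have : z = 0 := by
    refine Finsupp.ext fun x => ?_
    by_contra hx
    have := hz x hx
    omega
  rw [this]; rfl

lemma murreD_of_dim_lt {X : SmProjVar k} {π : ℕ → CH (X.prod X)} (i : ℕ) (hi : X.dim < i) :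
    C.MurreD X π i := by
  intro a ha
  rw [eq_zero_of_dim_lt i hi a ha]
  constructor
  · intro _
    exact map_zero (C.cl X)
  · intro _
    exact ⟨0, (CHiL X i).zero_mem, C.act_zero _⟩

/-- **Criterion.**  Let `π` be a Chow-Künneth decomposition of `X` satisfying (D) in codimension
`i`, all of whose pieces but the `m`-th one have only nilpotent homologically trivial
endomorphisms.  Then all Chow-Künneth decompositions of `X` satisfy (D) in codimension `i` if and
only if `2 i ≤ m` or all phantom projectors of `X` act as zero on `CH^i(X)`. -/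
theorem phantom_criterion (X : SmProjVar k) (π : ℕ → CH (X.prod X)) (hπ : C.IsCK X π)
    (i m : ℕ) (hD : C.MurreD X π i) (hnil : C.NilOutside X π m) :
    (∀ π' : ℕ → CH (X.prod X), C.IsCK X π' → C.MurreD X π' i) ↔
      (m < 2 * i → ∀ φ, C.IsPhantom X φ → ∀ a ∈ CHi X i, C.act φ a = 0) := by
  by_cases hi : X.dim < i
  · constructor
    · intro _ _ φ _ a ha
      rw [eq_zero_of_dim_lt i hi a ha, C.act_zero]
    · intro _ π' _
      exact murreD_of_dim_lt i hi
  rw [not_lt] at hi
  have key := Helper47.Chow.ring_iff (homIdeal C X) (homTriv C X i)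
    (fun γ hγ a => C.cl_act_of_right γ.val a.1 hγ) (IsCK.isDecomp hπ) m (2 * i) (by omega)
    (by
      intro γ hγ
      obtain ⟨n, hn⟩ := hnil γ.1 γ.2 hγ
      refine ⟨n, Corr.ext ?_⟩
      rw [pow_val, Corr.zero_val, ← hn, C.comp_assoc]
      rfl)
    (by
      intro a ha j hj
      exact Subtype.ext ((murreD_iff hπ i).1 hD a.1 a.2 ha j hj))
  constructor
  · intro H hm φ hφ a ha
    have := (key.1 ?_) hm ⟨φ, hφ.1⟩ hφ.2.1 (Corr.ext hφ.2.2) ⟨a, ha⟩
    · exact congrArg Subtype.val this
    · intro e he hc v hv j hj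
      have h1 := isCK_of_congr hπ e he hc
      exact Subtype.ext ((murreD_iff h1 i).1 (H _ h1) v.1 v.2 hv j hj)
  · intro H π' hπ'
    rw [murreD_iff hπ']
    intro a ha hcl j hj
    have := (key.2 ?_) (IsCK.corr hπ') (IsCK.isDecomp hπ') ?_ ⟨a, ha⟩ hcl j hj
    · exact congrArg Subtype.val this
    · intro hm φ hφI hφ v
      exact Subtype.ext (H hm φ.1 ⟨φ.2, hφI, congrArg Corr.val hφ⟩ v.1 v.2)
    · intro j
      exact IsCK.congr hπ hπ' j

/-- **Criterion**, second form: all Chow-Künneth decompositions of `X` satisfy (D) in codimension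
`i` if and only if the given one does and, in case `m < 2 i`, all phantom projectors of `X` act as
zero on `CH^i(X)`. -/
theorem phantom_criterion' (X : SmProjVar k) (π : ℕ → CH (X.prod X)) (hπ : C.IsCK X π)
    (i m : ℕ) (hnil : C.NilOutside X π m) :
    (∀ π' : ℕ → CH (X.prod X), C.IsCK X π' → C.MurreD X π' i) ↔
      C.MurreD X π i ∧ (m < 2 * i → ∀ φ, C.IsPhantom X φ → ∀ a ∈ CHi X i, C.act φ a = 0) :=
  ⟨fun H => ⟨H π hπ, (phantom_criterion X π hπ i m (H π hπ) hnil).1 H⟩,
    fun H => (phantom_criterion X π hπ i m H.1 hnil).2 H.2⟩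

end ChowTheory

end Pool.Agent.Helper47.Chow
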