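import Mathlib
import Pool.Agent.Helper47.Chow.Ext
import Pool.Agent.Helper47.Chow.Main

/-!
# Varieties whose cohomology is algebraic outside the middle degree
-/

universe u v w

open CategoryTheory AlgebraicGeometry Limits

namespace Pool.Agent.Helper47.Chow

open Pool.Agent.Helper10 Pool.Agent.Helper10.SmProjVar

variable {k : Type u} [Field k] {K : Type v} [Field K] [CharZero K]
  {W : WeilCohomology.{u, v, w} k K} (C : ChowTheory W)

section Proj

variable {X : SmProjVar k}

/-- The span of the correspondences `b × a` with `b ∈ CH^j(X)` and `a ∈ CH^i(X)`. -/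
noncomputable def algProj (X : SmProjVar k) (i j : ℕ) : Submodule ℚ (CH (X.prod X)) :=
  Submodule.span ℚ {z | ∃ b ∈ CHi X j, ∃ a ∈ CHi X i, z = extProd C b a}

lemma algProj_mem {i j : ℕ} (hij : i + j = X.dim) {z : CH (X.prod X)}
    (hz : z ∈ algProj C X i j) : z ∈ CHi (X.prod X) X.dim := by
  have : algProj C X i j ≤ CHiL (X.prod X) X.dim := by
    refine Submodule.span_le.2 ?_
    rintro _ ⟨b, hb, a, ha, rfl⟩
    have := extProd_mem (C := C) hb ha
    rw [show j + i = X.dim by omega] at this
    exact this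
  exact this hz

variable {C}

lemma act_algProj_ne {i j : ℕ} (hij : i + j = X.dim) {z : CH (X.prod X)}
    (hz : z ∈ algProj C X i j) {l : ℕ} (hl : l ≠ i) (c : CH X) (hc : c ∈ CHi X l) :
    C.act z c = 0 := by
  refine Submodule.span_induction (p := fun z _ => C.act z c = 0) ?_ (C.act_zero' c) ?_ ?_ hz
  · rintro _ ⟨b, hb, a, ha, rfl⟩
    rw [act_extProd, push_pull_eq_zero C (by omega) _ (C.mul_mem _ _ _ _ _ hc hb), map_zero,
      LinearMap.zero_apply]
  · intro x y _ _ hx hy
    rw [C.act_add, hx, hy, add_zero]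
  · intro q x _ hx
    rw [C.act_smul', hx, smul_zero]

lemma act_algProj_hom {i j : ℕ} (hij : i + j = X.dim) {z : CH (X.prod X)}
    (hz : z ∈ algProj C X i j) {l : ℕ} (c : CH X) (hc : c ∈ CHi X l) (h0 : C.cl X c = 0) :
    C.act z c = 0 := by
  by_cases hl : l = i
  · subst hl
    refine Submodule.span_induction (p := fun z _ => C.act z c = 0) ?_ (C.act_zero' c) ?_ ?_ hz
    · rintro _ ⟨b, hb, a, ha, rfl⟩
      have hm := C.mul_mem _ _ _ _ _ hc hb
      rw [hij] at hm
      obtain ⟨q, hq, hp⟩ := exists_deg C _ hm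
      rw [C.cl_mul, h0, zero_mul, ChowTheory.tr_zero] at hq
      have hq0 : q = 0 := by exact_mod_cast hq.symm
      rw [act_extProd, hp, hq0, zero_smul, map_zero, LinearMap.zero_apply]
    · intro x y _ _ hx hy
      rw [C.act_add, hx, hy, add_zero]
    · intro q x _ hx
      rw [C.act_smul', hx, smul_zero]
  · exact act_algProj_ne hij hz hl c hc

lemma comp_algProj {i j i' j' : ℕ} (hij' : i' + j' = X.dim) (hi : i ≠ i')
    {z z' : CH (X.prod X)} (hz : z ∈ algProj C X i j) (hz' : z' ∈ algProj C X i' j') :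
    C.comp z z' = 0 := by
  refine Submodule.span_induction (p := fun z _ => C.comp z z' = 0) ?_ (C.zero_comp _) ?_ ?_ hz
  · rintro _ ⟨b, hb, a, ha, rfl⟩
    rw [comp_extProd, act_algProj_ne hij' hz' hi a ha, extProd_zero]
  · intro x y _ _ hx hy
    rw [C.add_comp, hx, hy, add_zero]
  · intro q x _ hx
    rw [C.smul_comp, hx, smul_zero]

lemma comp_hom_algProj {i j i' j' : ℕ} (hij' : i' + j' = X.dim)
    {z z' γ : CH (X.prod X)} (hz : z ∈ algProj C X i j) (hz' : z' ∈ algProj C X i' j')
    (hγ : γ ∈ CHi (X.prod X) X.dim) (h0 : C.cl _ γ = 0) :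
    C.comp (C.comp z γ) z' = 0 := by
  refine Submodule.span_induction (p := fun z _ => C.comp (C.comp z γ) z' = 0) ?_ ?_ ?_ ?_ hz
  · rintro _ ⟨b, hb, a, ha, rfl⟩
    rw [comp_extProd, comp_extProd, act_algProj_hom hij' hz' (C.act γ a)
      (C.act_mem γ hγ i a ha) (C.cl_act_of_right γ a h0), extProd_zero]
  · rw [C.zero_comp, C.zero_comp]
  · intro x y _ _ hx hy
    rw [C.add_comp, C.add_comp, hx, hy, add_zero]
  · intro q x _ hx
    rw [C.smul_comp, C.smul_comp, hx, smul_zero]

variable (C)

/-- The number `∫ p^* x ∪ cl(z) ∪ q^* y` as an additive map in `z`. -/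
noncomputable def pairH {X Y : SmProjVar k} (x : W.H X) (y : W.H Y) : CH (X.prod Y) →+ K where
  toFun z := W.tr (X.prod Y) (W.pull (fst X Y) x * C.cl _ z * W.pull (snd X Y) y)
  map_zero' := by rw [map_zero, mul_zero, zero_mul, ChowTheory.tr_zero]
  map_add' a b := by
    rw [map_add, mul_add, add_mul]
    exact (W.trace _).map_add _ _

lemma pairH_apply {X Y : SmProjVar k} (x : W.H X) (y : W.H Y) (z : CH (X.prod Y)) :
    pairH C x y z = W.tr (X.prod Y) (W.pull (fst X Y) x * C.cl _ z * W.pull (snd X Y) y) := rfl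

lemma pairH_smul {X Y : SmProjVar k} (x : W.H X) (y : W.H Y) (q : ℚ) (z : CH (X.prod Y)) :
    pairH C x y (q • z) = (q : K) * pairH C x y z := by
  rw [pairH_apply, pairH_apply, cl_smul, mul_smul_comm, smul_mul_assoc]
  exact (W.trace _).map_smul _ _

lemma pairH_extProd {X Y : SmProjVar k} (b : CH X) (a : CH Y) (x : W.H X) (y : W.H Y) :
    pairH C x y (extProd C b a) = W.tr X (x * C.cl X b) * W.tr Y (C.cl Y a * y) :=
  tr_extProd b a x y

variable {C}

lemma pairH_algProj_ne {i j : ℕ} (hij : i + j = X.dim) {z : CH (X.prod X)}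
    (hz : z ∈ algProj C X i j) {l : ℕ} (hl : l ≠ 2 * i) (x : W.H X) (hx : x ∈ W.gr X l)
    (y : W.H X) : pairH C x y z = 0 := by
  refine Submodule.span_induction (p := fun z _ => pairH C x y z = 0) ?_ (map_zero _) ?_ ?_ hz
  · rintro _ ⟨b, hb, a, ha, rfl⟩
    rw [pairH_extProd, (W.trace X).eq_zero (l + 2 * j) _ (by omega)
      ((W.graded X).mul_mem l (2 * j) _ _ hx (C.cl_mem _ _ _ hb)), zero_mul]
  · intro x y _ _ hx hy
    rw [map_add, hx, hy, add_zero]
  · intro q x _ hx
    rw [pairH_smul, hx, mul_zero]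

variable (C)

lemma cl_one (X : SmProjVar k) : C.cl X (one X) = 1 := by
  classical
  obtain ⟨c, hc, h1⟩ := W.cycleClasses.cy_fundamental X
  rw [← h1]
  refine C.cl_cls X 0 c (QCycles.point X.genericPt) fun y => ?_
  have hco : Cyc.coeff (X.pointCycle X.genericPt) y = if y = X.genericPt then 1 else 0 :=
    Function.locallyFinsuppWithin.single_apply (X := X.toOver.left) (Y := ℤ)
      (x₁ := X.genericPt) (x₂ := y) (y := (1 : ℤ))
  rw [hc, hco]
  change (Finsupp.single X.genericPt (1 : ℚ) : X.Pt →₀ ℚ) y = _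
  rw [Finsupp.single_apply]
  by_cases h : X.genericPt = y
  · rw [if_pos h, if_pos h.symm]; simp
  · rw [if_neg h, if_neg (Ne.symm h)]; simp

lemma pairH_Δ (X : SmProjVar k) (x y : W.H X) : pairH C x y (C.Δ X) = W.tr X (x * y) := by
  rw [pairH_apply, ← even_comm W _ X.dim _ _ (C.cl_mem _ _ _ (Δ_mem C X)), C.Δ_apply, mul_assoc,
    C.cl_push, cl_one, one_mul, (W.pull_hom (diag X)).map_mul, ← W.pull_comp, ← W.pull_comp]
  have h1 : diag X ≫ fst X X = 𝟙 _ := by simp [diag]
  have h2 : diag X ≫ snd X X = 𝟙 _ := by simp [diag]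
  rw [h1, h2, W.pull_id, W.pull_id]

end Proj

section Dual

variable (X : SmProjVar k)

/-- `H^{2i}(X)` is spanned by the classes of cycles. -/
def SpannedBy (i : ℕ) : Prop :=
  ∀ x ∈ W.gr X (2 * i), x ∈ Submodule.span K (C.cl X '' CHi X i)

lemma tr_mul_rat {i j : ℕ} (hij : i + j = X.dim) (a b : CH X) (ha : a ∈ CHi X i)
    (hb : b ∈ CHi X j) : ∃ q : ℚ, W.tr X (C.cl X a * C.cl X b) = (q : K) ∧
      ∀ Y, C.push (snd X Y) (C.pull (fst X Y) (C.mul X a b)) = q • one Y := by
  have hm := C.mul_mem _ _ _ _ _ ha hb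
  rw [hij] at hm
  obtain ⟨q, hq, hp⟩ := exists_deg C _ hm
  rw [C.cl_mul] at hq
  exact ⟨q, hq, hp⟩

/-- Dual bases of `H^{2i}(X)` and `H^{2j}(X)`, `i + j = dim X`, consisting of algebraic classes. -/
lemma exists_dual {i j : ℕ} (hij : i + j = X.dim) (hi : SpannedBy C X i) (hj : SpannedBy C X j) :
    ∃ (ι : Type w) (_ : Fintype ι) (_ : DecidableEq ι) (a b : ι → CH X),
      (∀ s, a s ∈ CHi X i) ∧ (∀ s, b s ∈ CHi X j) ∧
      (∀ s t, W.tr X (C.cl X (a s) * C.cl X (b t)) = if s = t then 1 else 0) ∧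
      (∀ x ∈ W.gr X (2 * i), x ∈ Submodule.span K (Set.range fun s => C.cl X (a s))) := by
  classical
  have : Module.Finite K (W.H X) := (W.graded X).finite
  obtain ⟨S, hSs, hSspan, hSli⟩ := exists_linearIndependent K (C.cl X '' CHi X i)
  have : Finite S := hSli.setFinite
  let _ : Fintype S := Fintype.ofFinite S
  have ha' : ∀ s : S, ∃ a ∈ CHi X i, C.cl X a = s := fun s => hSs s.2
  choose a ha1 ha2 using ha'
  let L : Submodule ℚ (S → ℚ) :=
    { carrier := {v | ∃ b ∈ CHi X j, ∀ s, W.tr X (C.cl X (a s) * C.cl X b) = (v s : K)}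
      zero_mem' := ⟨0, (CHiL X j).zero_mem, fun s => by
        rw [map_zero, mul_zero, ChowTheory.tr_zero]; simp⟩
      add_mem' := by
        rintro v v' ⟨b, hb, h⟩ ⟨b', hb', h'⟩
        refine ⟨b + b', (CHiL X j).add_mem hb hb', fun s => ?_⟩
        rw [map_add, mul_add, (W.trace X).map_add, h, h']
        simp
      smul_mem' := by
        rintro q v ⟨b, hb, h⟩
        refine ⟨q • b, (CHiL X j).smul_mem q hb, fun s => ?_⟩
        rw [cl_smul, mul_smul_comm, (W.trace X).map_smul, h]
        simp }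
  have hL : L = ⊤ := by
    by_contra hne
    obtain ⟨f, hf, hLf⟩ := Submodule.exists_le_ker_of_lt_top L (lt_top_iff_ne_top.2 hne)
    apply hf
    set c : S → ℚ := fun s => f (Pi.single s 1) with hc
    have hfv : ∀ v : S → ℚ, f v = ∑ s, v s * c s := by
      intro v
      have hv : v = ∑ s, v s • (Pi.single s (1 : ℚ) : S → ℚ) := by
        funext t
        simp [Finset.sum_apply, Pi.single_apply]
      conv_lhs => rw [hv]
      rw [map_sum]
      exact Finset.sum_congr rfl fun s _ => by rw [map_smul, smul_eq_mul]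
    set x0 : W.H X := ∑ s, (c s : K) • C.cl X (a s) with hx0
    have htr : ∀ y, W.tr X (x0 * y) = ∑ s, (c s : K) * W.tr X (C.cl X (a s) * y) := by
      intro y
      rw [hx0, Finset.sum_mul]
      change trL W X _ = _
      rw [map_sum]
      refine Finset.sum_congr rfl fun s _ => ?_
      rw [smul_mul_assoc, map_smul]
      rfl
    have hx0m : x0 ∈ W.gr X (2 * i) :=
      Submodule.sum_mem _ fun s _ => Submodule.smul_mem _ _ (C.cl_mem _ _ _ (ha1 s))
    have hx00 : x0 = 0 := by
      apply (W.trace X).nondegenerate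
      intro y
      have hy : y ∈ ⨆ l, W.gr X l := by rw [(W.graded X).iSup_eq_top]; trivial
      change trL W X (x0 * y) = 0
      refine Submodule.iSup_induction (W.gr X) (motive := fun y => trL W X (x0 * y) = 0)
        hy ?_ ?_ ?_
      · intro l y hy
        by_cases hl : l = 2 * j
        · subst hl
          refine Submodule.span_induction (p := fun y _ => trL W X (x0 * y) = 0) ?_ ?_ ?_ ?_
            (hj y hy)
          · rintro _ ⟨b, hb, rfl⟩
            have h1 : ∀ s, ∃ q : ℚ, W.tr X (C.cl X (a s) * C.cl X b) = (q : K) := fun s =>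
              (tr_mul_rat C X hij (a s) b (ha1 s) hb).imp fun q hq => hq.1
            choose q hq using h1
            have h2 : f q = 0 := hLf ⟨b, hb, hq⟩
            rw [hfv] at h2
            change W.tr X (x0 * C.cl X b) = 0
            rw [htr]
            have h3 : ((∑ s, q s * c s : ℚ) : K) = 0 := by rw [h2]; simp
            rw [← h3]
            push_cast
            exact Finset.sum_congr rfl fun s _ => by rw [hq, mul_comm]
          · rw [mul_zero, map_zero]
          · intro y y' _ _ h h'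
            rw [mul_add, map_add, h, h', add_zero]
          · intro r y _ h
            rw [mul_smul_comm, map_smul, h, smul_zero]
        · exact (W.trace X).eq_zero (2 * i + l) _ (by omega)
            ((W.graded X).mul_mem _ _ _ _ hx0m hy)
      · rw [mul_zero, map_zero]
      · intro y y' h h'
        rw [mul_add, map_add, h, h', add_zero]
    have hc0 : ∀ s, c s = 0 := by
      intro s
      have h1 : ∑ s : S, (c s : K) • (s : W.H X) = 0 := by
        rw [← hx00, hx0]
        exact Finset.sum_congr rfl fun s _ => by rw [ha2]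
      have := Fintype.linearIndependent_iff.1 hSli (fun s => (c s : K)) h1 s
      exact_mod_cast this
    refine LinearMap.ext fun v => ?_
    rw [hfv, LinearMap.zero_apply]
    exact Finset.sum_eq_zero fun s _ => by rw [hc0, mul_zero]
  have hb' : ∀ t : S, ∃ b ∈ CHi X j, ∀ s, W.tr X (C.cl X (a s) * C.cl X b) =
      (((Pi.single t (1 : ℚ) : S → ℚ) s : ℚ) : K) := by
    intro t
    have : (Pi.single t (1 : ℚ) : S → ℚ) ∈ L := by rw [hL]; trivial
    exact this
  choose b hb1 hb2 using hb'
  refine ⟨S, inferInstance, inferInstance, a, b, ha1, hb1, fun s t => ?_, fun x hx => ?_⟩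
  · rw [hb2, Pi.single_apply]
    split_ifs <;> simp
  · have h1 := hi x hx
    rw [← hSspan] at h1
    have h2 : (Set.range fun s => C.cl X (a s)) = S := by
      ext y
      constructor
      · rintro ⟨s, rfl⟩
        change C.cl X (a s) ∈ S
        rw [ha2]; exact s.2
      · intro hy
        exact ⟨⟨y, hy⟩, ha2 _⟩
    rw [h2]; exact h1

/-- The algebraic Künneth projector of degree `2i`. -/
lemma exists_proj {i j : ℕ} (hij : i + j = X.dim) (hi : SpannedBy C X i)
    (hj : SpannedBy C X j) :
    ∃ e ∈ algProj C X i j, C.comp e e = e ∧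
      ∀ x ∈ W.gr X (2 * i), ∀ y, pairH C x y e = W.tr X (x * y) := by
  obtain ⟨ι, hι, hdec, a, b, ha, hb, hab, hspan⟩ := exists_dual C X hij hi hj
  refine ⟨∑ s, extProd C (b s) (a s), ?_, ?_, ?_⟩
  · exact Submodule.sum_mem _ fun s _ => Submodule.subset_span ⟨b s, hb s, a s, ha s, rfl⟩
  · have hact : ∀ s t, C.act (extProd C (b t) (a t)) (a s) = if s = t then a t else 0 := by
      intro s t
      obtain ⟨q, hq, hp⟩ := tr_mul_rat C X hij (a s) (b t) (ha s) (hb t)
      rw [hab] at hq
      rw [act_extProd, hp, map_smul, LinearMap.smul_apply, C.one_mul]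
      split_ifs at hq ⊢ with h
      · have : q = 1 := by exact_mod_cast hq.symm
        rw [this, one_smul]
      · have : q = 0 := by exact_mod_cast hq.symm
        rw [this, zero_smul]
    have h1 : ∀ s, C.comp (extProd C (b s) (a s)) (∑ t, extProd C (b t) (a t)) =
        extProd C (b s) (a s) := by
      intro s
      rw [comp_extProd, act_sum]
      have : ∑ t, C.act (extProd C (b t) (a t)) (a s) = a s := by
        rw [Finset.sum_eq_single s]
        · rw [hact, if_pos rfl]
        · intro t _ ht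
          rw [hact, if_neg (Ne.symm ht)]
        · intro h; exact absurd (Finset.mem_univ s) h
      rw [this]
    have h2 : ∀ (T : Finset ι) (z : CH (X.prod X)), C.comp (∑ s ∈ T, extProd C (b s) (a s)) z =
        ∑ s ∈ T, C.comp (extProd C (b s) (a s)) z := fun T z =>
      map_sum (⟨⟨fun γ => C.comp γ z, C.zero_comp z⟩, fun γ γ' => C.add_comp γ γ' z⟩ :
        CH (X.prod X) →+ CH (X.prod X)) _ T
    rw [h2]
    exact Finset.sum_congr rfl fun s _ => h1 s
  · intro x hx y
    have h1 : pairH C x y (∑ s, extProd C (b s) (a s)) =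
        ∑ s, W.tr X (x * C.cl X (b s)) * W.tr X (C.cl X (a s) * y) := by
      rw [map_sum]
      exact Finset.sum_congr rfl fun s _ => pairH_extProd C _ _ _ _
    rw [h1]
    have h2 : ∑ s, W.tr X (x * C.cl X (b s)) * W.tr X (C.cl X (a s) * y) =
        ∑ s, trL W X (x * C.cl X (b s)) * trL W X (C.cl X (a s) * y) := rfl
    rw [h2]
    change _ = trL W X (x * y)
    refine Submodule.span_induction (p := fun x _ =>
      ∑ s, trL W X (x * C.cl X (b s)) * trL W X (C.cl X (a s) * y) = trL W X (x * y))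
      ?_ ?_ ?_ ?_ (hspan x hx)
    · rintro _ ⟨t, rfl⟩
      rw [Finset.sum_eq_single t]
      · change W.tr X _ * _ = _
        rw [hab, if_pos rfl, _root_.one_mul]
      · intro s _ hs
        change W.tr X _ * _ = _
        rw [hab, if_neg (Ne.symm hs), zero_mul]
      · intro h; exact absurd (Finset.mem_univ t) h
    · simp
    · intro x x' _ _ h h'
      simp only [add_mul, map_add, Finset.sum_add_distrib]
      rw [h, h']
    · intro r x _ h
      simp only [smul_mul_assoc, map_smul, smul_eq_mul, _root_.mul_assoc, ← Finset.mul_sum]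
      rw [h]

end Dual

end Pool.Agent.Helper47.Chow
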