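import Mathlib
import Pool.Agent.Helper47.Chow.Defs

/-!
# Varieties with algebraic cohomology outside the middle degree
-/

universe u v w

open CategoryTheory AlgebraicGeometry

namespace Pool.Agent.Helper47.Chow

open Pool.Agent.Helper10 Pool.Agent.Helper10.SmProjVar

variable {k : Type u} [Field k] {K : Type v} [Field K] [CharZero K]
  {W : WeilCohomology.{u, v, w} k K}

/-- For every `j ≠ dim X`, the space `H^j(X)` is spanned over `K` by the classes of algebraic
cycles of codimension `j / 2` (so it is zero if `j` is odd). -/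
def ChowTheory.AlgebraicOffMiddle (C : ChowTheory W) (X : SmProjVar k) : Prop :=
  ∀ j, j ≠ X.dim → ∀ x ∈ W.gr X j,
    x ∈ Submodule.span K {z | ∃ i, 2 * i = j ∧ ∃ a ∈ CHi X i, C.ops.cl X a = z}

end Pool.Agent.Helper47.Chow
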