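import Mathlib
import Pool.Agent.Helper47.Chow.Alg
import Pool.Agent.Helper47.Chow.OffMiddleDef

/-!
# Murre's conjecture (D) for varieties with algebraic cohomology outside the middle degree
-/

universe u v w

open CategoryTheory AlgebraicGeometry Limits

namespace Pool.Agent.Helper47.Chow

open Pool.Agent.Helper10 Pool.Agent.Helper10.SmProjVar

variable {k : Type u} [Field k] {K : Type v} [Field K] [CharZero K]
  {W : WeilCohomology.{u, v, w} k K}

section Ring

variable {R : Type*} [Ring R]

lemma sum_even {M : Type*} [AddCommMonoid M] (g : ℕ → M) (n : ℕ) :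
    ∑ j ∈ Finset.range (2 * n + 1), (if Even j then g (j / 2) else 0) =
      ∑ i ∈ Finset.range (n + 1), g i := by
  induction n with
  | zero => simp
  | succ n ih =>
    rw [show 2 * (n + 1) + 1 = 2 * n + 1 + 1 + 1 by ring, Finset.sum_range_succ,
      Finset.sum_range_succ, ih, Finset.sum_range_succ _ (n + 1)]
    have h1 : ¬ Even (2 * n + 1) := by rw [Nat.not_even_iff_odd]; exact ⟨n, rfl⟩
    have h2 : Even (2 * n + 1 + 1) := ⟨n + 1, by ring⟩
    have h3 : (2 * n + 1 + 1) / 2 = n + 1 := by omega
    rw [if_neg h1, if_pos h2, h3, add_zero]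

variable (d : ℕ) (E : ℕ → R)

/-- The family with `E i` in degree `2 i` and the complement in degree `d`. -/
def evenFamily (j : ℕ) : R :=
  (if Even j then E (j / 2) else 0) +
    (if j = d then 1 - ∑ i ∈ Finset.range (d + 1), E i else 0)

variable {d E}

lemma evenFamily_isDecomp (idem : ∀ i, E i * E i = E i) (orth : ∀ i j, i ≠ j → E i * E j = 0)
    (h0 : ∀ i, 2 * i = d → E i = 0) (hbig : ∀ i, d < i → E i = 0) :
    Helper47.Chow.IsDecomp (2 * d) (evenFamily d E) := by
  set M : R := 1 - ∑ i ∈ Finset.range (d + 1), E i with hM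
  have hEM : ∀ i, E i * M = 0 := by
    intro i
    rw [hM, mul_sub, mul_one, Finset.mul_sum]
    by_cases hi : i ≤ d
    · rw [Finset.sum_eq_single i, idem, sub_self]
      · intro j _ hj; exact orth i j (Ne.symm hj)
      · intro h; exact absurd (Finset.mem_range.2 (by omega)) h
    · rw [hbig i (by omega)]; simp
  have hME : ∀ i, M * E i = 0 := by
    intro i
    rw [hM, sub_mul, one_mul, Finset.sum_mul]
    by_cases hi : i ≤ d
    · rw [Finset.sum_eq_single i, idem, sub_self]
      · intro j _ hj; exact orth j i hj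
      · intro h; exact absurd (Finset.mem_range.2 (by omega)) h
    · rw [hbig i (by omega)]; simp
  have hMM : M * M = M := by
    conv_lhs => rw [hM, sub_mul, one_mul, Finset.sum_mul]
    rw [Finset.sum_eq_zero fun i _ => hEM i, sub_zero]
  have hd : evenFamily d E d = M := by
    unfold evenFamily
    rw [if_pos rfl]
    split_ifs with he
    · rw [h0 (d / 2) (by obtain ⟨r, hr⟩ := he; omega), zero_add]
    · rw [zero_add]
  have hne : ∀ j, j ≠ d → evenFamily d E j = if Even j then E (j / 2) else 0 := by
    intro j hj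
    unfold evenFamily
    rw [if_neg hj, add_zero]
  refine ⟨fun i => ?_, fun i j hij => ?_, ?_, fun i hi => ?_⟩
  · by_cases hi : i = d
    · rw [hi, hd, hMM]
    · rw [hne i hi]
      split_ifs
      · exact idem _
      · exact mul_zero _
  · by_cases hi : i = d
    · rw [hi, hd, hne j (by omega)]
      split_ifs
      · exact hME _
      · exact mul_zero _
    · by_cases hj : j = d
      · rw [hj, hd, hne i hi]
        split_ifs
        · exact hEM _
        · exact zero_mul _
      · rw [hne i hi, hne j hj]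
        split_ifs with h1 h2
        · refine orth _ _ fun h => hij ?_
          obtain ⟨r, hr⟩ := h1
          obtain ⟨s, hs⟩ := h2
          omega
        · exact mul_zero _
        · exact zero_mul _
        · exact zero_mul _
  · unfold evenFamily
    rw [Finset.sum_add_distrib, sum_even, Finset.sum_ite_eq' (Finset.range (2 * d + 1)) d]
    rw [if_pos (Finset.mem_range.2 (by omega))]
    abel
  · rw [hne i (by omega)]
    split_ifs with he
    · exact hbig _ (by obtain ⟨r, hr⟩ := he; omega)
    · rfl

end Ring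

variable {C : ChowTheory W}

lemma spannedBy_of {X : SmProjVar k} (h : C.AlgebraicOffMiddle X) (i : ℕ) (hi : 2 * i ≠ X.dim) :
    SpannedBy C X i := by
  intro x hx
  refine Submodule.span_mono ?_ (h _ hi x hx)
  rintro _ ⟨i', h', a, ha, rfl⟩
  have : i' = i := by omega
  subst this
  exact ⟨a, ha, rfl⟩

lemma eq_zero_of_odd {X : SmProjVar k} (h : C.AlgebraicOffMiddle X) (j : ℕ) (hj : j ≠ X.dim)
    (ho : ¬ Even j) (x : W.H X) (hx : x ∈ W.gr X j) : x = 0 := by
  have h1 := h _ hj x hx
  have h2 : {z | ∃ i, 2 * i = j ∧ ∃ a ∈ CHi X i, C.ops.cl X a = z} = (∅ : Set (W.H X)) := by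
    ext z
    constructor
    · rintro ⟨i, hi, -⟩
      exact (ho ⟨i, by omega⟩).elim
    · intro hz; exact hz.elim
  rw [h2, Submodule.span_empty] at h1
  exact h1

/-- The algebraic Künneth projectors. -/
lemma exists_family {X : SmProjVar k} (h : C.AlgebraicOffMiddle X) (i : ℕ) :
    ∃ e : Corr C X, e.val ∈ algProj C X i (X.dim - i) ∧ e * e = e ∧
      ((2 * i = X.dim ∨ X.dim < i) → e = 0) ∧
      (2 * i ≠ X.dim → i ≤ X.dim → ∀ x ∈ W.gr X (2 * i), ∀ y,
        pairH C x y e.val = W.tr X (x * y)) := by
  by_cases hi : 2 * i = X.dim ∨ X.dim < i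
  · refine ⟨0, Submodule.zero_mem _, mul_zero _, fun _ => rfl, fun h1 h2 => ?_⟩
    omega
  · rw [not_or] at hi
    obtain ⟨e, he1, he2, he3⟩ := exists_proj C X (i := i) (j := X.dim - i) (by omega)
      (spannedBy_of h i hi.1) (spannedBy_of h (X.dim - i) (by omega))
    exact ⟨⟨e, algProj_mem C (by omega) he1⟩, he1, Corr.ext he2, fun h => (by omega),
      fun _ _ => he3⟩

/-- The data of a Chow-Künneth decomposition with algebraic pieces outside the middle degree. -/
structure IsAlgFamily (C : ChowTheory W) (X : SmProjVar k) (E : ℕ → Corr C X) : Prop where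
  mem : ∀ i, (E i).val ∈ algProj C X i (X.dim - i)
  idem : ∀ i, E i * E i = E i
  zero : ∀ i, (2 * i = X.dim ∨ X.dim < i) → E i = 0
  act : ∀ i, 2 * i ≠ X.dim → i ≤ X.dim → ∀ x ∈ W.gr X (2 * i), ∀ y,
        pairH C x y (E i).val = W.tr X (x * y)

namespace IsAlgFamily

variable {X : SmProjVar k} {E : ℕ → Corr C X} (hE : IsAlgFamily C X E)
include hE

lemma orth (i j : ℕ) (hij : i ≠ j) : E i * E j = 0 := by
  by_cases hi : X.dim < i
  · rw [hE.zero i (Or.inr hi), zero_mul]
  · by_cases hj : X.dim < j
    · rw [hE.zero j (Or.inr hj), mul_zero]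
    · exact Corr.ext (comp_algProj (by omega) hij.symm (hE.mem j) (hE.mem i))

lemma isDecomp : Helper47.Chow.IsDecomp (2 * X.dim) (evenFamily X.dim E) :=
  evenFamily_isDecomp hE.idem hE.orth (fun i hi => hE.zero i (Or.inl hi))
    (fun i hi => hE.zero i (Or.inr hi))

lemma pairH_E_ne (i l : ℕ) (hl : l ≠ 2 * i) (x : W.H X) (hx : x ∈ W.gr X l) (y : W.H X) :
    pairH C x y (E i).val = 0 := by
  by_cases hi : X.dim < i
  · rw [hE.zero i (Or.inr hi)]
    exact map_zero _
  · exact pairH_algProj_ne (by omega) (hE.mem i) hl x hx y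

lemma pairH_sum (x y : W.H X) : pairH C x y (1 - ∑ i ∈ Finset.range (X.dim + 1), E i : Corr C X).val
    = W.tr X (x * y) - ∑ i ∈ Finset.range (X.dim + 1), pairH C x y (E i).val := by
  rw [Corr.sub_val, map_sub, Corr.one_val, pairH_Δ, Corr.sum_val, map_sum]

lemma val_of_ne (j : ℕ) (hj : j ≠ X.dim) : evenFamily X.dim E j = if Even j then E (j / 2) else 0 := by
  unfold evenFamily
  rw [if_neg hj, add_zero]

lemma val_dim : evenFamily X.dim E X.dim = 1 - ∑ i ∈ Finset.range (X.dim + 1), E i := by
  unfold evenFamily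
  rw [if_pos rfl]
  split_ifs with he
  · rw [hE.zero (X.dim / 2) (Or.inl (by obtain ⟨r, hr⟩ := he; omega)), zero_add]
  · rw [zero_add]

lemma isCK (h : C.AlgebraicOffMiddle X) : C.IsCK X (fun j => (evenFamily X.dim E j).val) := by
  have hd := hE.isDecomp
  refine ⟨fun i => (evenFamily X.dim E i).2, fun i hi => ?_, fun i => ?_, fun i j hij => ?_, ?_,
    ?_, ?_⟩
  · rw [hd.zero i hi]; rfl
  · exact congrArg Corr.val (hd.idem i)
  · exact congrArg Corr.val (hd.orth j i hij.symm)
  · have := congrArg Corr.val hd.sum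
    rwa [Corr.sum_val] at this
  · intro j x hx y
    change pairH C x y (evenFamily X.dim E j).val = _
    by_cases hj : j = X.dim
    · subst hj
      rw [hE.val_dim, hE.pairH_sum, Finset.sum_eq_zero, sub_zero]
      intro i _
      by_cases hi : 2 * i = X.dim
      · rw [hE.zero i (Or.inl hi)]; exact map_zero _
      · exact hE.pairH_E_ne i _ (Ne.symm hi) x hx y
    · rw [hE.val_of_ne j hj]
      split_ifs with he
      · obtain ⟨i, hi⟩ := he
        have h2 : j / 2 = i := by omega
        have h3 : j = 2 * i := by omega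
        subst h3
        rw [h2]
        by_cases hbig : i ≤ X.dim
        · exact hE.act i hj hbig x hx y
        · have : x = 0 := by
            have := (W.graded X).eq_bot (2 * i) (by omega)
            rw [this] at hx; exact hx
          rw [this, zero_mul, ChowTheory.tr_zero, pairH_apply, ChowTheory.pull_zero, zero_mul,
            zero_mul, ChowTheory.tr_zero]
      · rw [eq_zero_of_odd h j hj he x hx, zero_mul, ChowTheory.tr_zero]
        exact map_zero _
  · intro n l hnl x hx y
    change pairH C x y (evenFamily X.dim E n).val = 0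
    by_cases hn : n = X.dim
    · subst hn
      rw [hE.val_dim, hE.pairH_sum]
      by_cases he : Even l
      · obtain ⟨i, hi⟩ := he
        have h3 : l = 2 * i := by omega
        subst h3
        by_cases hbig : i ≤ X.dim
        · rw [Finset.sum_eq_single i, hE.act i (Ne.symm hnl) hbig x hx y, sub_self]
          · intro j _ hj
            exact hE.pairH_E_ne j _ (by omega) x hx y
          · intro h; exact absurd (Finset.mem_range.2 (by omega)) h
        · have h0 : x = 0 := by
            have := (W.graded X).eq_bot (2 * i) (by omega)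
            rw [this] at hx; exact hx
          rw [Finset.sum_eq_zero, h0, zero_mul, ChowTheory.tr_zero, sub_zero]
          intro j _
          rw [h0, pairH_apply, ChowTheory.pull_zero, zero_mul, zero_mul, ChowTheory.tr_zero]
      · have h0 := eq_zero_of_odd h l (Ne.symm hnl) he x hx
        rw [Finset.sum_eq_zero, h0, zero_mul, ChowTheory.tr_zero, sub_zero]
        intro j _
        rw [h0, pairH_apply, ChowTheory.pull_zero, zero_mul, zero_mul, ChowTheory.tr_zero]
    · rw [hE.val_of_ne n hn]
      split_ifs with he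
      · obtain ⟨i, hi⟩ := he
        have h2 : n / 2 = i := by omega
        rw [h2]
        exact hE.pairH_E_ne i l (by omega) x hx y
      · exact map_zero _

lemma act_E (i : ℕ) (l : ℕ) (a : CH X) (ha : a ∈ CHi X l) (h0 : C.cl X a = 0) :
    C.act (E i).val a = 0 := by
  by_cases hi : X.dim < i
  · rw [hE.zero i (Or.inr hi)]
    exact C.act_zero' a
  · exact act_algProj_hom (by omega) (hE.mem i) a ha h0

lemma act_sum_E (l : ℕ) (a : CH X) (ha : a ∈ CHi X l) (h0 : C.cl X a = 0) :
    C.act (1 - ∑ i ∈ Finset.range (X.dim + 1), E i : Corr C X).val a = a := by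
  have h1 : C.act (1 - ∑ i ∈ Finset.range (X.dim + 1), E i : Corr C X).val a =
      C.act (C.Δ X) a - C.act (∑ i ∈ Finset.range (X.dim + 1), E i : Corr C X).val a := by
    rw [Corr.sub_val, Corr.one_val, sub_eq_add_neg, C.act_add, ← neg_one_smul ℚ, C.act_smul',
      neg_one_smul, ← sub_eq_add_neg]
  rw [h1, C.act_Δ, Corr.sum_val, act_sum, Finset.sum_eq_zero, sub_zero]
  intro i _
  exact hE.act_E i l a ha h0

lemma murreD_iff' (h : C.AlgebraicOffMiddle X) (i : ℕ) :
    C.MurreD X (fun j => (evenFamily X.dim E j).val) i ↔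
      (2 * i ≤ X.dim → ∀ a ∈ CHi X i, C.cl X a = 0 → a = 0) := by
  rw [murreD_iff (hE.isCK h)]
  constructor
  · intro H hi a ha h0
    have := H a ha h0 X.dim hi
    rw [hE.val_dim, hE.act_sum_E i a ha h0] at this
    exact this
  · intro H a ha h0 j hj
    by_cases hjd : j = X.dim
    · subst hjd
      rw [H hj a ha h0]
      exact C.act_zero _
    · rw [hE.val_of_ne j hjd]
      split_ifs
      · exact hE.act_E _ i a ha h0
      · exact C.act_zero' a

lemma nilOutside : C.NilOutside X (fun j => (evenFamily X.dim E j).val) X.dim := by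
  intro γ hγ h0
  refine ⟨1, ?_⟩
  have key : ∀ g : Corr C X, g.val = γ →
      (1 - evenFamily X.dim E X.dim) * (g * (1 - evenFamily X.dim E X.dim)) = 0 := by
    rintro g rfl
    rw [hE.val_dim, sub_sub_cancel, Finset.mul_sum, Finset.mul_sum]
    refine Finset.sum_eq_zero fun i _ => ?_
    rw [Finset.sum_mul]
    refine Finset.sum_eq_zero fun j _ => ?_
    by_cases hi : X.dim < i
    · rw [hE.zero i (Or.inr hi), mul_zero, mul_zero]
    · by_cases hj : X.dim < j
      · rw [hE.zero j (Or.inr hj), zero_mul]
      · exact Corr.ext (comp_hom_algProj (by omega) (hE.mem i) (hE.mem j) g.2 h0)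
  have h1 := congrArg Corr.val (key ⟨γ, hγ⟩ rfl)
  change C.comp (C.Δ X) _ = 0
  rw [C.Δ_comp]
  exact h1

end IsAlgFamily

/-- **Theorem.**  Suppose that `H^j(X)` is spanned by classes of algebraic cycles for all
`j ≠ dim X`.  Then `X` has a Chow-Künneth decomposition, and for every `i` all of them satisfy
Murre's conjecture (D) in codimension `i` if and only if either `2 i ≤ dim X` and homologically
trivial cycles of codimension `i` are rationally trivial, or `dim X < 2 i` and all phantom
projectors act as zero on `CH^i(X)`. -/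
theorem algebraicOffMiddle (X : SmProjVar k) (h : C.AlgebraicOffMiddle X) :
    (∃ π, C.IsCK X π) ∧ ∀ i, (∀ π, C.IsCK X π → C.MurreD X π i) ↔
      (2 * i ≤ X.dim → ∀ a ∈ CHi X i, C.ops.cl X a = 0 → a = 0) ∧
      (X.dim < 2 * i → ∀ φ, C.IsPhantom X φ → ∀ a ∈ CHi X i, C.act φ a = 0) := by
  choose E h1 h2 h3 h4 using exists_family h
  have hE : IsAlgFamily C X E := ⟨h1, h2, h3, h4⟩
  refine ⟨⟨_, hE.isCK h⟩, fun i => ?_⟩
  rw [ChowTheory.phantom_criterion' X _ (hE.isCK h) i X.dim hE.nilOutside, hE.murreD_iff' h]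
  exact Iff.rfl

end Pool.Agent.Helper47.Chow
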