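import Mathlib
import Pool.Agent.Helper47.Chow.Alg

/-!
# The action of correspondences on cohomology
-/

universe u v w

open CategoryTheory AlgebraicGeometry Limits

namespace Pool.Agent.Helper47.Chow

open Pool.Agent.Helper10 Pool.Agent.Helper10.SmProjVar

attribute [local simp] SmProjVar.lift_fst_assoc SmProjVar.lift_snd_assoc

variable {k : Type u} [Field k] {K : Type v} [Field K] [CharZero K]

section Push

variable (W : WeilCohomology.{u, v, w} k K)

/-- The map `x ↦ (y ↦ ∫ x ∪ y)`. -/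
def toDualH (X : SmProjVar k) : W.H X →ₗ[K] Module.Dual K (W.H X) :=
  (LinearMap.mul K (W.H X)).compr₂ (trL W X)

lemma toDualH_apply (X : SmProjVar k) (x y : W.H X) : toDualH W X x y = W.tr X (x * y) := rfl

lemma toDualH_injective (X : SmProjVar k) : Function.Injective (toDualH W X) := by
  rw [injective_iff_map_eq_zero]
  intro x hx
  apply (W.trace X).nondegenerate
  intro y
  have := LinearMap.congr_fun hx y
  exact this

/-- Poincaré duality as a linear equivalence. -/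
noncomputable def dualEquivH (X : SmProjVar k) : W.H X ≃ₗ[K] Module.Dual K (W.H X) :=
  haveI : Module.Finite K (W.H X) := (W.graded X).finite
  LinearEquiv.ofInjectiveOfFinrankEq (toDualH W X) (toDualH_injective W X)
    (Subspace.dual_finrank_eq).symm

lemma dualEquivH_apply (X : SmProjVar k) (x : W.H X) : dualEquivH W X x = toDualH W X x := rfl

/-- The push-forward on cohomology. -/
noncomputable def pushH {X Y : SmProjVar k} (f : X.toOver ⟶ Y.toOver) : W.H X →ₗ[K] W.H Y :=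
  (dualEquivH W Y).symm.toLinearMap ∘ₗ (pullL W f).dualMap ∘ₗ toDualH W X

lemma tr_pushH {X Y : SmProjVar k} (f : X.toOver ⟶ Y.toOver) (x : W.H X) (y : W.H Y) :
    W.tr Y (pushH W f x * y) = W.tr X (x * W.pull f y) := by
  rw [← toDualH_apply, ← dualEquivH_apply]
  unfold pushH
  simp only [LinearMap.comp_apply, LinearEquiv.coe_coe, LinearEquiv.apply_symm_apply]
  rfl

lemma eq_of_tr {X : SmProjVar k} {x x' : W.H X} (h : ∀ y, W.tr X (x * y) = W.tr X (x' * y)) :
    x = x' :=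
  toDualH_injective W X (LinearMap.ext fun y => h y)

lemma tr_eq_zero_of_homog {X : SmProjVar k} (x : W.H X)
    (h : ∀ n, ∀ y ∈ W.gr X n, W.tr X (x * y) = 0) : x = 0 := by
  apply (W.trace X).nondegenerate
  intro y
  have hy : y ∈ ⨆ l, W.gr X l := by rw [(W.graded X).iSup_eq_top]; trivial
  change trL W X (x * y) = 0
  refine Submodule.iSup_induction (W.gr X) (motive := fun y => trL W X (x * y) = 0) hy ?_ ?_ ?_
  · intro n y hy; exact h n y hy
  · rw [mul_zero, map_zero]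
  · intro y y' h h'
    rw [mul_add, map_add, h, h', add_zero]

/-- A class which pairs non-trivially only with classes of degree `2 dim X - l` has degree `l`. -/
lemma mem_gr_of_tr {X : SmProjVar k} (x : W.H X) (l : ℕ)
    (h : ∀ n, l + n ≠ 2 * X.dim → ∀ y ∈ W.gr X n, W.tr X (x * y) = 0) : x ∈ W.gr X l := by
  classical
  have hx : x ∈ ⨆ l, W.gr X l := by rw [(W.graded X).iSup_eq_top]; trivial
  obtain ⟨f, hf, hfx⟩ := (Submodule.mem_iSup_iff_exists_finsupp (W.gr X) x).1 hx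
  have hsum : ∀ y, W.tr X (x * y) = ∑ m ∈ f.support, W.tr X (f m * y) := by
    intro y
    rw [← hfx, Finsupp.sum, Finset.sum_mul]
    exact map_sum (trL W X) _ _
  have h0 : ∀ m, m ≠ l → f m = 0 := by
    intro m hm
    apply tr_eq_zero_of_homog W
    intro n y hy
    by_cases hn : m + n = 2 * X.dim
    · have h1 := h n (by omega) y hy
      rw [hsum] at h1
      by_cases hms : m ∈ f.support
      · rw [Finset.sum_eq_single m] at h1
        · exact h1
        · intro m' _ hm'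
          exact (W.trace X).eq_zero (m' + n) _ (by omega)
            ((W.graded X).mul_mem _ _ _ _ (hf m') hy)
        · intro hh; exact absurd hms hh
      · rw [Finsupp.notMem_support_iff.1 hms, zero_mul, ChowTheory.tr_zero]
    · exact (W.trace X).eq_zero (m + n) _ hn ((W.graded X).mul_mem _ _ _ _ (hf m) hy)
  rw [← hfx, Finsupp.sum]
  refine Submodule.sum_mem _ fun m _ => ?_
  by_cases hm : m = l
  · rw [← hm]; exact hf m
  · rw [h0 m hm]; exact Submodule.zero_mem _

/-- Pushing forward from `X × Y × Z` to `Y × Z`. -/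
lemma tr_triple {X Y Z : SmProjVar k} (t : W.H (X.prod Y)) (c : W.H (Y.prod Z)) :
    W.tr _ (W.pull (p12 X Y Z) t * W.pull (p23 X Y Z) c) =
      W.tr _ (W.pull (fst Y Z) (pushH W (snd X Y) t) * c) := by
  have ht : t ∈ Submodule.span K
      {z : W.H (X.prod Y) | ∃ x y, z = W.pull (fst X Y) x * W.pull (snd X Y) y} := by
    rw [span_kunneth]; trivial
  change trL W _ (pullL W (p12 X Y Z) t * W.pull (p23 X Y Z) c) =
    trL W _ (pullL W (fst Y Z) (pushH W (snd X Y) t) * c)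
  refine Submodule.span_induction (p := fun t _ =>
    trL W _ (pullL W (p12 X Y Z) t * W.pull (p23 X Y Z) c) =
    trL W _ (pullL W (fst Y Z) (pushH W (snd X Y) t) * c)) ?_ ?_ ?_ ?_ ht
  · rintro _ ⟨x, y, rfl⟩
    have h1 : pushH W (snd X Y) (W.pull (fst X Y) x * W.pull (snd X Y) y) = W.tr X x • y := by
      apply eq_of_tr
      intro y'
      rw [tr_pushH, mul_assoc, ← (W.pull_hom (snd X Y)).map_mul, W.tr_prod, smul_mul_assoc,
        (W.trace Y).map_smul]
    have h2 : pullL W (p12 X Y Z) (W.pull (fst X Y) x * W.pull (snd X Y) y) =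
        W.pull (fst X (Y.prod Z)) x * W.pull (p23 X Y Z) (W.pull (fst Y Z) y) := by
      change W.pull (p12 X Y Z) _ = _
      have e1 : p12 X Y Z ≫ fst X Y = fst X (Y.prod Z) := by simp [p12]
      have e2 : p12 X Y Z ≫ snd X Y = p23 X Y Z ≫ fst Y Z := by simp [p12]
      rw [(W.pull_hom (p12 X Y Z)).map_mul, ← W.pull_comp, ← W.pull_comp, e1, e2, W.pull_comp]
    rw [h1, h2, mul_assoc, ← (W.pull_hom (p23 X Y Z)).map_mul]
    change W.tr _ _ = _
    rw [W.tr_prod, map_smul, smul_mul_assoc, map_smul, smul_eq_mul]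
    rfl
  · rw [map_zero, map_zero, map_zero, zero_mul, zero_mul, map_zero, map_zero]
  · intro a b _ _ ha hb
    rw [map_add, map_add, map_add, add_mul, add_mul, map_add, map_add, ha, hb]
  · intro r a _ ha
    rw [map_smul, map_smul, map_smul, smul_mul_assoc, smul_mul_assoc, map_smul, map_smul, ha]

end Push

variable {W : WeilCohomology.{u, v, w} k K} (C : ChowTheory W)

/-- The action of a correspondence on cohomology. -/
noncomputable def hAct {X Y : SmProjVar k} (γ : CH (X.prod Y)) (x : W.H X) : W.H Y :=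
  pushH W (snd X Y) (W.pull (fst X Y) x * C.cl _ γ)

lemma tr_hAct {X Y : SmProjVar k} (γ : CH (X.prod Y)) (x : W.H X) (y : W.H Y) :
    W.tr Y (hAct C γ x * y) = pairH C x y γ := by
  rw [hAct, tr_pushH, pairH_apply]

section

variable {X Y Z : SmProjVar k}

lemma hAct_zero (γ : CH (X.prod Y)) : hAct C γ 0 = 0 := by
  rw [hAct, ChowTheory.pull_zero, zero_mul, map_zero]

lemma hAct_add (γ : CH (X.prod Y)) (x x' : W.H X) :
    hAct C γ (x + x') = hAct C γ x + hAct C γ x' := by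
  rw [hAct, (W.pull_hom _).map_add, add_mul, map_add]; rfl

lemma hAct_zero_left (x : W.H X) : hAct C (0 : CH (X.prod Y)) x = 0 := by
  rw [hAct, map_zero, mul_zero, map_zero]

lemma hAct_add_left (γ γ' : CH (X.prod Y)) (x : W.H X) :
    hAct C (γ + γ') x = hAct C γ x + hAct C γ' x := by
  rw [hAct, map_add, mul_add, map_add]; rfl

lemma hAct_sub_left (γ γ' : CH (X.prod Y)) (x : W.H X) :
    hAct C (γ - γ') x = hAct C γ x - hAct C γ' x := by
  rw [hAct, map_sub, mul_sub, map_sub]; rfl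

lemma hAct_sum_left {ι : Type*} (s : Finset ι) (γ : ι → CH (X.prod Y)) (x : W.H X) :
    hAct C (∑ i ∈ s, γ i) x = ∑ i ∈ s, hAct C (γ i) x :=
  map_sum (⟨⟨fun γ => hAct C γ x, hAct_zero_left C x⟩, fun γ γ' => hAct_add_left C γ γ' x⟩ :
    CH (X.prod Y) →+ W.H Y) γ s

lemma hAct_Δ (x : W.H X) : hAct C (C.Δ X) x = x := by
  apply eq_of_tr
  intro y
  rw [tr_hAct, pairH_Δ]

lemma comp_mem' {m n l : ℕ} (β : CH (X.prod Y)) (γ : CH (Y.prod Z))
    (hβ : β ∈ CHi (X.prod Y) m) (hγ : γ ∈ CHi (Y.prod Z) n) (h : m + n = l + Y.dim) :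
    C.comp β γ ∈ CHi (X.prod Z) l := by
  refine C.push_mem _ (m + n) l ?_ _
    (C.mul_mem _ _ _ _ _ (C.pull_mem _ _ _ hβ) (C.pull_mem _ _ _ hγ))
  change m + n + (Z.dim + X.dim) = l + (Z.dim + Y.dim + X.dim)
  omega

lemma act_mem' {m i l : ℕ} (γ : CH (X.prod Y)) (hγ : γ ∈ CHi (X.prod Y) m) (a : CH X)
    (ha : a ∈ CHi X i) (h : i + m = l + X.dim) : C.act γ a ∈ CHi Y l := by
  refine C.push_mem _ (i + m) l ?_ _
    (C.mul_mem _ _ _ _ _ (C.pull_mem _ _ _ ha) hγ)
  change i + m + Y.dim = l + (Y.dim + X.dim)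
  omega

/-- The action is compatible with composition. -/
lemma hAct_comp {m n l : ℕ} (β : CH (X.prod Y)) (γ : CH (Y.prod Z)) (hβ : β ∈ CHi (X.prod Y) m)
    (hγ : γ ∈ CHi (Y.prod Z) n) (h : m + n = l + Y.dim) (x : W.H X) :
    hAct C (C.comp β γ) x = hAct C γ (hAct C β x) := by
  apply eq_of_tr
  intro z
  rw [tr_hAct, tr_hAct, pairH_apply, pairH_apply,
    ← even_comm W _ l _ _ (C.cl_mem _ _ _ (comp_mem' C β γ hβ hγ h)), C.comp_apply,
    mul_assoc, C.cl_push, C.cl_mul, C.cl_pull, C.cl_pull, (W.pull_hom (p13 X Y Z)).map_mul,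
    ← W.pull_comp, ← W.pull_comp]
  have e1 : p13 X Y Z ≫ fst X Z = p12 X Y Z ≫ fst X Y := by simp [p13, p12]
  have e2 : p13 X Y Z ≫ snd X Z = p23 X Y Z ≫ snd Y Z := by simp [p13]
  rw [e1, e2, W.pull_comp, W.pull_comp (p23 X Y Z)]
  have hβ' := C.cl_mem _ _ _ (C.pull_mem (p12 X Y Z) _ _ hβ)
  have hγ' := C.cl_mem _ _ _ (C.pull_mem (p23 X Y Z) _ _ hγ)
  rw [C.cl_pull] at hβ' hγ'
  have h1 : W.pull (p12 X Y Z) (C.cl _ β) * W.pull (p23 X Y Z) (C.cl _ γ) *
      (W.pull (p12 X Y Z) (W.pull (fst X Y) x) * W.pull (p23 X Y Z) (W.pull (snd Y Z) z)) =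
      W.pull (p12 X Y Z) (W.pull (fst X Y) x * C.cl _ β) *
        W.pull (p23 X Y Z) (C.cl _ γ * W.pull (snd Y Z) z) := by
    rw [(W.pull_hom _).map_mul, (W.pull_hom _).map_mul]
    calc _ = W.pull (p12 X Y Z) (C.cl _ β) * (W.pull (p23 X Y Z) (C.cl _ γ) *
          W.pull (p12 X Y Z) (W.pull (fst X Y) x)) *
            W.pull (p23 X Y Z) (W.pull (snd Y Z) z) := by simp only [mul_assoc]
      _ = (W.pull (p12 X Y Z) (C.cl _ β) * W.pull (p12 X Y Z) (W.pull (fst X Y) x)) *
          W.pull (p23 X Y Z) (C.cl _ γ) * W.pull (p23 X Y Z) (W.pull (snd Y Z) z) := by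
        rw [even_comm W _ _ _ _ hγ']; simp only [mul_assoc]
      _ = _ := by rw [even_comm W _ _ _ _ hβ']; simp only [mul_assoc]
  rw [h1, tr_triple, hAct, mul_assoc]

/-- The action on the degrees. -/
lemma hAct_mem {m l l' : ℕ} (γ : CH (X.prod Y)) (hγ : γ ∈ CHi (X.prod Y) m) (x : W.H X)
    (hx : x ∈ W.gr X l) (h : l + 2 * m = l' + 2 * X.dim) : hAct C γ x ∈ W.gr Y l' := by
  apply mem_gr_of_tr
  intro n hn y hy
  rw [tr_hAct, pairH_apply]
  refine (W.trace _).eq_zero (l + 2 * m + n) _ ?_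
    ((W.graded _).mul_mem _ _ _ _ ((W.graded _).mul_mem _ _ _ _
      ((W.pull_hom _).map_mem _ _ hx) (C.cl_mem _ _ _ hγ)) ((W.pull_hom _).map_mem _ _ hy))
  change l + 2 * m + n ≠ 2 * (Y.dim + X.dim)
  omega

lemma cl_eq_zero_of_hAct (γ : CH (X.prod Y)) (hγ : γ ∈ CHi (X.prod Y) X.dim)
    (h : ∀ l, ∀ x ∈ W.gr X l, hAct C γ x = 0) : C.cl _ γ = 0 := by
  refine eq_zero_of_kunneth W X Y X.dim _ (C.cl_mem _ _ _ hγ) fun l x hx y => ?_
  have := tr_hAct C γ x y
  rw [h l x hx, zero_mul, ChowTheory.tr_zero, pairH_apply] at this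
  exact this.symm

lemma hAct_of_cl_eq_zero (γ : CH (X.prod Y)) (h : C.cl _ γ = 0) (x : W.H X) :
    hAct C γ x = 0 := by
  rw [hAct, h, mul_zero, map_zero]

end

variable {C}
variable {X : SmProjVar k} {π : ℕ → CH (X.prod X)}

lemma IsCK.hAct_same (h : C.IsCK X π) (i : ℕ) (x : W.H X) (hx : x ∈ W.gr X i) :
    hAct C (π i) x = x := by
  apply eq_of_tr
  intro y
  rw [tr_hAct, pairH_apply]
  exact h.act_same i x hx y

lemma IsCK.hAct_other (h : C.IsCK X π) (i j : ℕ) (hij : i ≠ j) (x : W.H X)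
    (hx : x ∈ W.gr X j) : hAct C (π i) x = 0 := by
  apply eq_of_tr
  intro y
  rw [tr_hAct, pairH_apply, zero_mul, ChowTheory.tr_zero]
  exact h.act_other i j hij x hx y

end Pool.Agent.Helper47.Chow
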