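import Mathlib
import Pool.Agent.Helper47.Chow.RingPart

/-!
# Splitting off a part with nil radical from a decomposition
-/

namespace Helper47.Chow

open Finset

section

variable {R : Type*} [Ring R]

/-- Inverses in corner rings. -/
lemma corner_inv (I : Ideal R) [I.IsTwoSided] (ε c : R) (hε : ε * ε = ε)
    (hc : ε - ε * c * ε ∈ I) (nil : ∀ x ∈ I, IsNilpotent (ε * x * ε)) :
    ∃ v : R, ε * v = v ∧ v * ε = v ∧ ε * c * ε * v = ε ∧ v * (ε * c * ε) = ε ∧ v - ε ∈ I := by
  set y : R := ε - ε * c * ε with hy
  have hey : ε * y = y := by rw [hy, mul_sub, hε, ← mul_assoc, ← mul_assoc, hε]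
  have hye : y * ε = y := by rw [hy, sub_mul, hε, mul_assoc (ε * c), hε]
  have hnil : IsNilpotent y := by
    have := nil y hc
    rwa [hey, hye] at this
  obtain ⟨w, hw1, hw2, hcomm, hwI⟩ := exists_inv_of_nilpotent I hnil hc hey hye
  have hec : ε * c * ε = ε * (1 - y) := by
    rw [mul_sub, mul_one, hey, hy]; abel
  have hec' : ε * c * ε = (1 - y) * ε := by
    rw [sub_mul, one_mul, hye, hy]; abel
  refine ⟨ε * w, ?_, ?_, ?_, ?_, ?_⟩
  · rw [← mul_assoc, hε]
  · rw [mul_assoc, ← hcomm, ← mul_assoc, hε]
  · calc ε * c * ε * (ε * w) = (1 - y) * (ε * ε) * w := by rw [hec']; simp only [mul_assoc]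
      _ = (1 - y) * (w * ε) := by rw [hε, mul_assoc, hcomm]
      _ = ε := by rw [← mul_assoc, hw1, one_mul]
  · calc ε * w * (ε * c * ε) = w * (ε * ε) * (1 - y) := by
          rw [hcomm, hec]; simp only [mul_assoc]
      _ = ε * (w * (1 - y)) := by rw [hε, ← hcomm, mul_assoc]
      _ = ε := by rw [hw2, mul_one]
  · have : ε * w - ε = ε * (w - 1) := by rw [mul_sub, mul_one]
    rw [this]
    exact Ideal.mul_mem_left _ _ hwI

variable {V : Type*} [AddCommGroup V] [Module R V]

/-- Let `π` be a decomposition of `1` and `ν` a decomposition of an idempotent `e` such that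
`e I e` is nil and `π j * ν j ≡ ν j ≡ ν j * π j` modulo `I`.  Then `1 - e` has a decomposition
`ξ` congruent to `(1 - e) π (1 - e)`, and `π` is controlled by `ξ` and `ν`. -/
theorem exists_split (I : Ideal R) [I.IsTwoSided] {N : ℕ} {π ν : ℕ → R} (h : IsDecomp N π)
    (νidem : ∀ i, ν i * ν i = ν i) (νorth : ∀ i j, i ≠ j → ν i * ν j = 0)
    (νzero : ∀ i, N < i → ν i = 0) (e : R) (he : e = ∑ i ∈ range (N + 1), ν i)
    (nil : ∀ x ∈ I, IsNilpotent (e * x * e))
    (hπν : ∀ j, π j * ν j - ν j ∈ I) (hνπ : ∀ j, ν j * π j - ν j ∈ I) (T : Submodule R V) :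
    ∃ ξ : ℕ → R, (∀ i, ξ i * ξ i = ξ i) ∧ (∀ i j, i ≠ j → ξ i * ξ j = 0) ∧
      (∑ i ∈ range (N + 1), ξ i = 1 - e) ∧ (∀ i, N < i → ξ i = 0) ∧
      (∀ i, (1 - e) * ξ i = ξ i) ∧ (∀ i, ξ i * (1 - e) = ξ i) ∧
      (∀ i, ξ i - (1 - e) * π i * (1 - e) ∈ I) ∧
      (∀ m, (∀ j, m ≤ j → ∀ v ∈ T, ν j • v = 0) → (∀ j, m ≤ j → ∀ v ∈ T, ξ j • v = 0) →
        ∀ j, m ≤ j → ∀ v ∈ T, π j • v = 0) := by
  have heν : ∀ j, e * ν j = ν j := by
    intro j
    rw [he, sum_mul]
    by_cases hj : j ≤ N
    · rw [sum_eq_single j, νidem]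
      · intro l _ hl; exact νorth l j hl
      · intro hh; exact absurd (mem_range.2 (by omega)) hh
    · rw [νzero j (by omega)]; simp
  have hνe : ∀ j, ν j * e = ν j := by
    intro j
    rw [he, mul_sum]
    by_cases hj : j ≤ N
    · rw [sum_eq_single j, νidem]
      · intro l _ hl; exact νorth j l hl.symm
      · intro hh; exact absurd (mem_range.2 (by omega)) hh
    · rw [νzero j (by omega)]; simp
  have hee : e * e = e := by
    conv_lhs => rw [he, sum_mul]
    rw [he]
    refine sum_congr rfl fun j _ => ?_
    rw [← he, hνe]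
  -- inverses `v j` of `ν j * π j * ν j`
  have hv : ∀ j, ∃ v : R, ν j * v = v ∧ v * ν j = v ∧ ν j * π j * ν j * v = ν j ∧
      v * (ν j * π j * ν j) = ν j ∧ v - ν j ∈ I := by
    intro j
    refine corner_inv I (ν j) (π j) (νidem j) ?_ ?_
    · have : ν j - ν j * π j * ν j = -((ν j * π j - ν j) * ν j) := by
        rw [sub_mul, νidem]; abel
      rw [this]
      exact neg_mem (Ideal.mul_mem_right _ _ (hνπ j))
    · intro x hx
      have h1 := nil (ν j * x * ν j) (Ideal.mul_mem_right _ _ (Ideal.mul_mem_left _ _ hx))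
      have h2 : e * (ν j * x * ν j) * e = ν j * x * ν j := by
        calc e * (ν j * x * ν j) * e = (e * ν j) * x * (ν j * e) := by simp only [mul_assoc]
          _ = _ := by rw [heν, hνe]
      rwa [h2] at h1
  choose v hv1 hv2 hv3 hv4 hv5 using hv
  have hvv : ∀ j, v j * π j * v j = v j := by
    intro j
    calc v j * π j * v j = (v j * ν j) * π j * (ν j * v j) := by rw [hv1, hv2]
      _ = (v j * (ν j * π j * ν j)) * v j := by simp only [mul_assoc]
      _ = v j := by rw [hv4, hv1]
  have hev : ∀ j, e * v j = v j := fun j => by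
    calc e * v j = e * (ν j * v j) := by rw [hv1]
      _ = v j := by rw [← mul_assoc, heν, hv1]
  have hve : ∀ j, v j * e = v j := fun j => by
    calc v j * e = v j * ν j * e := by rw [hv2]
      _ = v j := by rw [mul_assoc, hνe, hv2]
  have hv0 : ∀ j, N < j → v j = 0 := fun j hj => by rw [← hv1, νzero j hj, zero_mul]
  set F : ℕ → R := fun j => π j * v j * π j with hF
  have hFF : ∀ j, F j * F j = F j := by
    intro j
    calc F j * F j = π j * v j * (π j * π j) * v j * π j := by simp only [hF, mul_assoc]
      _ = π j * (v j * π j * v j) * π j := by rw [h.idem]; simp only [mul_assoc]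
      _ = F j := by rw [hvv]
  have hπF : ∀ j, π j * F j = F j := fun j => by
    simp only [hF]; rw [← mul_assoc, ← mul_assoc, h.idem]
  have hFπ : ∀ j, F j * π j = F j := fun j => by
    simp only [hF]; rw [mul_assoc, h.idem]
  have hπF0 : ∀ i j, i ≠ j → π i * F j = 0 := fun i j hij => by
    simp only [hF]; rw [← mul_assoc, ← mul_assoc, h.orth i j hij, zero_mul, zero_mul]
  have hFπ0 : ∀ i j, i ≠ j → F i * π j = 0 := fun i j hij => by
    simp only [hF]; rw [mul_assoc, h.orth i j hij, mul_zero]
  have hFF0 : ∀ i j, i ≠ j → F i * F j = 0 := fun i j hij => by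
    rw [← hFπ i, mul_assoc, hπF0 i j hij, mul_zero]
  have hF0 : ∀ j, N < j → F j = 0 := fun j hj => by simp only [hF]; rw [h.zero j hj]; simp
  set f : R := ∑ j ∈ range (N + 1), F j with hf
  have hfF : ∀ j, f * F j = F j := by
    intro j
    rw [hf, sum_mul]
    by_cases hj : j ≤ N
    · rw [sum_eq_single j, hFF]
      · intro l _ hl; exact hFF0 l j hl
      · intro hh; exact absurd (mem_range.2 (by omega)) hh
    · rw [hF0 j (by omega)]; simp
  have hfπ : ∀ j, f * π j = F j := by
    intro j
    rw [hf, sum_mul]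
    by_cases hj : j ≤ N
    · rw [sum_eq_single j, hFπ]
      · intro l _ hl; exact hFπ0 l j hl
      · intro hh; exact absurd (mem_range.2 (by omega)) hh
    · rw [h.zero j (by omega), hF0 j (by omega)]; simp
  have hff : f * f = f := by
    conv_lhs => rw [hf, mul_sum]
    exact sum_congr rfl fun j _ => hfF j
  have hFν : ∀ j, F j - ν j ∈ I := by
    intro j
    have h1 : F j - ν j = π j * (v j - ν j) * π j + (π j * ν j - ν j) * π j +
        (ν j * π j - ν j) := by simp only [hF]; noncomm_ring
    rw [h1]
    exact add_mem (add_mem (Ideal.mul_mem_right _ _ (Ideal.mul_mem_left _ _ (hv5 j)))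
      (Ideal.mul_mem_right _ _ (hπν j))) (hνπ j)
  have hfe : f - e ∈ I := by
    rw [hf, he, ← sum_sub_distrib]
    exact sum_mem fun j _ => hFν j
  obtain ⟨z, hz1, hz2, hz3, hz4, hz5⟩ := corner_inv I e f hee (by
    have : e - e * f * e = -(e * (f - e) * e) := by
      rw [mul_sub, sub_mul, hee, hee]; abel
    rw [this]
    exact neg_mem (Ideal.mul_mem_right _ _ (Ideal.mul_mem_left _ _ hfe))) nil
  set g : R := 1 - e with hg
  have hge : g * e = 0 := by rw [hg, sub_mul, one_mul, hee, sub_self]
  have heg : e * g = 0 := by rw [hg, mul_sub, mul_one, hee, sub_self]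
  set u : R := z * f with hu
  have hue : u * e = e := by
    calc u * e = (z * e) * f * e := by rw [hz2]
      _ = z * (e * f * e) := by simp only [mul_assoc]
      _ = e := hz4
  have heu : e * u = u := by rw [hu, ← mul_assoc, hz1]
  have hgu : g * u = 0 := by rw [← heu, ← mul_assoc, hge, zero_mul]
  have huf : u * f = u := by rw [hu, mul_assoc, hff]
  have hzfz : z * f * z = z := by
    calc z * f * z = (z * e) * f * (e * z) := by rw [hz1, hz2]
      _ = z * (e * f * e) * z := by simp only [mul_assoc]
      _ = z := by rw [hz4, hz1]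
  -- `f * z * f = f`
  have hfzf : f * z * f = f := by
    set x0 : R := f - f * z * f with hx0
    have hzI : f * z * f - f ∈ I := by
      have h1 : f * z * f - f = f * (z - e) * f + f * (e - f) * f := by
        have : f * f * f = f := by rw [hff, hff]
        calc f * z * f - f = f * z * f - f * f * f := by rw [this]
          _ = _ := by noncomm_ring
      rw [h1]
      refine add_mem (Ideal.mul_mem_right _ _ (Ideal.mul_mem_left _ _ hz5))
        (Ideal.mul_mem_right _ _ (Ideal.mul_mem_left _ _ ?_))
      rw [← neg_sub]; exact neg_mem hfe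
    have hx0I : x0 ∈ I := by rw [hx0, ← neg_sub]; exact neg_mem hzI
    have hfx : f * x0 = x0 := by rw [hx0, mul_sub, hff, ← mul_assoc, ← mul_assoc, hff]
    have hxf : x0 * f = x0 := by rw [hx0, sub_mul, hff, mul_assoc (f * z), hff]
    have hxx : x0 * x0 = x0 := by
      have h1 : (f * z * f) * (f * z * f) = f * z * f := by
        calc (f * z * f) * (f * z * f) = f * (z * (f * f) * z) * f := by
              simp only [mul_assoc]
          _ = f * z * f := by rw [hff, hzfz]
      have h2 : x0 * (f * z * f) = 0 := by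
        rw [hx0, sub_mul, h1, ← mul_assoc, ← mul_assoc, hff, sub_self]
      calc x0 * x0 = x0 * f - x0 * (f * z * f) := by
            conv_lhs => rw [hx0]
            rw [← hx0, ← mul_sub, hx0]
        _ = x0 := by rw [hxf, h2, sub_zero]
    set P : R := ∑ j ∈ range (N + 1), π j * v j with hP
    set Q : R := ∑ j ∈ range (N + 1), ν j * π j with hQ
    have hPQ : P * Q = f := by
      rw [hP, hQ, hf, sum_mul]
      refine sum_congr rfl fun j hj => ?_
      rw [mul_sum, sum_eq_single j]
      · calc π j * v j * (ν j * π j) = π j * (v j * ν j) * π j := by simp only [mul_assoc]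
          _ = F j := by rw [hv2]
      · intro l _ hl
        calc π j * v j * (ν l * π l) = π j * ((v j * ν j) * ν l) * π l := by
              rw [hv2]; simp only [mul_assoc]
          _ = 0 := by rw [mul_assoc (v j), νorth j l hl.symm, mul_zero, mul_zero, zero_mul]
      · intro hh; exact absurd hj hh
    have heQ : e * Q = Q := by
      rw [hQ, mul_sum]
      exact sum_congr rfl fun j _ => by rw [← mul_assoc, heν]
    have hPe : P * e = P := by
      rw [hP, sum_mul]
      exact sum_congr rfl fun j _ => by rw [mul_assoc, hve]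
    set y : R := Q * x0 * P with hy
    have hyn : IsNilpotent y := by
      have := nil y (Ideal.mul_mem_right _ _ (Ideal.mul_mem_left _ _ hx0I))
      have h2 : e * y * e = y := by
        calc e * y * e = (e * Q) * x0 * (P * e) := by rw [hy]; simp only [mul_assoc]
          _ = y := by rw [heQ, hPe]
      rwa [h2] at this
    have hyy : y * y = y := by
      calc y * y = Q * (x0 * (P * Q) * x0) * P := by rw [hy]; simp only [mul_assoc]
        _ = y := by rw [hPQ, hxf, hxx]
    have hy0 : y = 0 := by
      obtain ⟨n, hn⟩ := hyn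
      have : ∀ m, y ^ (m + 1) = y := by
        intro m
        induction m with
        | zero => rw [zero_add, pow_one]
        | succ m ih => rw [pow_succ, ih, hyy]
      rw [← this n, pow_succ, hn, zero_mul]
    have h0 : x0 = 0 := by
      calc x0 = f * x0 * f := by rw [hfx, hxf]
        _ = P * y * Q := by rw [← hPQ, hy]; simp only [mul_assoc]
        _ = 0 := by rw [hy0, mul_zero, zero_mul]
    rw [hx0, sub_eq_zero] at h0
    exact h0.symm
  set q : R := 1 - u with hq
  have hgq : g * q = g := by rw [hq, mul_sub, hgu, mul_one, sub_zero]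
  have hqe : q * e = 0 := by rw [hq, sub_mul, one_mul, hue, sub_self]
  have hqg : q * g = q := by
    conv_lhs => rw [hg, mul_sub, mul_one, hqe, sub_zero]
  have hq1f : q * (1 - f) = 1 - f := by
    have : u * (1 - f) = 0 := by rw [mul_sub, mul_one, huf, sub_self]
    conv_lhs => rw [hq, sub_mul, one_mul, this, sub_zero]
  have hfq : f * q = 0 := by
    have : f * u = f := by rw [hu, ← mul_assoc, hfzf]
    rw [hq, mul_sub, mul_one, this, sub_self]
  set τ : ℕ → R := fun j => π j - F j with hτ
  have hfτ : ∀ j, (1 - f) * τ j = τ j := by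
    intro j
    have : f * τ j = 0 := by simp only [hτ]; rw [mul_sub, hfπ, hfF, sub_self]
    rw [sub_mul, one_mul, this, sub_zero]
  have hqτ : ∀ j, q * τ j = τ j := fun j => by
    rw [← hfτ j, ← mul_assoc, hq1f]
  have hττ : ∀ j, τ j * τ j = τ j := by
    intro j
    simp only [hτ]
    rw [sub_mul, mul_sub, mul_sub, h.idem, hπF, hFπ, hFF, sub_self, sub_zero]
  have hττ0 : ∀ i j, i ≠ j → τ i * τ j = 0 := by
    intro i j hij
    simp only [hτ]
    rw [sub_mul, mul_sub, mul_sub, h.orth i j hij, hπF0 i j hij, hFπ0 i j hij, hFF0 i j hij]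
    simp
  have hτsum : ∑ j ∈ range (N + 1), τ j = 1 - f := by
    simp only [hτ]
    rw [sum_sub_distrib, h.sum]
  have huI : u - e ∈ I := by
    have : u - e = (z - e) * f + e * (f - e) := by
      rw [hu]
      calc z * f - e = z * f - e * e := by rw [hee]
        _ = _ := by noncomm_ring
    rw [this]
    exact add_mem (Ideal.mul_mem_right _ _ hz5) (Ideal.mul_mem_left _ _ hfe)
  have hgν : ∀ j, g * ν j = 0 := fun j => by rw [← heν j, ← mul_assoc, hge, zero_mul]
  refine ⟨fun j => g * τ j * q, fun i => ?_, fun i j hij => ?_, ?_, fun i hi => ?_,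
    fun i => ?_, fun i => ?_, fun i => ?_, fun m hν hξ j hj w hw => ?_⟩
  · change g * τ i * q * (g * τ i * q) = g * τ i * q
    calc g * τ i * q * (g * τ i * q) = g * τ i * ((q * g) * τ i) * q := by
          simp only [mul_assoc]
      _ = g * (τ i * τ i) * q := by rw [hqg, hqτ]; simp only [mul_assoc]
      _ = g * τ i * q := by rw [hττ]
  · change g * τ i * q * (g * τ j * q) = 0
    calc g * τ i * q * (g * τ j * q) = g * τ i * ((q * g) * τ j) * q := by
          simp only [mul_assoc]
      _ = g * (τ i * τ j) * q := by rw [hqg, hqτ]; simp only [mul_assoc]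
      _ = 0 := by rw [hττ0 i j hij, mul_zero, zero_mul]
  · change ∑ i ∈ range (N + 1), g * τ i * q = g
    have h1 : (1 - f) * q = q := by rw [sub_mul 1 f q, one_mul, hfq, sub_zero]
    rw [← sum_mul, ← mul_sum, hτsum, mul_assoc g, h1, hgq]
  · change g * τ i * q = 0
    have : τ i = 0 := by simp only [hτ]; rw [h.zero i hi, hF0 i hi, sub_zero]
    rw [this, mul_zero, zero_mul]
  · change g * (g * τ i * q) = g * τ i * q
    have hgg : g * g = g := by conv_lhs => rw [hg, mul_sub, mul_one, hge, sub_zero]
    rw [← mul_assoc, ← mul_assoc, hgg]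
  · change g * τ i * q * g = g * τ i * q
    rw [mul_assoc, hqg]
  · change g * τ i * q - g * π i * g ∈ I
    have h1 : g * τ i * q - g * π i * g = -(g * (F i - ν i) * q) - g * π i * (u - e) := by
      have h2 : g * τ i * q = g * π i * q - g * (F i - ν i) * q - (g * ν i) * q := by
        simp only [hτ]; noncomm_ring
      have h3 : g * π i * q = g * π i * g - g * π i * (u - e) := by
        rw [hq, hg]; noncomm_ring
      rw [h2, h3, hgν]
      noncomm_ring
    rw [h1]
    exact sub_mem (neg_mem (Ideal.mul_mem_right _ _ (Ideal.mul_mem_left _ _ (hFν i))))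
      (Ideal.mul_mem_left _ _ huI)
  · have hF1 : F j • w = 0 := by
      have h1 : F j = π j * v j * ν j * π j := by
        simp only [hF]; rw [mul_assoc (π j) (v j) (ν j), hv2]
      rw [h1, mul_smul, mul_smul, hν j hj _ (T.smul_mem _ hw), smul_zero]
    have hτ1 : τ j • w = 0 := by
      have h1 : (g * τ j * q) • ((1 - f) • w) = 0 := hξ j hj _ (T.smul_mem _ hw)
      have h2 : g * τ j * q * (1 - f) = g * τ j := by
        have h4 : τ j * (1 - f) = τ j := by
          have h5 : π j * f = F j := by
            rw [hf, mul_sum]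
            by_cases hjN : j ≤ N
            · rw [sum_eq_single j, hπF]
              · intro l _ hl; exact hπF0 j l hl.symm
              · intro hh; exact absurd (mem_range.2 (by omega)) hh
            · rw [hF0 j (by omega), sum_eq_zero]
              intro l _
              by_cases hjl : j = l
              · rw [hjl, hπF, ← hjl, hF0 j (by omega)]
              · exact hπF0 j l hjl
          have h6 : F j * f = F j := by
            rw [hf, mul_sum]
            by_cases hjN : j ≤ N
            · rw [sum_eq_single j, hFF]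
              · intro l _ hl; exact hFF0 j l hl.symm
              · intro hh; exact absurd (mem_range.2 (by omega)) hh
            · rw [hF0 j (by omega)]; simp
          simp only [hτ]
          rw [mul_sub, mul_one, sub_mul, h5, h6, sub_self, sub_zero]
        rw [mul_assoc, hq1f, mul_assoc, h4]
      rw [← mul_smul, h2] at h1
      calc τ j • w = (q * (g * τ j)) • w := by rw [← mul_assoc, hqg, hqτ]
        _ = 0 := by rw [mul_smul, h1, smul_zero]
    have h3 : π j = τ j + F j := by simp only [hτ]; abel
    rw [h3, add_smul, hτ1, hF1, add_zero]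

end

end Helper47.Chow
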