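import Mathlib
import Pool.Agent.Helper47.Chow.Phantom

/-!
# Splitting of the motive of a variety into the twisted motive of another one and a nil part
-/

universe u v w

open CategoryTheory AlgebraicGeometry

namespace Pool.Agent.Helper47.Chow

open Pool.Agent.Helper10 Pool.Agent.Helper10.SmProjVar

variable {k : Type u} [Field k] {K : Type v} [Field K] [CharZero K]
  {W : WeilCohomology.{u, v, w} k K}

/-- The correspondences `a` and `b` and the orthogonal idempotents `ν 0, …, ν (2 dim Y)` give a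
decomposition `h(Y) = h(X)(-r) ⊕ N`, `N = N^0 ⊕ … ⊕ N^{2 dim Y}`, where `N^i` has only cohomology
in degree `i`, and homologically trivial endomorphisms of `N` are nilpotent. -/
structure ChowTheory.IsSplitting (C : ChowTheory W) (X Y : SmProjVar k) (r : ℕ)
    (a : CH (X.prod Y)) (b : CH (Y.prod X)) (ν : ℕ → CH (Y.prod Y)) : Prop where
  a_mem : a ∈ CHi (X.prod Y) (X.dim + r)
  b_mem : ∃ m, m + r = Y.dim ∧ b ∈ CHi (Y.prod X) m
  ν_mem : ∀ i, ν i ∈ CHi (Y.prod Y) Y.dim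
  ν_zero : ∀ i, 2 * Y.dim < i → ν i = 0
  retract : C.comp a b = C.Δ X
  idem : ∀ i, C.comp (ν i) (ν i) = ν i
  orth : ∀ i j, i ≠ j → C.comp (ν i) (ν j) = 0
  sum : C.comp b a + ∑ i ∈ Finset.range (2 * Y.dim + 1), ν i = C.Δ Y
  act_other : ∀ i j, i ≠ j → ∀ x ∈ W.gr Y j, ∀ y : W.H Y,
    W.tr (Y.prod Y) (W.pull (fst Y Y) x * C.ops.cl _ (ν i) * W.pull (snd Y Y) y) = 0
  nil : ∀ γ ∈ CHi (Y.prod Y) Y.dim, C.ops.cl _ γ = 0 → ∃ n, C.pow
    (C.comp (C.comp (∑ i ∈ Finset.range (2 * Y.dim + 1), ν i) γ)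
      (∑ i ∈ Finset.range (2 * Y.dim + 1), ν i)) n = 0

end Pool.Agent.Helper47.Chow
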