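import Mathlib
import Pool.Agent.Helper47.Chow.HomAct
import Pool.Agent.Helper47.Chow.SplitDef
import Pool.Agent.Helper47.Chow.RingSplit

/-!
# Murre's conjecture (D) and splittings of motives
-/

universe u v w

open CategoryTheory AlgebraicGeometry Limits

namespace Pool.Agent.Helper47.Chow

open Pool.Agent.Helper10 Pool.Agent.Helper10.SmProjVar

variable {k : Type u} [Field k] {K : Type v} [Field K] [CharZero K]
  {W : WeilCohomology.{u, v, w} k K} {C : ChowTheory W}

section Regroup

variable {R : Type*} [Ring R]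

/-- Regrouping a family of orthogonal idempotents. -/
lemma regroup_isDecomp (N M : ℕ) (η : ℕ → R) (idem : ∀ i, η i * η i = η i)
    (orth : ∀ i j, i ≠ j → η i * η j = 0) (sum : ∑ i ∈ Finset.range (N + 1), η i = 1)
    (c : ℕ → ℕ) (hc : ∀ j, c j ≤ M) :
    Helper47.Chow.IsDecomp M
      (fun l => ∑ j ∈ (Finset.range (N + 1)).filter (fun j => c j = l), η j) := by
  classical
  have key : ∀ s t : Finset ℕ, (∑ i ∈ s, η i) * (∑ j ∈ t, η j) = ∑ i ∈ s ∩ t, η i := by
    intro s t
    rw [Finset.sum_mul]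
    have h1 : ∀ i ∈ s, η i * ∑ j ∈ t, η j = if i ∈ t then η i else 0 := by
      intro i _
      rw [Finset.mul_sum]
      split_ifs with hi
      · rw [Finset.sum_eq_single i, idem]
        · intro j _ hj; exact orth i j hj.symm
        · intro hh; exact absurd hi hh
      · refine Finset.sum_eq_zero fun j hj => orth i j ?_
        rintro rfl; exact hi hj
    rw [Finset.sum_congr rfl h1, Finset.sum_ite_mem]
  refine ⟨fun i => ?_, fun i j hij => ?_, ?_, fun i hi => ?_⟩
  · rw [key, Finset.inter_self]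
  · rw [key, ← Finset.filter_and, Finset.sum_eq_zero]
    intro l hl
    rw [Finset.mem_filter] at hl
    exact absurd (hl.2.1.symm.trans hl.2.2) hij
  · rw [← sum, ← Finset.sum_fiberwise_of_maps_to (s := Finset.range (N + 1))
      (t := Finset.range (M + 1)) (g := c) (fun i _ => Finset.mem_range.2 (by have := hc i; omega))]
  · refine Finset.sum_eq_zero fun j hj => ?_
    rw [Finset.mem_filter] at hj
    have := hc j
    omega

end Regroup

section Lin

variable {X Y Z : SmProjVar k}

lemma comp_sub' (β : CH (X.prod Y)) (γ γ' : CH (Y.prod Z)) :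
    C.comp β (γ - γ') = C.comp β γ - C.comp β γ' := by
  simp only [ChowTheory.comp_apply, map_sub]

lemma sub_comp' (β β' : CH (X.prod Y)) (γ : CH (Y.prod Z)) :
    C.comp (β - β') γ = C.comp β γ - C.comp β' γ := by
  simp only [ChowTheory.comp_apply, map_sub, LinearMap.sub_apply]

lemma comp_sum' {ι : Type*} (s : Finset ι) (β : CH (X.prod Y)) (γ : ι → CH (Y.prod Z)) :
    C.comp β (∑ i ∈ s, γ i) = ∑ i ∈ s, C.comp β (γ i) := by
  simp only [ChowTheory.comp_apply, map_sum]

lemma sum_comp' {ι : Type*} (s : Finset ι) (β : ι → CH (X.prod Y)) (γ : CH (Y.prod Z)) :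
    C.comp (∑ i ∈ s, β i) γ = ∑ i ∈ s, C.comp (β i) γ := by
  simp only [ChowTheory.comp_apply, map_sum, LinearMap.sum_apply]

end Lin

namespace Splitting

variable {X Y : SmProjVar k} {r : ℕ} {a : CH (X.prod Y)} {b : CH (Y.prod X)}
  {ν : ℕ → CH (Y.prod Y)} (hs : C.IsSplitting X Y r a b ν)

/-- `ν j` as an element of the ring. -/
def nu (hs : C.IsSplitting X Y r a b ν) (j : ℕ) : Corr C Y := ⟨ν j, hs.ν_mem j⟩

include hs

lemma nu_val (j : ℕ) : (nu hs j).val = ν j := rfl

lemma ba_mem : C.comp b a ∈ CHi (Y.prod Y) Y.dim := by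
  obtain ⟨m, hm, hb⟩ := hs.b_mem
  exact comp_mem' C b a hb hs.a_mem (by omega)

lemma sum_val : (∑ j ∈ Finset.range (2 * Y.dim + 1), nu hs j).val =
    ∑ j ∈ Finset.range (2 * Y.dim + 1), ν j := by
  rw [Corr.sum_val]; rfl

lemma g_val : (1 - ∑ j ∈ Finset.range (2 * Y.dim + 1), nu hs j : Corr C Y).val = C.comp b a := by
  rw [Corr.sub_val, sum_val, Corr.one_val, ← hs.sum]
  abel

lemma nil' (x : Corr C Y) (hx : x ∈ homIdeal C Y) :
    IsNilpotent ((∑ j ∈ Finset.range (2 * Y.dim + 1), nu hs j) * x *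
      ∑ j ∈ Finset.range (2 * Y.dim + 1), nu hs j) := by
  obtain ⟨n, hn⟩ := hs.nil x.1 x.2 hx
  refine ⟨n, Corr.ext ?_⟩
  rw [ChowTheory.pow_val, Corr.zero_val, ← hn, Corr.mul_val, Corr.mul_val, sum_val, C.comp_assoc]
  rfl

lemma hAct_nu_other (i j : ℕ) (hij : i ≠ j) (x : W.H Y) (hx : x ∈ W.gr Y j) :
    hAct C (ν i) x = 0 := by
  apply eq_of_tr
  intro y
  rw [tr_hAct, pairH_apply, zero_mul, ChowTheory.tr_zero]
  exact hs.act_other i j hij x hx y

lemma hAct_ba (x : W.H Y) : hAct C (C.comp b a) x = hAct C a (hAct C b x) := by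
  obtain ⟨m, hm, hb⟩ := hs.b_mem
  exact hAct_comp C (l := Y.dim) b a hb hs.a_mem (by omega) x

lemma hAct_ab (x : W.H X) : hAct C b (hAct C a x) = x := by
  obtain ⟨m, hm, hb⟩ := hs.b_mem
  rw [← hAct_comp C (l := X.dim) a b hs.a_mem hb (by omega) x, hs.retract, hAct_Δ]

lemma hAct_a_mem (l : ℕ) (x : W.H X) (hx : x ∈ W.gr X l) : hAct C a x ∈ W.gr Y (l + 2 * r) :=
  hAct_mem C a hs.a_mem x hx (by omega)

/-- `N` has no part in common with `h(X)(-r)`. -/
lemma a_nu (j : ℕ) : C.comp a (ν j) = 0 ∧ C.comp (ν j) b = 0 := by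
  have hg : ∀ j, nu hs j * (1 - ∑ j ∈ Finset.range (2 * Y.dim + 1), nu hs j) = 0 ∧
      (1 - ∑ j ∈ Finset.range (2 * Y.dim + 1), nu hs j) * nu hs j = 0 := by
    intro j
    have hid : ∀ i, nu hs i * nu hs i = nu hs i := fun i => Corr.ext (hs.idem i)
    have hor : ∀ i j, i ≠ j → nu hs i * nu hs j = 0 := fun i j hij =>
      Corr.ext (hs.orth j i hij.symm)
    have h0 : ∀ i, 2 * Y.dim < i → nu hs i = 0 := fun i hi => Corr.ext (hs.ν_zero i hi)
    constructor
    · rw [mul_sub, mul_one, Finset.mul_sum]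
      by_cases hj : j ≤ 2 * Y.dim
      · rw [Finset.sum_eq_single j, hid, sub_self]
        · intro l _ hl; exact hor j l hl.symm
        · intro hh; exact absurd (Finset.mem_range.2 (by omega)) hh
      · rw [h0 j (by omega)]; simp
    · rw [sub_mul, one_mul, Finset.sum_mul]
      by_cases hj : j ≤ 2 * Y.dim
      · rw [Finset.sum_eq_single j, hid, sub_self]
        · intro l _ hl; exact hor l j hl
        · intro hh; exact absurd (Finset.mem_range.2 (by omega)) hh
      · rw [h0 j (by omega)]; simp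
  have h1 : C.comp (ν j) (C.comp b a) = 0 := by
    have := congrArg Corr.val (hg j).2
    rwa [Corr.mul_val, g_val] at this
  have h2 : C.comp (C.comp b a) (ν j) = 0 := by
    have := congrArg Corr.val (hg j).1
    rwa [Corr.mul_val, g_val] at this
  constructor
  · calc C.comp a (ν j) = C.comp (C.comp (C.comp a b) a) (ν j) := by rw [hs.retract, C.Δ_comp]
      _ = C.comp a (C.comp (C.comp b a) (ν j)) := by simp only [C.comp_assoc]
      _ = 0 := by rw [h2, C.comp_zero]
  · calc C.comp (ν j) b = C.comp (ν j) (C.comp b (C.comp a b)) := by rw [hs.retract, C.comp_Δ]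
      _ = C.comp (C.comp (ν j) (C.comp b a)) b := by simp only [C.comp_assoc]
      _ = 0 := by rw [h1, C.zero_comp]

/-- `dim X + r ≤ dim Y`, on the level of cohomology. -/
lemma dim_le : X.dim + r ≤ Y.dim := by
  obtain ⟨x, ⟨hx, htr⟩, -⟩ := (W.trace X).bijective 1
  by_contra h
  have h1 := hAct_a_mem hs _ x hx
  rw [(W.graded Y).eq_bot (2 * X.dim + 2 * r) (by omega)] at h1
  have h2 : hAct C a x = 0 := h1
  have h3 := hAct_ab hs x
  rw [h2, hAct_zero] at h3
  rw [← h3, ChowTheory.tr_zero] at htr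
  exact zero_ne_one htr

/-! ### From `Y` to `X` -/

section YtoX

variable {π : ℕ → CH (Y.prod Y)} (hπ : C.IsCK Y π)
include hπ

lemma cong1 (j : ℕ) : IsCK.corr hπ j * nu hs j - nu hs j ∈ homIdeal C Y := by
  change C.cl _ (C.comp (ν j) (π j) - ν j) = 0
  refine cl_eq_zero_of_hAct C _ (Submodule.sub_mem (CHiL _ _)
    (C.comp_mem _ _ (hs.ν_mem j) (hπ.mem j)) (hs.ν_mem j)) fun l x hx => ?_
  rw [hAct_sub_left, hAct_comp C (l := Y.dim) _ _ (hs.ν_mem j) (hπ.mem j) rfl]
  by_cases hl : l = j
  · subst hl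
    rw [IsCK.hAct_same hπ l _ (hAct_mem C _ (hs.ν_mem l) x hx rfl), sub_self]
  · rw [hAct_nu_other hs j l (Ne.symm hl) x hx, hAct_zero, sub_zero]

lemma cong2 (j : ℕ) : nu hs j * IsCK.corr hπ j - nu hs j ∈ homIdeal C Y := by
  change C.cl _ (C.comp (π j) (ν j) - ν j) = 0
  refine cl_eq_zero_of_hAct C _ (Submodule.sub_mem (CHiL _ _)
    (C.comp_mem _ _ (hπ.mem j) (hs.ν_mem j)) (hs.ν_mem j)) fun l x hx => ?_
  rw [hAct_sub_left, hAct_comp C (l := Y.dim) _ _ (hπ.mem j) (hs.ν_mem j) rfl]
  by_cases hl : l = j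
  · subst hl
    rw [IsCK.hAct_same hπ l _ hx, sub_self]
  · rw [IsCK.hAct_other hπ j l (Ne.symm hl) x hx, hAct_zero,
      hAct_nu_other hs j l (Ne.symm hl) x hx, sub_zero]

/-- A Chow-Künneth decomposition of `Y` induces one of `X`, and (D) for the latter implies (D) for
the former. -/
theorem descend (i : ℕ) : ∃ ξ : ℕ → CH (X.prod X), C.IsCK X ξ ∧
    ((∀ j, 2 * (i + r) ≤ j → ∀ c ∈ CHi Y (i + r), C.cl Y c = 0 → C.act (ν j) c = 0) →
      C.MurreD X ξ i → C.MurreD Y π (i + r)) := by
  classical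
  obtain ⟨ξ', h1, h2, h3, h4, h5, h6, h7, h8⟩ :=
    Helper47.Chow.exists_split (homIdeal C Y) (IsCK.isDecomp hπ)
      (ν := nu hs) (fun j => Corr.ext (hs.idem j)) (fun i j hij => Corr.ext (hs.orth j i hij.symm))
      (fun i hi => Corr.ext (hs.ν_zero i hi)) _ rfl (nil' hs) (cong1 hs hπ) (cong2 hs hπ)
      (homTriv C Y (i + r))
  obtain ⟨m, hm, hb⟩ := hs.b_mem
  -- the pieces on `X`
  have hη : ∀ j, C.comp (C.comp a (ξ' j).val) b ∈ CHi (X.prod X) X.dim := fun j =>
    comp_mem' C (m := X.dim + r) _ _ (comp_mem' C _ _ hs.a_mem (ξ' j).2 (by omega)) hb (by omega)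
  set η : ℕ → Corr C X := fun j => ⟨C.comp (C.comp a (ξ' j).val) b, hη j⟩ with hηdef
  have hηval : ∀ j, (η j).val = C.comp (C.comp a (ξ' j).val) b := fun j => rfl
  have hξg : ∀ j, C.comp (ξ' j).val (C.comp b a) = (ξ' j).val := fun j => by
    have := congrArg Corr.val (h5 j)
    rwa [Corr.mul_val, g_val] at this
  have hgξ : ∀ j, C.comp (C.comp b a) (ξ' j).val = (ξ' j).val := fun j => by
    have := congrArg Corr.val (h6 j)
    rwa [Corr.mul_val, g_val] at this
  have hηη : ∀ i j, C.comp (η i).val (η j).val =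
      C.comp (C.comp a (C.comp (ξ' i).val (ξ' j).val)) b := by
    intro i j
    rw [hηval, hηval]
    calc C.comp (C.comp (C.comp a (ξ' i).val) b) (C.comp (C.comp a (ξ' j).val) b) =
        C.comp (C.comp a (C.comp (C.comp (ξ' i).val (C.comp b a)) (ξ' j).val)) b := by
          simp only [C.comp_assoc]
      _ = _ := by rw [hξg]
  have hid : ∀ j, η j * η j = η j := fun j => Corr.ext (by
    rw [Corr.mul_val, hηη]
    have : C.comp (ξ' j).val (ξ' j).val = (ξ' j).val := congrArg Corr.val (h1 j)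
    rw [this]; rfl)
  have hor : ∀ i j, i ≠ j → η i * η j = 0 := fun i j hij => Corr.ext (by
    rw [Corr.mul_val, hηη]
    have : C.comp (ξ' j).val (ξ' i).val = 0 := congrArg Corr.val (h2 i j hij)
    rw [this, C.comp_zero, C.zero_comp]; rfl)
  have hsum : ∑ j ∈ Finset.range (2 * Y.dim + 1), η j = 1 := Corr.ext (by
    rw [Corr.sum_val, Corr.one_val]
    have e1 : ∑ j ∈ Finset.range (2 * Y.dim + 1), (ξ' j).val = C.comp b a := by
      have := congrArg Corr.val h3
      rwa [Corr.sum_val, g_val] at this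
    calc ∑ j ∈ Finset.range (2 * Y.dim + 1), (η j).val
        = C.comp (C.comp a (∑ j ∈ Finset.range (2 * Y.dim + 1), (ξ' j).val)) b := by
          rw [comp_sum', sum_comp']; exact Finset.sum_congr rfl fun j _ => hηval j
      _ = C.comp (C.comp a b) (C.comp a b) := by rw [e1]; simp only [C.comp_assoc]
      _ = C.Δ X := by rw [hs.retract, C.Δ_comp])
  set c : ℕ → ℕ := fun j => min (j - 2 * r) (2 * X.dim) with hc
  have hreg := regroup_isDecomp (2 * Y.dim) (2 * X.dim) η hid hor hsum c
    (fun j => min_le_right _ _)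
  set ξ : ℕ → Corr C X := fun l =>
    ∑ j ∈ (Finset.range (2 * Y.dim + 1)).filter (fun j => c j = l), η j with hξ
  -- cohomological action
  have hact : ∀ j l, ∀ x ∈ W.gr X l, hAct C (η j).val x = if j = l + 2 * r then x else 0 := by
    intro j l x hx
    have hz := hAct_a_mem hs l x hx
    have hgz : hAct C (C.comp b a) (hAct C a x) = hAct C a x := by
      rw [hAct_ba hs, hAct_ab hs]
    have e1 : hAct C (ξ' j).val (hAct C a x) =
        hAct C (C.comp (C.comp (C.comp b a) (π j)) (C.comp b a)) (hAct C a x) := by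
      have h7' : C.cl _ ((ξ' j).val - C.comp (C.comp b a) (C.comp (π j) (C.comp b a))) = 0 := by
        have h := h7 j
        have e : ((1 - ∑ j ∈ Finset.range (2 * Y.dim + 1), nu hs j : Corr C Y) *
            IsCK.corr hπ j * (1 - ∑ j ∈ Finset.range (2 * Y.dim + 1), nu hs j)).val =
            C.comp (C.comp b a) (C.comp (π j) (C.comp b a)) := by
          rw [Corr.mul_val, Corr.mul_val, g_val]; rfl
        rw [← e]
        exact h
      have h8' := hAct_of_cl_eq_zero C _ h7' (hAct C a x)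
      rw [hAct_sub_left, sub_eq_zero] at h8'
      rw [h8', ← C.comp_assoc (C.comp b a)]
    have e2 : hAct C (C.comp (C.comp (C.comp b a) (π j)) (C.comp b a)) (hAct C a x) =
        hAct C (C.comp b a) (hAct C (π j) (hAct C a x)) := by
      rw [hAct_comp C (l := Y.dim) _ _ (C.comp_mem _ _ (ba_mem hs) (hπ.mem j)) (ba_mem hs) rfl,
        hAct_comp C (l := Y.dim) _ _ (ba_mem hs) (hπ.mem j) rfl, hgz]
    have hξm : (ξ' j).val ∈ CHi (Y.prod Y) Y.dim := (ξ' j).2
    have e3 : hAct C (η j).val x = hAct C b (hAct C (ξ' j).val (hAct C a x)) := by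
      rw [hηval, hAct_comp C (l := X.dim) (m := X.dim + r) _ _
        (comp_mem' C _ _ hs.a_mem hξm (by omega)) hb (by omega),
        hAct_comp C (l := X.dim + r) _ _ hs.a_mem hξm (by omega)]
    rw [e3, e1, e2]
    split_ifs with h
    · subst h
      rw [IsCK.hAct_same hπ _ _ hz, hgz, hAct_ab hs]
    · rw [IsCK.hAct_other hπ j _ h _ hz, hAct_zero, hAct_zero]
  have hact' : ∀ n l, ∀ x ∈ W.gr X l, hAct C (ξ n).val x = if n = l then x else 0 := by
    intro n l x hx
    by_cases hx0 : x = 0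
    · rw [hx0, hAct_zero]; simp
    have hl : l ≤ 2 * X.dim := by
      by_contra hh
      rw [(W.graded X).eq_bot l (by omega)] at hx
      exact hx0 hx
    have hl2 : l + 2 * r ≤ 2 * Y.dim := by
      have := dim_le hs
      omega
    have hcl : c (l + 2 * r) = l := by
      change min (l + 2 * r - 2 * r) (2 * X.dim) = l
      omega
    have e1 : (ξ n).val = ∑ j ∈ (Finset.range (2 * Y.dim + 1)).filter (fun j => c j = n),
      (η j).val := Corr.sum_val C _ _
    rw [e1, hAct_sum_left, Finset.sum_congr rfl (fun j _ => hact j l x hx), Finset.sum_ite_eq']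
    by_cases hn : n = l
    · subst hn
      have hmem : n + 2 * r ∈ (Finset.range (2 * Y.dim + 1)).filter (fun j => c j = n) :=
        Finset.mem_filter.2 ⟨Finset.mem_range.2 (by omega), hcl⟩
      rw [if_pos rfl, if_pos hmem]
    · rw [if_neg hn, if_neg]
      intro hh
      exact hn ((Finset.mem_filter.1 hh).2.symm.trans hcl)
  have hCK : C.IsCK X (fun l => (ξ l).val) := by
    refine ⟨fun i => (ξ i).2, fun i hi => congrArg Corr.val (hreg.zero i hi),
      fun i => congrArg Corr.val (hreg.idem i),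
      fun i j hij => congrArg Corr.val (hreg.orth j i hij.symm), ?_, ?_, ?_⟩
    · have := congrArg Corr.val hreg.sum
      rwa [Corr.sum_val] at this
    · intro i x hx y
      change pairH C x y (ξ i).val = _
      rw [← tr_hAct, hact' i i x hx, if_pos rfl]
    · intro i j hij x hx y
      change pairH C x y (ξ i).val = _
      rw [← tr_hAct, hact' i j x hx, if_neg hij, zero_mul, ChowTheory.tr_zero]
  refine ⟨fun l => (ξ l).val, hCK, fun hN hD => ?_⟩
  rw [murreD_iff hCK] at hD
  rw [murreD_iff hπ]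
  intro v hv hv0 j hj
  have key := h8 (2 * (i + r)) (fun j hj w hw => Subtype.ext (hN j hj w.1 w.2 hw)) ?_ j hj
    (⟨v, hv⟩ : CHiL Y (i + r)) hv0
  · exact congrArg Subtype.val key
  · rintro j hj ⟨w, hw⟩ hw0
    change C.cl Y w = 0 at hw0
    apply Subtype.ext
    change C.act (ξ' j).val w = 0
    -- `ξ' j = a ∘ η j ∘ b`
    have hbw : C.act b w ∈ CHi X i := act_mem' C b hb w hw (by omega)
    have hjN' : 2 * (i + r) ≤ j := hj
    have hbw0 : C.cl X (C.act b w) = 0 := C.cl_act_of_left b w hw0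
    have hηw : C.act (η j).val (C.act b w) = 0 := by
      by_cases hjN : j ≤ 2 * Y.dim
      · by_cases hdi : X.dim < i
        · rw [ChowTheory.eq_zero_of_dim_lt i hdi _ hbw, C.act_zero]
        · have h9 : C.act (ξ (c j)).val (C.act b w) = 0 := hD _ hbw hbw0 (c j) (by
            change 2 * i ≤ min (j - 2 * r) (2 * X.dim)
            omega)
          have h10 : η j * ξ (c j) = η j := by
            simp only [hξ]
            rw [Finset.mul_sum, Finset.sum_eq_single j, hid]
            · intro l _ hl; exact hor j l hl.symm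
            · intro hh
              have hjr : j ∈ Finset.range (2 * Y.dim + 1) := Finset.mem_range.2 (by omega)
              exact (hh (Finset.mem_filter.2 ⟨hjr, rfl⟩)).elim
          have h11 := congrArg Corr.val h10
          rw [Corr.mul_val] at h11
          rw [← h11, C.act_comp, h9, C.act_zero]
      · have : (η j).val = 0 := by
          rw [hηval, h4 j (by omega), Corr.zero_val, C.comp_zero, C.zero_comp]
        rw [this]; exact C.act_zero' _
    have h12 : (ξ' j).val = C.comp (C.comp b (η j).val) a := by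
      rw [hηval]
      calc (ξ' j).val = C.comp (C.comp (C.comp b a) (ξ' j).val) (C.comp b a) := by
            rw [hgξ, hξg]
        _ = _ := by simp only [C.comp_assoc]
    rw [h12, C.act_comp, C.act_comp, hηw, C.act_zero]

end YtoX

/-! ### From `X` to `Y` -/

section XtoY

variable {ξ : ℕ → CH (X.prod X)} (hξ : C.IsCK X ξ)
include hξ

theorem ascend (i : ℕ) : ∃ π : ℕ → CH (Y.prod Y), C.IsCK Y π ∧
    (C.MurreD Y π (i + r) → C.MurreD X ξ i) := by
  classical
  obtain ⟨m, hm, hb⟩ := hs.b_mem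
  have hdim := dim_le hs
  -- the pieces `a ξ_l b`
  have hμ : ∀ l, C.comp (C.comp b (ξ l)) a ∈ CHi (Y.prod Y) Y.dim := fun l =>
    comp_mem' C (m := m) _ _ (comp_mem' C _ _ hb (hξ.mem l) rfl) hs.a_mem (by omega)
  set μ : ℕ → Corr C Y := fun l => ⟨C.comp (C.comp b (ξ l)) a, hμ l⟩ with hμdef
  have hμval : ∀ l, (μ l).val = C.comp (C.comp b (ξ l)) a := fun l => rfl
  have hμμ : ∀ i j, C.comp (μ i).val (μ j).val = C.comp (C.comp b (C.comp (ξ i) (ξ j))) a := by
    intro i j
    rw [hμval, hμval]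
    calc C.comp (C.comp (C.comp b (ξ i)) a) (C.comp (C.comp b (ξ j)) a) =
        C.comp (C.comp b (C.comp (C.comp (ξ i) (C.comp a b)) (ξ j))) a := by
          simp only [C.comp_assoc]
      _ = _ := by rw [hs.retract, C.comp_Δ]
  have hμid : ∀ j, μ j * μ j = μ j := fun j => Corr.ext (by
    rw [Corr.mul_val, hμμ, hξ.idem]; rfl)
  have hμor : ∀ i j, i ≠ j → μ i * μ j = 0 := fun i j hij => Corr.ext (by
    rw [Corr.mul_val, hμμ, hξ.orth j i hij.symm, C.comp_zero, C.zero_comp]; rfl)
  have hμshift : ∑ j ∈ Finset.range (2 * Y.dim + 1), (if 2 * r ≤ j then μ (j - 2 * r) else 0) =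
      ∑ l ∈ Finset.range (2 * X.dim + 1), μ l := by
    have hμ0 : ∀ l, 2 * X.dim < l → μ l = 0 := fun l hl => Corr.ext (by
      rw [hμval, hξ.zero l hl, C.comp_zero, C.zero_comp]; rfl)
    have key : ∀ N, 2 * X.dim + 2 * r ≤ N → ∑ j ∈ Finset.range (N + 1),
        (if 2 * r ≤ j then μ (j - 2 * r) else 0) = ∑ l ∈ Finset.range (2 * X.dim + 1), μ l := by
      intro N hN
      obtain ⟨t, rfl⟩ := Nat.exists_eq_add_of_le hN
      have e1 : 2 * X.dim + 2 * r + t + 1 = 2 * r + (2 * X.dim + 1 + t) := by ring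
      rw [e1, Finset.sum_range_add, Finset.sum_range_add]
      have e2 : ∑ j ∈ Finset.range (2 * r), (if 2 * r ≤ j then μ (j - 2 * r) else 0) = 0 :=
        Finset.sum_eq_zero fun j hj => if_neg (by have := Finset.mem_range.1 hj; omega)
      have e3 : ∑ j ∈ Finset.range t, (if 2 * r ≤ 2 * r + (2 * X.dim + 1 + j) then
          μ (2 * r + (2 * X.dim + 1 + j) - 2 * r) else 0) = 0 :=
        Finset.sum_eq_zero fun j _ => by
          rw [if_pos (by omega)]; exact hμ0 _ (by omega)
      rw [e2, e3, zero_add, add_zero]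
      refine Finset.sum_congr rfl fun j _ => ?_
      rw [if_pos (by omega), Nat.add_sub_cancel_left]
    exact key _ (by omega)
  have hμ0 : ∀ l, 2 * X.dim < l → μ l = 0 := fun l hl => Corr.ext (by
    rw [hμval, hξ.zero l hl, C.comp_zero, C.zero_comp]; rfl)
  have hμν : ∀ l j, μ l * nu hs j = 0 := fun l j => Corr.ext (by
    rw [Corr.mul_val, hμval, nu_val]
    calc C.comp (ν j) (C.comp (C.comp b (ξ l)) a) = C.comp (C.comp (C.comp (ν j) b) (ξ l)) a := by
          simp only [C.comp_assoc]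
      _ = 0 := by rw [(a_nu hs j).2, C.zero_comp, C.zero_comp])
  have hνμ : ∀ l j, nu hs j * μ l = 0 := fun l j => Corr.ext (by
    rw [Corr.mul_val, hμval, nu_val, C.comp_assoc, (a_nu hs j).1, C.comp_zero]; rfl)
  have hνid : ∀ i, nu hs i * nu hs i = nu hs i := fun i => Corr.ext (hs.idem i)
  have hνor : ∀ i j, i ≠ j → nu hs i * nu hs j = 0 := fun i j hij =>
      Corr.ext (hs.orth j i hij.symm)
  set π : ℕ → Corr C Y := fun j => (if 2 * r ≤ j then μ (j - 2 * r) else 0) + nu hs j with hπ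
  have hdec : Helper47.Chow.IsDecomp (2 * Y.dim) π := by
    refine ⟨fun j => ?_, fun i j hij => ?_, ?_, fun j hj => ?_⟩
    · simp only [hπ]
      split_ifs with h
      · rw [mul_add, add_mul, add_mul, hμid, hμν, hνμ, hνid, add_zero, zero_add]
      · rw [zero_add, hνid]
    · simp only [hπ]
      split_ifs with h h'
      · rw [mul_add, add_mul, add_mul, hμor _ _ (by omega), hμν, hνμ, hνor i j hij]
        simp
      · rw [zero_add, add_mul, hμν, hνor i j hij, add_zero]
      · rw [zero_add, mul_add, hνμ, hνor i j hij, add_zero]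
      · rw [zero_add, zero_add, hνor i j hij]
    · simp only [hπ]
      rw [Finset.sum_add_distrib]
      have e2 : ∑ l ∈ Finset.range (2 * X.dim + 1), μ l =
          1 - ∑ j ∈ Finset.range (2 * Y.dim + 1), nu hs j := Corr.ext (by
        rw [g_val, Corr.sum_val]
        have : ∑ l ∈ Finset.range (2 * X.dim + 1), (μ l).val =
            C.comp (C.comp b (∑ l ∈ Finset.range (2 * X.dim + 1), ξ l)) a := by
          rw [comp_sum', sum_comp']; rfl
        rw [this, hξ.sum, C.comp_Δ])
      rw [hμshift, e2]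
      abel
    · simp only [hπ]
      rw [show nu hs j = 0 from Corr.ext (hs.ν_zero j hj), add_zero]
      split_ifs with h
      · exact hμ0 _ (by omega)
      · rfl
  -- cohomological action
  have hactμ : ∀ l (z : W.H Y), hAct C (μ l).val z = hAct C a (hAct C (ξ l) (hAct C b z)) := by
    intro l z
    rw [hμval, hAct_comp C (l := Y.dim) (m := m) _ _ (comp_mem' C _ _ hb (hξ.mem l) rfl)
      hs.a_mem (by omega), hAct_comp C (l := m) _ _ hb (hξ.mem l) rfl]
  have hbsmall : ∀ l, ∀ z ∈ W.gr Y l, l < 2 * r → hAct C b z = 0 := by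
    intro l z hz hl
    apply tr_eq_zero_of_homog W
    intro n y hy
    by_cases hn : n ≤ 2 * X.dim
    · rw [tr_hAct, pairH_apply]
      refine (W.trace _).eq_zero (l + 2 * m + n) _ ?_
        ((W.graded _).mul_mem _ _ _ _ ((W.graded _).mul_mem _ _ _ _
          ((W.pull_hom _).map_mem _ _ hz) (C.cl_mem _ _ _ hb)) ((W.pull_hom _).map_mem _ _ hy))
      change l + 2 * m + n ≠ 2 * (X.dim + Y.dim)
      omega
    · rw [(W.graded X).eq_bot n (by omega)] at hy
      have : y = 0 := hy
      rw [this, mul_zero, ChowTheory.tr_zero]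
  have hsplit : ∀ l, ∀ z ∈ W.gr Y l, hAct C a (hAct C b z) + hAct C (ν l) z = z := by
    intro l z hz
    by_cases hl : l ≤ 2 * Y.dim
    · have e1 := hAct_Δ C z
      rw [← hs.sum, hAct_add_left, hAct_sum_left, hAct_ba hs, Finset.sum_eq_single l] at e1
      · exact e1
      · intro j _ hj; exact hAct_nu_other hs j l hj z hz
      · intro hh; exact absurd (Finset.mem_range.2 (by omega)) hh
    · rw [(W.graded Y).eq_bot l (by omega)] at hz
      have : z = 0 := hz
      rw [this, hAct_zero, hAct_zero, hAct_zero, add_zero]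
  have hactπ : ∀ j l, ∀ z ∈ W.gr Y l, hAct C (π j).val z = if j = l then z else 0 := by
    intro j l z hz
    have e0 : (π j).val = (if 2 * r ≤ j then μ (j - 2 * r) else 0 : Corr C Y).val + ν j := rfl
    rw [e0, hAct_add_left]
    by_cases hl : 2 * r ≤ l
    · have hw : hAct C b z ∈ W.gr X (l - 2 * r) := hAct_mem C b hb z hz (by omega)
      by_cases hj : 2 * r ≤ j
      · rw [if_pos hj, hactμ]
        split_ifs with h
        · subst h
          rw [IsCK.hAct_same hξ _ _ hw]
          exact hsplit j z hz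
        · rw [IsCK.hAct_other hξ _ _ (by omega) _ hw, hAct_zero, hAct_nu_other hs j l h z hz,
            add_zero]
      · rw [if_neg hj, if_neg (by omega), hAct_nu_other hs j l (by omega) z hz, add_zero]
        exact hAct_zero_left C z
    · have hbz := hbsmall l z hz (by omega)
      have e1 : hAct C (if 2 * r ≤ j then μ (j - 2 * r) else 0 : Corr C Y).val z = 0 := by
        split_ifs with hj
        · rw [hactμ, hbz, hAct_zero, hAct_zero]
        · exact hAct_zero_left C z
      rw [e1, zero_add]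
      split_ifs with h
      · subst h
        have := hsplit j z hz
        rwa [hbz, hAct_zero, zero_add] at this
      · exact hAct_nu_other hs j l h z hz
  have hCK : C.IsCK Y (fun l => (π l).val) := by
    refine ⟨fun i => (π i).2, fun i hi => congrArg Corr.val (hdec.zero i hi),
      fun i => congrArg Corr.val (hdec.idem i),
      fun i j hij => congrArg Corr.val (hdec.orth j i hij.symm), ?_, ?_, ?_⟩
    · have := congrArg Corr.val hdec.sum
      rwa [Corr.sum_val] at this
    · intro i x hx y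
      change pairH C x y (π i).val = _
      rw [← tr_hAct, hactπ i i x hx, if_pos rfl]
    · intro i j hij x hx y
      change pairH C x y (π i).val = _
      rw [← tr_hAct, hactπ i j x hx, if_neg hij, zero_mul, ChowTheory.tr_zero]
  refine ⟨fun l => (π l).val, hCK, fun hD => ?_⟩
  rw [murreD_iff hCK] at hD
  rw [murreD_iff hξ]
  intro w hw hw0 l hl
  have haw : C.act a w ∈ CHi Y (i + r) := act_mem' C a hs.a_mem w hw (by omega)
  have h1 : C.act (π (l + 2 * r)).val (C.act a w) = 0 :=
    hD _ haw (C.cl_act_of_left a w hw0) (l + 2 * r) (by omega)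
  have e0 : (π (l + 2 * r)).val = C.comp (C.comp b (ξ l)) a + ν (l + 2 * r) := by
    simp only [hπ]
    rw [if_pos (by omega), Nat.add_sub_cancel]
    rfl
  rw [e0, C.act_add] at h1
  have h2 : C.act (ν (l + 2 * r)) (C.act a w) = 0 := by
    rw [← C.act_comp, (a_nu hs _).1, C.act_zero']
  have h3 : C.act (C.comp (C.comp b (ξ l)) a) (C.act a w) = C.act a (C.act (ξ l) w) := by
    rw [C.act_comp, C.act_comp, ← C.act_comp a b, hs.retract, C.act_Δ]
  rw [h2, h3, add_zero] at h1
  calc C.act (ξ l) w = C.act b (C.act a (C.act (ξ l) w)) := by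
        rw [← C.act_comp a b, hs.retract, C.act_Δ]
    _ = 0 := by rw [h1, C.act_zero]

end XtoY

end Splitting

/-- **Theorem.**  Let `h(Y) = h(X)(-r) ⊕ N` be a splitting as in `IsSplitting`.  Then `X` has a
Chow-Künneth decomposition if and only if `Y` has one, and if `N` satisfies (D) in codimension
`i + r`, then all Chow-Künneth decompositions of `Y` satisfy (D) in codimension `i + r` if and only
if all those of `X` satisfy (D) in codimension `i`. -/
theorem splitting_invariance {X Y : SmProjVar k} {r : ℕ} {a : CH (X.prod Y)} {b : CH (Y.prod X)}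
    {ν : ℕ → CH (Y.prod Y)} (hs : C.IsSplitting X Y r a b ν) :
    ((∃ ξ, C.IsCK X ξ) ↔ ∃ π, C.IsCK Y π) ∧
    ∀ i, (∀ j, 2 * (i + r) ≤ j → ∀ c ∈ CHi Y (i + r), C.ops.cl Y c = 0 → C.act (ν j) c = 0) →
      ((∀ π, C.IsCK Y π → C.MurreD Y π (i + r)) ↔ ∀ ξ, C.IsCK X ξ → C.MurreD X ξ i) := by
  refine ⟨⟨?_, ?_⟩, fun i hN => ⟨?_, ?_⟩⟩
  · rintro ⟨ξ, hξ⟩
    obtain ⟨π, hπ, -⟩ := Splitting.ascend hs hξ 0
    exact ⟨π, hπ⟩
  · rintro ⟨π, hπ⟩
    obtain ⟨ξ, hξ, -⟩ := Splitting.descend hs hπ 0
    exact ⟨ξ, hξ⟩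
  · intro H ξ hξ
    obtain ⟨π, hπ, h⟩ := Splitting.ascend hs hξ i
    exact h (H π hπ)
  · intro H π hπ
    obtain ⟨ξ, hξ, h⟩ := Splitting.descend hs hπ i
    exact h hN (H ξ hξ)

end Pool.Agent.Helper47.Chow
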